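import Pool.Agent.Lib.MP_4eafcb_co.Codes

set_option autoImplicit false

namespace Pool.Agent.Lib.MP_4eafcb_co

open Equiv

/-- The binary vector with the given bit mask. -/
def vec (n m : ℕ) : Fin n → ZMod 2 := fun i => if m.testBit i then 1 else 0

theorem vec_ne_zero {n m : ℕ} {i : Fin n} : vec n m i ≠ 0 ↔ m.testBit i = true := by
  unfold vec
  split_ifs with h <;> simp [h]

theorem vec_xor (n a b : ℕ) : vec n (a ^^^ b) = vec n a + vec n b := by
  ext i
  simp only [vec, Nat.testBit_xor, Pi.add_apply]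
  cases a.testBit i <;> cases b.testBit i <;> decide

theorem vec_zero (n : ℕ) : vec n 0 = 0 := by
  ext i; simp [vec]

theorem eq_of_ne_zero_iff {β : Type} {c d : β → ZMod 2} (h : ∀ i, c i ≠ 0 ↔ d i ≠ 0) : c = d := by
  ext i
  have := h i
  revert this
  generalize c i = x
  generalize d i = y
  revert x y
  decide

theorem vec_inj {n a b : ℕ} (ha : a < 2 ^ n) (hb : b < 2 ^ n) (h : vec n a = vec n b) : a = b := by
  apply Nat.eq_of_testBit_eq
  intro i
  by_cases hi : i < n
  · have h1 := @vec_ne_zero n a ⟨i, hi⟩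
    have h2 := @vec_ne_zero n b ⟨i, hi⟩
    rw [h] at h1
    exact Bool.eq_iff_iff.2 (h1.symm.trans h2)
  · have hp : 2 ^ n ≤ 2 ^ i := Nat.pow_le_pow_right (by norm_num) (not_lt.1 hi)
    rw [Nat.testBit_lt_two_pow (ha.trans_le hp), Nat.testBit_lt_two_pow (hb.trans_le hp)]

theorem exists_vec (n : ℕ) (c : Fin n → ZMod 2) : ∃ t < 2 ^ n, c = vec n t := by
  have hinj : Function.Injective (fun t : Fin (2 ^ n) => vec n t) :=
    fun a b h => Fin.ext (vec_inj a.2 b.2 h)
  have hb := (Fintype.bijective_iff_injective_and_card _).2 ⟨hinj, by simp⟩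
  obtain ⟨t, ht⟩ := hb.2 c
  exact ⟨t, t.2, ht.symm⟩

/-- All binary combinations of a list of masks. -/
def spanL : List ℕ → List ℕ
  | [] => [0]
  | g :: G => spanL G ++ (spanL G).map (fun c => Nat.xor c g)

/-- The code spanned by a list of masks. -/
def sp (n : ℕ) (G : List ℕ) : BC (Fin n) :=
  Submodule.span (ZMod 2) {c | ∃ g ∈ G, c = vec n g}

theorem mem_sp (n : ℕ) : ∀ (G : List ℕ) (c : Fin n → ZMod 2),
    c ∈ sp n G ↔ ∃ m ∈ spanL G, c = vec n m
  | [], c => by simp [sp, spanL, vec_zero]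
  | g :: G, c => by
    have h1 : {c | ∃ g' ∈ g :: G, c = vec n g'} = insert (vec n g) {c | ∃ g' ∈ G, c = vec n g'} := by
      ext c; simp
    rw [sp, h1, Submodule.mem_span_insert]
    constructor
    · rintro ⟨a, z, hz, rfl⟩
      obtain ⟨m, hm, rfl⟩ := (mem_sp n G z).1 hz
      by_cases ha : a = 0
      · exact ⟨m, List.mem_append_left _ hm, by simp [ha]⟩
      · refine ⟨m ^^^ g, List.mem_append_right _ (List.mem_map.2 ⟨m, hm, rfl⟩), ?_⟩
        rw [zmod2_eq_one ha, vec_xor, one_smul, add_comm]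
    · rintro ⟨m, hm, rfl⟩
      rcases List.mem_append.1 hm with hm | hm
      · exact ⟨0, _, (mem_sp n G _).2 ⟨m, hm, rfl⟩, by simp⟩
      · obtain ⟨m, hm', rfl⟩ := List.mem_map.1 hm
        refine ⟨1, _, (mem_sp n G _).2 ⟨m, hm', rfl⟩, ?_⟩
        rw [one_smul, add_comm]
        exact vec_xor n m g

theorem spanL_lt (n : ℕ) : ∀ (G : List ℕ), (∀ g ∈ G, g < 2 ^ n) → ∀ m ∈ spanL G, m < 2 ^ n
  | [], _, m, hm => by
    simp only [spanL, List.mem_singleton] at hm
    rw [hm]; positivity
  | g :: G, h, m, hm => by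
    have ih := spanL_lt n G (fun g hg => h g (List.mem_cons_of_mem _ hg))
    rcases List.mem_append.1 hm with hm | hm
    · exact ih m hm
    · obtain ⟨m, hm', rfl⟩ := List.mem_map.1 hm
      exact Nat.xor_lt_two_pow (ih m hm') (h g List.mem_cons_self)

/-- The bit set of a list. -/
def bits (L : List ℕ) : ℕ := L.foldr (fun c acc => Nat.lor (Nat.shiftLeft 1 c) acc) 0

theorem testBit_bits : ∀ (L : List ℕ) (t : ℕ), (bits L).testBit t = true ↔ t ∈ L
  | [], t => by simp [bits]
  | c :: L, t => by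
    have h : bits (c :: L) = (1 <<< c) ||| bits L := rfl
    rw [h, Nat.testBit_or, Bool.or_eq_true, testBit_bits L t, Nat.one_shiftLeft,
      Nat.testBit_two_pow, List.mem_cons]
    simp [eq_comm]

/-- The bits of `c` at the listed positions. -/
def gather : List ℕ → ℕ → ℕ
  | [], _ => 0
  | a :: l, c => Nat.add (Nat.mod (Nat.shiftRight c a) 2) (Nat.mul 2 (gather l c))

theorem testBit_gather : ∀ (l : List ℕ) (c i : ℕ), i < l.length →
    (gather l c).testBit i = c.testBit (l.getD i 0)
  | [], _, _, h => by simp at h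
  | a :: l, c, 0, _ => by
    have h : gather (a :: l) c = (c >>> a) % 2 + 2 * gather l c := rfl
    rw [h, Nat.testBit_zero, List.getD_cons_zero, Nat.testBit_eq_decide_div_mod_eq,
      Nat.shiftRight_eq_div_pow]
    simp
  | a :: l, c, i + 1, hi => by
    have h : gather (a :: l) c = (c >>> a) % 2 + 2 * gather l c := rfl
    rw [h, Nat.testBit_succ, List.getD_cons_succ, ← testBit_gather l c i (by simpa using hi)]
    congr 1
    omega

/-- The mask with bit `l[i]` set for each bit `i` of `t`. -/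
def scat : List ℕ → ℕ → ℕ
  | [], _ => 0
  | a :: l, t => Nat.lor (Nat.shiftLeft (Nat.mod t 2) a) (scat l (Nat.div t 2))

theorem testBit_scat : ∀ (l : List ℕ) (t y : ℕ), (scat l t).testBit y = true ↔
    ∃ i < l.length, l.getD i 0 = y ∧ t.testBit i = true
  | [], t, y => by simp [scat]
  | a :: l, t, y => by
    have h : scat (a :: l) t = ((t % 2) <<< a) ||| scat l (t / 2) := rfl
    have h2 : ((t % 2) <<< a).testBit y = true ↔ a = y ∧ t.testBit 0 = true := by
      rcases Nat.mod_two_eq_zero_or_one t with h | h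
      · simp [h, Nat.testBit_zero]
      · rw [h, Nat.one_shiftLeft, Nat.testBit_two_pow]
        simp [h, Nat.testBit_zero]
    rw [h, Nat.testBit_or, Bool.or_eq_true, testBit_scat l (t / 2) y, h2]
    constructor
    · rintro (h | ⟨i, hi, h1, h3⟩)
      · exact ⟨0, by simp, by simpa using h.1, h.2⟩
      · exact ⟨i + 1, by simpa using hi, by simpa using h1, by rwa [Nat.testBit_succ]⟩
    · rintro ⟨i, hi, h1, h3⟩
      cases i with
      | zero => exact Or.inl ⟨by simpa using h1, h3⟩
      | succ i =>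
        exact Or.inr ⟨i, by simpa using hi, by simpa using h1, by rwa [Nat.testBit_succ] at h3⟩

/-- The map `Fin m → Fin n` given by a list. -/
def fn (n m : ℕ) [NeZero n] (l : List ℕ) : Fin m → Fin n := fun i => Fin.ofNat n (l.getD i 0)

/-- The list describes an injective map `Fin m → Fin n`. -/
def wf (n m : ℕ) (l : List ℕ) : Prop := l.length = m ∧ (∀ a ∈ l, a < n) ∧ l.Nodup

instance (n m : ℕ) (l : List ℕ) : Decidable (wf n m l) := by unfold wf; infer_instance

theorem wf.val {n m : ℕ} [NeZero n] {l : List ℕ} (h : wf n m l) (i : Fin m) :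
    (fn n m l i : ℕ) = l.getD i 0 := by
  have hi : (i : ℕ) < l.length := h.1 ▸ i.2
  have : l.getD i 0 < n := by
    rw [List.getD_eq_getElem _ _ hi]
    exact h.2.1 _ (List.getElem_mem _)
  simp only [fn, Fin.val_ofNat, Nat.mod_eq_of_lt this]

theorem wf.inj {n m : ℕ} [NeZero n] {l : List ℕ} (h : wf n m l) :
    Function.Injective (fn n m l) := by
  intro i j hij
  have h1 := congrArg Fin.val hij
  rw [h.val, h.val, List.getD_eq_getElem _ _ (h.1 ▸ i.2),
    List.getD_eq_getElem _ _ (h.1 ▸ j.2)] at h1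
  exact Fin.ext ((List.Nodup.getElem_inj_iff h.2.2).1 h1)

theorem wf.mem_range {n m : ℕ} [NeZero n] {l : List ℕ} (h : wf n m l) (y : Fin n) :
    y ∈ Set.range (fn n m l) ↔ (y : ℕ) ∈ l := by
  constructor
  · rintro ⟨i, rfl⟩
    rw [h.val, List.getD_eq_getElem _ _ (h.1 ▸ i.2)]
    exact List.getElem_mem _
  · intro hy
    obtain ⟨i, hi, h1⟩ := List.getElem_of_mem hy
    refine ⟨⟨i, h.1 ▸ hi⟩, Fin.ext ?_⟩
    rw [h.val, List.getD_eq_getElem _ _ hi, h1]

/-- The set of positions of a mask. -/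
def msk (n F : ℕ) : Set (Fin n) := {y | F.testBit y = true}

theorem msk_zero (n : ℕ) : msk n 0 = ∅ := by
  ext y; simp [msk]

/-- The code `K` has the codeword bit set `T`. -/
def IsCd {m : ℕ} (K : BC (Fin m)) (T : ℕ) : Prop :=
  ∀ d, d ∈ K ↔ ∃ t, T.testBit t = true ∧ d = vec m t

theorem IsCd.eq {m : ℕ} {K K' : BC (Fin m)} {T : ℕ} (h : IsCd K T) (h' : IsCd K' T) : K = K' := by
  ext d; rw [h, h']

theorem isCd_sp (n : ℕ) (G : List ℕ) : IsCd (sp n G) (bits (spanL G)) := by
  intro d
  simp only [mem_sp, testBit_bits]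

theorem and_eq_iff {n c R : ℕ} (hc : c < 2 ^ n) :
    c &&& R = c ↔ ∀ y : Fin n, c.testBit y = true → R.testBit y = true := by
  constructor
  · intro h y hy
    rw [← h, Nat.testBit_and, Bool.and_eq_true] at hy
    exact hy.2
  · intro h
    apply Nat.eq_of_testBit_eq
    intro i
    rw [Nat.testBit_and]
    by_cases hi : i < n
    · have := h ⟨i, hi⟩
      cases h1 : c.testBit i
      · simp
      · simpa using this h1
    · have hp : 2 ^ n ≤ 2 ^ i := Nat.pow_le_pow_right (by norm_num) (not_lt.1 hi)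
      simp [Nat.testBit_lt_two_pow (hc.trans_le hp)]

/-- The codeword bit set of a minor. -/
def img (G l : List ℕ) (F : ℕ) : ℕ :=
  bits (((spanL G).filter (fun c => Nat.beq (Nat.land c (Nat.lor F (bits l))) c)).map (gather l))

theorem vec_gather {n m : ℕ} [NeZero n] {l : List ℕ} (h : wf n m l) (c : ℕ) :
    vec m (gather l c) = vec n c ∘ fn n m l := by
  ext i
  simp only [vec, Function.comp, h.val, testBit_gather l c i (h.1 ▸ i.2)]

theorem isCd_mn {n m : ℕ} [NeZero n] {G l : List ℕ} (hG : ∀ g ∈ G, g < 2 ^ n) (h : wf n m l)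
    (F : ℕ) : IsCd (mn (sp n G) (fn n m l) (msk n F)) (img G l F) := by
  intro d
  have key : ∀ c ∈ spanL G, Nat.beq (Nat.land c (Nat.lor F (bits l))) c = true ↔
      ∀ y, vec n c y ≠ 0 → y ∈ Set.range (fn n m l) ∨ y ∈ msk n F := by
    intro c hc
    rw [Nat.beq_eq]
    refine (and_eq_iff (spanL_lt n G hG c hc)).trans (forall_congr' fun y => ?_)
    have h2 : (Nat.lor F (bits l)).testBit y = (F.testBit y || (bits l).testBit y) :=
      Nat.testBit_or _ _ _
    rw [vec_ne_zero, h2, Bool.or_eq_true, testBit_bits, h.mem_range, or_comm]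
    rfl
  simp only [img, testBit_bits, List.mem_map, List.mem_filter, mem_mn, mem_sp]
  constructor
  · rintro ⟨_, ⟨c, hc, rfl⟩, h1, rfl⟩
    exact ⟨_, ⟨c, ⟨hc, (key c hc).2 h1⟩, rfl⟩, (vec_gather h c).symm⟩
  · rintro ⟨_, ⟨c, ⟨hc, h1⟩, rfl⟩, rfl⟩
    exact ⟨_, ⟨c, hc, rfl⟩, (key c hc).1 h1, vec_gather h c⟩

theorem mn_eq_sp {n m : ℕ} [NeZero n] {G l G' : List ℕ} {F : ℕ} (hG : ∀ g ∈ G, g < 2 ^ n)
    (h : wf n m l) (he : img G l F = bits (spanL G')) :
    mn (sp n G) (fn n m l) (msk n F) = sp m G' :=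
  (he ▸ isCd_mn hG h F).eq (isCd_sp m G')

theorem mn_eq_sp0 {n m : ℕ} [NeZero n] {G l G' : List ℕ} (hG : ∀ g ∈ G, g < 2 ^ n)
    (h : wf n m l) (he : img G l 0 = bits (spanL G')) :
    mn (sp n G) (fn n m l) ∅ = sp m G' := by
  rw [← msk_zero]; exact mn_eq_sp hG h he

theorem mn_eq_mn0 {n n' m : ℕ} [NeZero n] [NeZero n'] {G l G' l' : List ℕ}
    (hG : ∀ g ∈ G, g < 2 ^ n) (h : wf n m l) (hG' : ∀ g ∈ G', g < 2 ^ n') (h' : wf n' m l')
    (he : img G l 0 = img G' l' 0) :
    mn (sp n G) (fn n m l) ∅ = mn (sp n' G') (fn n' m l') ∅ := by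
  rw [← msk_zero, ← msk_zero]
  exact (he ▸ isCd_mn hG h 0).eq (isCd_mn hG' h' 0)

/-- The permutation given by a list. -/
noncomputable def mkP {n : ℕ} [NeZero n] {l : List ℕ} (h : wf n n l) : Perm (Fin n) :=
  Equiv.ofBijective (fn n n l) (Finite.injective_iff_bijective.1 h.inj)

theorem coe_mkP {n : ℕ} [NeZero n] {l : List ℕ} (h : wf n n l) : ⇑(mkP h) = fn n n l := rfl

/-- The sign of an injective list. -/
def sgnL : List ℕ → ℤ
  | [] => 1
  | x :: l => (l.map (fun y => if x < y then (1 : ℤ) else -1)).prod * sgnL l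

theorem sgnL_ofFn : ∀ (n : ℕ) (f : Fin n → ℕ),
    sgnL (List.ofFn f) = ∏ i, ∏ j ∈ Finset.Ioi i, if f i < f j then (1 : ℤ) else -1
  | 0, f => by simp [sgnL]
  | n + 1, f => by
    rw [List.ofFn_succ, sgnL, sgnL_ofFn n, Fin.prod_univ_succ, Fin.prod_Ioi_zero,
      List.map_ofFn, List.prod_ofFn]
    simp only [Fin.prod_Ioi_succ, Function.comp]

theorem sg_eq_sgnL {n : ℕ} (σ : Perm (Fin n)) :
    sg σ = (sgnL (List.ofFn (fun i => (σ i : ℕ))) : ℚ) := by
  rw [sg, sgnL_ofFn, σ.sign_eq_prod_prod_Ioi]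
  simp only [Units.coe_prod, Fin.lt_def]
  congr 1
  refine Finset.prod_congr rfl fun i _ => Finset.prod_congr rfl fun j _ => ?_
  split_ifs <;> rfl

theorem ofFn_fn {n m : ℕ} [NeZero n] {l : List ℕ} (h : wf n m l) :
    List.ofFn (fun i => (fn n m l i : ℕ)) = l := by
  apply List.ext_getElem (by simp [h.1])
  intro i h1 h2
  rw [List.getElem_ofFn, h.val, List.getD_eq_getElem _ _ h2]

theorem sg_mkP {n : ℕ} [NeZero n] {l : List ℕ} (h : wf n n l) : sg (mkP h) = sgnL l := by
  rw [sg_eq_sgnL, coe_mkP, ofFn_fn h]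

/-- Backtracking search over injective lists with pruning. -/
def srch (n : ℕ) (ok fin : List ℕ → Bool) : ℕ → List ℕ → Bool
  | 0, a => fin a
  | k + 1, a => (List.range n).all fun x =>
      a.contains x || !ok (a ++ [x]) || srch n ok fin k (a ++ [x])

theorem srch_sound (n : ℕ) (ok fin : List ℕ → Bool) : ∀ (r a : List ℕ), (a ++ r).Nodup →
    (∀ x ∈ r, x < n) → (∀ j, ok ((a ++ r).take j) = true) → srch n ok fin r.length a = true →
    fin (a ++ r) = true
  | [], a, _, _, _, h => by simpa [srch] using h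
  | x :: r, a, h1, h2, h3, h => by
    have h4 := List.all_eq_true.1 h x (List.mem_range.2 (h2 x List.mem_cons_self))
    have h5 : a.contains x = false := by
      rw [List.nodup_append] at h1
      rw [Bool.eq_false_iff]
      intro hx
      exact h1.2.2 x (by simpa using hx) x List.mem_cons_self rfl
    have h6 : ok (a ++ [x]) = true := by
      have := h3 (a.length + 1)
      rwa [List.take_append, List.take_of_length_le (by omega), Nat.add_sub_cancel_left] at this
    rw [h5, h6] at h4
    have h7 : a ++ x :: r = (a ++ [x]) ++ r := by simp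
    rw [h7] at h1 h3 ⊢
    exact srch_sound n ok fin r _ h1 (fun y hy => h2 y (List.mem_cons_of_mem _ hy)) h3
      (by simpa using h4)

theorem srch_split {n k : ℕ} {ok fin : List ℕ → Bool}
    (h : ∀ x < n, srch n ok fin k [x] = true) : srch n ok fin (k + 1) [] = true :=
  List.all_eq_true.2 fun x hx => by simp [h x (List.mem_range.1 hx)]

/-- The pruning test: listed words that are already determined must go to codewords. -/
def okR (T : ℕ) (C a : List ℕ) : Bool :=
  C.all fun t => Nat.ble (Nat.shiftLeft 1 a.length) t || T.testBit (scat a t)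

theorem search_restr {n m : ℕ} {G G' C : List ℕ} (hG : ∀ g ∈ G, g < 2 ^ n)
    (hC : ∀ t ∈ C, t ∈ spanL G') (fin : List ℕ → Bool)
    (hs : srch n (okR (bits (spanL G)) C) fin m [] = true) (f : Fin m → Fin n)
    (hf : Function.Injective f) (he : mn (sp n G) f ∅ = sp m G') :
    fin (List.ofFn (fun i => (f i : ℕ))) = true := by
  have h := srch_sound n (okR (bits (spanL G)) C) fin (List.ofFn (fun i => (f i : ℕ))) []
    (by rw [List.nil_append, List.nodup_ofFn]; exact Fin.val_injective.comp hf) (by simp) ?_ (by simpa using hs)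
  · simpa using h
  intro j
  rw [List.nil_append, okR, List.all_eq_true]
  intro t ht
  set a := (List.ofFn (fun i => (f i : ℕ))).take j with ha
  by_cases h1 : Nat.ble (Nat.shiftLeft 1 a.length) t = true
  · rw [h1, Bool.true_or]
  have h2 : t < 2 ^ a.length := by
    rw [Nat.ble_eq, not_le] at h1
    rwa [← Nat.one_shiftLeft]
  have hlen : a.length ≤ m := by simp [ha]
  have hget : ∀ i (hi : i < a.length), a.getD i 0 = f ⟨i, hi.trans_le hlen⟩ := by
    intro i hi
    rw [List.getD_eq_getElem _ _ hi]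
    simp [ha]
  have h3 : vec m t ∈ mn (sp n G) f ∅ := he ▸ (mem_sp m G' _).2 ⟨t, hC t ht, rfl⟩
  obtain ⟨_, hc0, h4, h5⟩ := h3
  obtain ⟨c, hc, rfl⟩ := (mem_sp n G _).1 hc0
  have h6 : scat a t = c := by
    apply Nat.eq_of_testBit_eq
    intro y
    rw [Bool.eq_iff_iff, testBit_scat]
    constructor
    · rintro ⟨i, hi, rfl, h7⟩
      rw [hget i hi, ← vec_ne_zero]
      have := congrFun h5 ⟨i, hi.trans_le hlen⟩
      rw [Function.comp_apply] at this
      rw [← this, vec_ne_zero]
      exact h7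
    · intro hy
      have hyn : y < n := by
        by_contra h7
        have hp : 2 ^ n ≤ 2 ^ y := Nat.pow_le_pow_right (by norm_num) (not_lt.1 h7)
        rw [Nat.testBit_lt_two_pow ((spanL_lt n G hG c hc).trans_le hp)] at hy
        exact absurd hy (by simp)
      obtain ⟨i, hi⟩ := (h4 ⟨y, hyn⟩ (vec_ne_zero.2 hy)).resolve_right (by simp)
      have h7 : t.testBit i = true := by
        rw [← vec_ne_zero, h5, Function.comp_apply, hi, vec_ne_zero]
        exact hy
      have h8 : (i : ℕ) < a.length := by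
        by_contra h9
        have hp : 2 ^ a.length ≤ 2 ^ (i : ℕ) := Nat.pow_le_pow_right (by norm_num) (not_lt.1 h9)
        rw [Nat.testBit_lt_two_pow (h2.trans_le hp)] at h7
        exact absurd h7 (by simp)
      exact ⟨i, h8, by rw [hget i h8]; exact congrArg Fin.val hi, h7⟩
  rw [h6, (testBit_bits _ _).2 hc]
  simp

/-- Connectivity certificate: a chain of circuits covering the ground set. -/
def connChk (n : ℕ) (G cs : List ℕ) : Bool :=
  (cs.all fun m => (spanL G).contains m &&
    (spanL G).all fun c => !(Nat.beq (Nat.land c m) c) || Nat.beq c 0 || Nat.beq c m) &&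
  Nat.beq (cs.foldl (fun acc m => if Nat.land acc m = 0 then acc else Nat.lor acc m) 1) (2 ^ n - 1)

theorem connC_sp {n : ℕ} [NeZero n] {G cs : List ℕ} (hG : ∀ g ∈ G, g < 2 ^ n)
    (h : connChk n G cs = true) : ConnC (sp n G) := by
  rw [connChk, Bool.and_eq_true, List.all_eq_true] at h
  have main : ∀ A, Sep (sp n G) A → (0 : Fin n) ∈ A → A = Set.univ := by
    intro A hA h0
    have hm : ∀ m ∈ cs, m < 2 ^ n ∧ ((∀ y : Fin n, m.testBit y = true → y ∉ A) ∨
        (∀ y : Fin n, m.testBit y = true → y ∈ A)) := by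
      intro m hm
      have h1 := h.1 m hm
      rw [Bool.and_eq_true, List.all_eq_true] at h1
      have hm' : m ∈ spanL G := by simpa using h1.1
      refine ⟨spanL_lt n G hG m hm', ?_⟩
      obtain ⟨c, hc, h2⟩ := (mem_sp n G _).1 (hA _ ((mem_sp n G _).2 ⟨m, hm', rfl⟩))
      have h3 : ∀ y : Fin n, c.testBit y = true ↔ (y ∈ A ∧ m.testBit y = true) := by
        intro y
        rw [← vec_ne_zero, ← h2, ← vec_ne_zero]
        by_cases hy : y ∈ A <;> simp [hy]
      have h4 : Nat.beq (Nat.land c m) c = true := by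
        rw [Nat.beq_eq]
        exact (and_eq_iff (spanL_lt n G hG c hc)).2 fun y hy => ((h3 y).1 hy).2
      have h5 := h1.2 c hc
      rw [h4] at h5
      simp only [Bool.not_true, Bool.false_or, Bool.or_eq_true, Nat.beq_eq] at h5
      rcases h5 with rfl | rfl
      · exact Or.inl fun y hy hA => by simpa using (h3 y).2 ⟨hA, hy⟩
      · exact Or.inr fun y hy => ((h3 y).1 hy).1
    have inv : ∀ (l : List ℕ) (acc : ℕ), (∀ m ∈ l, m ∈ cs) →
        (∀ y : Fin n, acc.testBit y = true → y ∈ A) → ∀ y : Fin n,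
        (l.foldl (fun acc m => if Nat.land acc m = 0 then acc else Nat.lor acc m) acc).testBit y
          = true → y ∈ A := by
      intro l
      induction l with
      | nil => intro acc _ h; exact h
      | cons m l ih =>
        intro acc hl hacc
        rw [List.foldl_cons]
        refine ih _ (fun m hm => hl m (List.mem_cons_of_mem _ hm)) ?_
        split_ifs with h1
        · exact hacc
        · obtain ⟨hlt, h2⟩ := hm m (hl m List.mem_cons_self)
          obtain ⟨i, hi⟩ := Nat.exists_testBit_of_ne_zero h1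
          have hi' : (acc &&& m).testBit i = true := hi
          rw [Nat.testBit_and, Bool.and_eq_true] at hi'
          have hin : i < n := by
            by_contra h7
            have hp : 2 ^ n ≤ 2 ^ i := Nat.pow_le_pow_right (by norm_num) (not_lt.1 h7)
            rw [Nat.testBit_lt_two_pow (hlt.trans_le hp)] at hi'
            exact absurd hi'.2 (by simp)
          have h3 := h2.resolve_left fun h => h ⟨i, hin⟩ hi'.2 (hacc ⟨i, hin⟩ hi'.1)
          intro y hy
          have hy' : (acc ||| m).testBit y = true := hy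
          rw [Nat.testBit_or, Bool.or_eq_true] at hy'
          exact hy'.elim (hacc y) (h3 y)
    refine Set.eq_univ_of_forall fun y => inv cs 1 (fun _ h => h) (fun y hy => ?_) y ?_
    · have : (y : ℕ) = 0 := by
        have h1 : (2 ^ 0).testBit y = true := hy
        rw [Nat.testBit_two_pow] at h1
        simpa [eq_comm] using h1
      have hy0 : y = 0 := Fin.ext (by simpa using this)
      rwa [hy0]
    · rw [Nat.beq_eq.mp h.2, Nat.testBit_two_pow_sub_one]
      simp
  intro A hA
  by_cases h0 : (0 : Fin n) ∈ A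
  · exact Or.inr (main A hA h0)
  · exact Or.inl (Set.compl_univ_iff.1 (main Aᶜ hA.compl h0))

end Pool.Agent.Lib.MP_4eafcb_co
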