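import Mathlib

set_option autoImplicit false

namespace Pool.Agent.Lib.MP_4eafcb_co

open Equiv

/-- The permutation sending `0` to `x` and `succ i` to `x.succAbove (σ i)`. -/
def rho {n : ℕ} (x : Fin (n + 1)) (σ : Perm (Fin n)) : Perm (Fin (n + 1)) :=
  x.cycleRange⁻¹ * Perm.decomposeFin.symm (0, σ)

@[simp] theorem rho_zero {n : ℕ} (x : Fin (n + 1)) (σ : Perm (Fin n)) : rho x σ 0 = x := by
  simp [rho, Perm.inv_def]

@[simp] theorem rho_succ {n : ℕ} (x : Fin (n + 1)) (σ : Perm (Fin n)) (i : Fin n) :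
    rho x σ i.succ = x.succAbove (σ i) := by
  simp [rho, Perm.inv_def]

theorem sign_rho {n : ℕ} (x : Fin (n + 1)) (σ : Perm (Fin n)) :
    Perm.sign (rho x σ) = (-1) ^ (x : ℕ) * Perm.sign σ := by
  simp [rho]

theorem rho_bijective (n : ℕ) :
    Function.Bijective (fun p : Fin (n + 1) × Perm (Fin n) => rho p.1 p.2) := by
  rw [Fintype.bijective_iff_injective_and_card]
  constructor
  · rintro ⟨x, σ⟩ ⟨y, τ⟩ h
    simp only at h
    have h1 : x = y := by rw [← rho_zero x σ, h, rho_zero]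
    subst h1
    have h2 : σ = τ := by
      ext i
      have := rho_succ x σ i
      rw [h, rho_succ] at this
      rw [Fin.succAbove_right_injective this]
    rw [h2]
  · simp [Fintype.card_perm, Nat.factorial_succ]

theorem sum_rho {n : ℕ} {A : Type} [AddCommMonoid A] (f : Perm (Fin (n + 1)) → A) :
    ∑ ρ, f ρ = ∑ x : Fin (n + 1), ∑ σ : Perm (Fin n), f (rho x σ) := by
  rw [← Fintype.sum_prod_type', ← (rho_bijective n).sum_comp f]

theorem exists_tau {n : ℕ} (σ : Perm (Fin (n + 1))) (x : Fin (n + 1)) :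
    ∃ τ : Perm (Fin n), (∀ i, σ (x.succAbove i) = (σ x).succAbove (τ i)) ∧
      Perm.sign σ * (-1) ^ (x : ℕ) = (-1) ^ (σ x : ℕ) * Perm.sign τ := by
  obtain ⟨⟨y, τ⟩, h⟩ := (rho_bijective n).2 (σ * rho x 1)
  simp only at h
  have hy : y = σ x := by rw [← rho_zero y τ, h]; simp
  subst hy
  refine ⟨τ, fun i => ?_, ?_⟩
  · rw [← rho_succ, h]; simp
  · rw [← sign_rho, h, Perm.sign_mul, sign_rho]; simp

end Pool.Agent.Lib.MP_4eafcb_co
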