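import Pool.Agent.Lib.MP_4eafcb_co.Data
import Pool.Agent.Lib.MP_4eafcb_co.Perm

set_option autoImplicit false

namespace Pool.Agent.Lib.MP_4eafcb_co

open Equiv

/-- Antisymmetrisation of a function on codes. -/
noncomputable def Alt {n : ℕ} (g : BC (Fin n) → ℚ) (L : BC (Fin n)) : ℚ :=
  ∑ β : Perm (Fin n), sg β * g (mn L β ∅)

theorem Alt_perm {n : ℕ} (g : BC (Fin n) → ℚ) (L : BC (Fin n)) (σ : Perm (Fin n)) :
    Alt g (mn L σ ∅) = sg σ * Alt g L := by
  rw [Alt, Alt, ← Equiv.sum_comp (Equiv.mulLeft σ) (fun β => sg β * g (mn L β ∅)),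
    Finset.mul_sum]
  refine Finset.sum_congr rfl fun β _ => ?_
  rw [mn_mn_empty L σ.injective, Set.image_empty]
  simp only [Equiv.coe_mulLeft, sg_mul, Perm.coe_mul, ← mul_assoc, sg_mul_self, one_mul]

theorem Alt_odd {n : ℕ} (g : BC (Fin n) → ℚ) (L : BC (Fin n)) (σ : Perm (Fin n))
    (h : mn L σ ∅ = L) (hs : sg σ = -1) : Alt g L = 0 := by
  have := Alt_perm g L σ
  rw [h, hs] at this
  linarith

open Classical in
/-- The function whose antisymmetrisation is the coboundary. -/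
noncomputable def cg {p : ℕ} (a : BC (Fin p) → ℚ) (N : BC (Fin (p + 1))) : ℚ :=
  if Cl N 0 Set.univ ∧ ¬ Cl N 0 ∅ then a (mn N Fin.succ ∅) else 0

theorem cob_eq_Alt {p : ℕ} (a : BC (Fin p) → ℚ) (N : BC (Fin (p + 1))) :
    cob a N = Alt (cg a) N := by
  refine Finset.sum_congr rfl fun τ _ => ?_
  rw [cg, Cl_mn N τ.injective (by simp), Cl_mn N τ.injective (by simp),
    mn_mn_empty N τ.injective, Set.image_univ, τ.surjective.range_eq, Set.image_empty,
    Set.union_empty, Set.union_empty]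

open Classical in
theorem cob_eq_sum {p : ℕ} (a : BC (Fin p) → ℚ) (N : BC (Fin (p + 1))) :
    cob a N = ∑ x : Fin (p + 1), (-1) ^ (x : ℕ) *
      (if Cl N x Set.univ ∧ ¬ Cl N x ∅ then Alt a (mn N x.succAbove ∅) else 0) := by
  rw [cob, sum_rho]
  refine Finset.sum_congr rfl fun x _ => ?_
  simp only [rho_zero]
  split_ifs with h
  · rw [Alt, Finset.mul_sum]
    refine Finset.sum_congr rfl fun σ _ => ?_
    have h1 : rho x σ ∘ Fin.succ = x.succAbove ∘ σ := by ext i; simp
    rw [mn_mn_empty N Fin.succAbove_right_injective, h1, Set.image_empty, ← mul_assoc]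
    congr 1
    simp [sg, sign_rho]
  · simp

theorem Cl_sp {n : ℕ} (G : List ℕ) (x : Fin n) (S : ℕ) : Cl (sp n G) x (msk n S) ↔
    ∃ m ∈ spanL G, m.testBit x = true ∧
      ∀ y : Fin n, m.testBit y = true → y = x ∨ S.testBit y = true := by
  constructor
  · rintro ⟨_, hc, h1, h2⟩
    obtain ⟨m, hm, rfl⟩ := (mem_sp n G _).1 hc
    exact ⟨m, hm, vec_ne_zero.1 h1, fun y hy => h2 y (vec_ne_zero.2 hy)⟩
  · rintro ⟨m, hm, h1, h2⟩
    exact ⟨_, (mem_sp n G _).2 ⟨m, hm, rfl⟩, vec_ne_zero.2 h1, fun y hy => h2 y (vec_ne_zero.1 hy)⟩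

theorem not_reg_fano : ¬ Reg (sp 7 gF) := by
  rintro ⟨L, hL⟩
  have pos : ∀ (x : Fin 7) (S : ℕ), Cl (sp 7 gF) x (msk 7 S) →
      ∃ c ∈ L, c x = 1 ∧ ∀ y : Fin 7, y ≠ x → S.testBit y = false → c y = 0 := by
    intro x S h
    obtain ⟨c, hc, h1, h2⟩ := (hL _ _).1 h
    refine ⟨(c x)⁻¹ • c, L.smul_mem _ hc, by simp [h1], fun y hy hS => ?_⟩
    have : c y = 0 := by
      by_contra h
      rcases h2 y h with h | h
      · exact hy h
      · exact absurd h (by simp [msk, hS])
    simp [this]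
  have neg : ∀ (x : Fin 7) (S : ℕ), ¬ Cl (sp 7 gF) x (msk 7 S) → ∀ c ∈ L,
      (∀ y : Fin 7, y ≠ x → S.testBit y = false → c y = 0) → c x = 0 := by
    intro x S h c hc h1
    by_contra h2
    refine h ((hL _ _).2 ⟨c, hc, h2, fun y hy => ?_⟩)
    by_contra h3
    push Not at h3
    exact hy (h1 y h3.1 (by simpa [msk] using h3.2))
  obtain ⟨c3, m3, p3, z3⟩ := pos 3 3 ((Cl_sp _ _ _).2 (by decide +kernel))
  obtain ⟨c4, m4, p4, z4⟩ := pos 4 5 ((Cl_sp _ _ _).2 (by decide +kernel))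
  obtain ⟨c5, m5, p5, z5⟩ := pos 5 6 ((Cl_sp _ _ _).2 (by decide +kernel))
  obtain ⟨c6, m6, p6, z6⟩ := pos 6 7 ((Cl_sp _ _ _).2 (by decide +kernel))
  have a2 := z3 2 (by decide) (by decide)
  have a4 := z3 4 (by decide) (by decide)
  have a5 := z3 5 (by decide) (by decide)
  have a6 := z3 6 (by decide) (by decide)
  have b1 := z4 1 (by decide) (by decide)
  have b3 := z4 3 (by decide) (by decide)
  have b5 := z4 5 (by decide) (by decide)
  have b6 := z4 6 (by decide) (by decide)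
  have d0 := z5 0 (by decide) (by decide)
  have d3 := z5 3 (by decide) (by decide)
  have d4 := z5 4 (by decide) (by decide)
  have d6 := z5 6 (by decide) (by decide)
  have g3 := z6 3 (by decide) (by decide)
  have g4 := z6 4 (by decide) (by decide)
  have g5 := z6 5 (by decide) (by decide)
  have expand : ∀ c ∈ L, ∀ y : Fin 7, (y : ℕ) < 3 →
      c y = c 3 * c3 y + c 4 * c4 y + c 5 * c5 y + c 6 * c6 y := by
    intro c hc y hy
    have hd : c - (c 3 • c3 + c 4 • c4 + c 5 • c5 + c 6 • c6) ∈ L :=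
      L.sub_mem hc (L.add_mem (L.add_mem (L.add_mem (L.smul_mem _ m3) (L.smul_mem _ m4))
        (L.smul_mem _ m5)) (L.smul_mem _ m6))
    have hn : ∀ y : Fin 7, (y : ℕ) < 3 → ¬ Cl (sp 7 gF) y (msk 7 7) := by
      intro y hy
      rw [Cl_sp]
      revert y
      decide +kernel
    have := neg y 7 (hn y hy) _ hd (fun z _ hz => by
      have hz' : z = 3 ∨ z = 4 ∨ z = 5 ∨ z = 6 :=
        (by decide : ∀ z : Fin 7, Nat.testBit 7 z = false → z = 3 ∨ z = 4 ∨ z = 5 ∨ z = 6) z hz
      rcases hz' with rfl | rfl | rfl | rfl <;>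
        simp [p3, p4, p5, p6, a4, a5, a6, b3, b5, b6, d3, d4, d6, g3, g4, g5])
    simpa [sub_eq_zero] using this
  have nz : ∀ (y : Fin 7) (S : ℕ), ¬ Cl (sp 7 gF) 6 (msk 7 S) →
      (∀ z : Fin 7, z ≠ 6 → S.testBit z = false → z = y ∨ z = 3 ∨ z = 4 ∨ z = 5) → c6 y ≠ 0 := by
    intro y S h h1 h0
    have := neg 6 S h c6 m6 (fun z hz hS => by
      rcases h1 z hz hS with rfl | rfl | rfl | rfl
      exacts [h0, g3, g4, g5])
    rw [p6] at this
    exact one_ne_zero this
  have n0 := nz 0 6 (by rw [Cl_sp]; decide +kernel) (by decide)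
  have n1 := nz 1 5 (by rw [Cl_sp]; decide +kernel) (by decide)
  have n2 := nz 2 3 (by rw [Cl_sp]; decide +kernel) (by decide)
  obtain ⟨u, mu, pu, zu⟩ := pos 6 33 ((Cl_sp _ _ _).2 (by decide +kernel))
  obtain ⟨v, mv, pv, zv⟩ := pos 6 18 ((Cl_sp _ _ _).2 (by decide +kernel))
  obtain ⟨w, mw, pw, zw⟩ := pos 6 12 ((Cl_sp _ _ _).2 (by decide +kernel))
  obtain ⟨t, mt, pt, zt⟩ := pos 3 48 ((Cl_sp _ _ _).2 (by decide +kernel))
  have u1 := expand u mu 1 (by decide)
  have u2 := expand u mu 2 (by decide)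
  rw [zu 1 (by decide) (by decide), zu 3 (by decide) (by decide), zu 4 (by decide) (by decide),
    pu] at u1
  rw [zu 2 (by decide) (by decide), zu 3 (by decide) (by decide), zu 4 (by decide) (by decide),
    pu] at u2
  have v0 := expand v mv 0 (by decide)
  have v2 := expand v mv 2 (by decide)
  rw [zv 0 (by decide) (by decide), zv 3 (by decide) (by decide), zv 5 (by decide) (by decide),
    pv] at v0
  rw [zv 2 (by decide) (by decide), zv 3 (by decide) (by decide), zv 5 (by decide) (by decide),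
    pv] at v2
  have w0 := expand w mw 0 (by decide)
  have w1 := expand w mw 1 (by decide)
  rw [zw 0 (by decide) (by decide), zw 4 (by decide) (by decide), zw 5 (by decide) (by decide),
    pw] at w0
  rw [zw 1 (by decide) (by decide), zw 4 (by decide) (by decide), zw 5 (by decide) (by decide),
    pw] at w1
  have t0 := expand t mt 0 (by decide)
  have t1 := expand t mt 1 (by decide)
  have t2 := expand t mt 2 (by decide)
  rw [zt 0 (by decide) (by decide), zt 6 (by decide) (by decide), pt, d0] at t0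
  rw [zt 1 (by decide) (by decide), zt 6 (by decide) (by decide), pt, b1] at t1
  rw [zt 2 (by decide) (by decide), zt 6 (by decide) (by decide), pt, a2] at t2
  have hb0 : c4 0 ≠ 0 := by
    intro h
    apply n0
    rw [h] at v0
    linarith
  have hd1 : c5 1 ≠ 0 := by
    intro h
    apply n1
    rw [h] at u1
    linarith
  have e1 : v 4 = - w 3 * t 4 := by
    apply mul_right_cancel₀ hb0
    linear_combination -v0 + w0 - w 3 * t0
  have e2 : u 5 = - w 3 * t 5 := by
    apply mul_right_cancel₀ hd1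
    linear_combination -u1 + w1 - w 3 * t1
  apply n2
  rw [e1] at v2
  rw [e2] at u2
  linear_combination (-1 / 2) * u2 + (-1 / 2) * v2 - (w 3 / 2) * t2

theorem vec_succ (q m b : ℕ) (hb : b < 2) (i : Fin q) :
    vec (q + 1) (2 * m + b) i.succ = vec q m i := by
  have : (2 * m + b) / 2 = m := by omega
  simp only [vec, Fin.val_succ, Nat.testBit_succ, this]

theorem vec_cons (q m b : ℕ) (hb : b < 2) :
    vec (q + 1) (2 * m + b) = Fin.cons (b : ZMod 2) (vec q m) := by
  ext i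
  refine Fin.cases ?_ (fun i => by simp [vec_succ q m b hb]) i
  have : (2 * m + b) % 2 = b := by omega
  interval_cases b <;> simp [vec, Nat.testBit_zero, this]

theorem ext_lemma {q : ℕ} {G : List ℕ} {T : List (ℕ × ℕ × List ℕ × ℕ)} (hT : repsOK q G T = true)
    (N : BC (Fin (q + 1))) (h1 : Cl N 0 Set.univ) (h2 : ¬ Cl N 0 ∅)
    (h3 : mn N Fin.succ ∅ = sp q G) : ∃ c ∈ T, N = sp (q + 1) (extG c.1 G) := by
  have hcons : ∀ e ∈ sp q G, (Fin.cons 0 e : Fin (q + 1) → ZMod 2) ∈ N := by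
    intro e he
    rw [← h3] at he
    obtain ⟨c, hc, h4, rfl⟩ := he
    have h5 : c 0 = 0 := by
      by_contra h
      simpa using h4 0 h
    have : (Fin.cons 0 (c ∘ Fin.succ) : Fin (q + 1) → ZMod 2) = c := by
      ext i
      refine Fin.cases ?_ (fun i => by simp) i
      simp [h5]
    rwa [this]
  obtain ⟨c0, hc0, h4, -⟩ := h1
  obtain ⟨t, ht, h5⟩ := exists_vec q (c0 ∘ Fin.succ)
  have h6 : ∀ v, t ^^^ v ∈ spanL G → (Fin.cons 1 (vec q v) : Fin (q + 1) → ZMod 2) ∈ N := by
    intro v hv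
    have h7 := N.add_mem hc0 (hcons _ ((mem_sp q G _).2 ⟨_, hv, rfl⟩))
    have h8 : c0 + (Fin.cons 0 (vec q (t ^^^ v)) : Fin (q + 1) → ZMod 2) =
        Fin.cons 1 (vec q v) := by
      ext i
      refine Fin.cases ?_ (fun i => ?_) i
      · simp [zmod2_eq_one h4]
      · have := congrFun h5 i
        simp only [Function.comp_apply] at this
        simp only [Pi.add_apply, Fin.cons_succ, this, vec_xor, ← add_assoc,
          CharTwo.add_self_eq_zero, zero_add]
    rwa [h8] at h7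
  have h7 := List.all_eq_true.1 hT t (List.mem_range.2 ht)
  rw [Bool.or_eq_true, testBit_bits, List.any_eq_true] at h7
  rcases h7 with h7 | ⟨c, hc, h7⟩
  · refine absurd ⟨_, h6 0 (by simpa using h7), by simp, fun y => ?_⟩ h2
    refine Fin.cases (by simp) (fun i => by simp [vec_zero]) y
  refine ⟨c, hc, le_antisymm ?_ ?_⟩
  · have h8 := h6 c.1 ((testBit_bits _ _).1 h7)
    have h9 : (Fin.cons 1 (vec q c.1) : Fin (q + 1) → ZMod 2) ∈ sp (q + 1) (extG c.1 G) :=
      Submodule.subset_span ⟨2 * c.1 + 1, List.mem_cons_self, by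
        rw [vec_cons q _ 1 (by norm_num)]; simp⟩
    have h10 : ∀ e ∈ sp q G, (Fin.cons 0 e : Fin (q + 1) → ZMod 2) ∈
        sp (q + 1) (extG c.1 G) := by
      intro e he
      induction he using Submodule.span_induction with
      | mem x hx =>
        obtain ⟨g, hg, rfl⟩ := hx
        refine Submodule.subset_span ⟨2 * g, List.mem_cons_of_mem _
          (List.mem_map.2 ⟨g, hg, rfl⟩), ?_⟩
        have := vec_cons q g 0 (by norm_num)
        simpa using this.symm
      | zero =>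
        have : (Fin.cons 0 0 : Fin (q + 1) → ZMod 2) = 0 := by
          ext i; refine Fin.cases ?_ (fun i => ?_) i <;> simp
        rw [this]; exact Submodule.zero_mem _
      | add x y _ _ hx hy =>
        have : (Fin.cons 0 (x + y) : Fin (q + 1) → ZMod 2) = Fin.cons 0 x + Fin.cons 0 y := by
          ext i; refine Fin.cases ?_ (fun i => ?_) i <;> simp
        rw [this]; exact Submodule.add_mem _ hx hy
      | smul a x _ hx =>
        have : (Fin.cons 0 (a • x) : Fin (q + 1) → ZMod 2) = a • Fin.cons 0 x := by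
          ext i; refine Fin.cases ?_ (fun i => ?_) i <;> simp
        rw [this]; exact Submodule.smul_mem _ _ hx
    have h11 : ∀ d ∈ N, d 0 = 0 → d ∈ sp (q + 1) (extG c.1 G) := by
      intro d hd hd0
      have h12 : d ∘ Fin.succ ∈ sp q G := by
        rw [← h3]
        refine ⟨d, hd, fun y => Fin.cases (fun h => absurd hd0 h) (fun i _ => Or.inl ⟨i, rfl⟩) y,
          rfl⟩
      have : (Fin.cons 0 (d ∘ Fin.succ) : Fin (q + 1) → ZMod 2) = d := by
        ext i
        refine Fin.cases ?_ (fun i => by simp) i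
        simp [hd0]
      exact this ▸ h10 _ h12
    intro d hd
    by_cases hd0 : d 0 = 0
    · exact h11 d hd hd0
    · have := h11 _ (N.sub_mem hd h8) (by simp [zmod2_eq_one hd0])
      simpa using Submodule.add_mem _ this h9
  · rw [sp, Submodule.span_le]
    rintro _ ⟨g, hg, rfl⟩
    rcases List.mem_cons.1 hg with rfl | hg
    · rw [vec_cons q _ 1 (by norm_num)]
      simpa using h6 c.1 ((testBit_bits _ _).1 h7)
    · obtain ⟨g, hg', rfl⟩ := List.mem_map.1 hg
      have := vec_cons q g 0 (by norm_num)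
      rw [add_zero] at this
      rw [this]
      simpa using hcons _ (Submodule.subset_span ⟨g, hg', rfl⟩)

theorem cert_sound {n : ℕ} [NeZero n] {G Nn : List ℕ} {c : ℕ × ℕ × List ℕ × ℕ}
    (hc : certOK n G Nn c) (g : BC (Fin n) → ℚ) (hN : Alt g (sp n Nn) = 0)
    (hr : Reg (sp n (extG c.1 G))) : Alt g (sp n (extG c.1 G)) = 0 := by
  obtain ⟨hG, ⟨-, h1, h2, h3⟩ | ⟨-, h1, h2⟩ | ⟨-, h1, h2, h3⟩⟩ := hc
  · exact Alt_odd g _ (mkP h1) (mn_eq_sp0 hG h1 h2) (by rw [sg_mkP, h3]; simp)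
  · have h4 := Alt_perm g (sp n (extG c.1 G)) (mkP h1)
    rw [coe_mkP, mn_eq_sp0 hG h1 h2, hN] at h4
    have h5 := sg_mul_self (mkP h1)
    linear_combination (- sg (mkP h1)) * h4 - Alt g (sp n (extG c.1 G)) * h5
  · refine absurd (mn_eq_sp hG h1 h3 ▸ hr.mn h1.inj (F := msk n c.2.2.2) fun b hb => ?_)
      not_reg_fano
    have := h2 _ ((h1.mem_range _).1 ⟨b, rfl⟩)
    simp [msk, this] at hb

theorem cob_zero_of {p : ℕ} (a : BC (Fin p) → ℚ)
    (h : ∀ N, Reg N → cg a N ≠ 0 → Alt (cg a) N = 0) (N : BC (Fin (p + 1))) (hN : Reg N) :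
    cob a N = 0 := by
  rw [cob_eq_Alt]
  by_contra h0
  obtain ⟨τ, -, hτ⟩ := Finset.exists_ne_zero_of_sum_ne_zero h0
  have h1 := h _ (hN.mn τ.injective (by simp)) (right_ne_zero_of_mul hτ)
  rw [Alt_perm] at h1
  have h2 := sg_mul_self τ
  apply h0
  linear_combination (sg τ) * h1 - Alt (cg a) N * h2

open Classical in
/-- The indicator function of a code. -/
noncomputable def ind {n : ℕ} (G : List ℕ) (L : BC (Fin n)) : ℚ := if L = sp n G then 1 else 0

theorem cob_K (N : BC (Fin 7)) (hN : Reg N) : cob (p := 6) (ind gK) N = 0 := by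
  refine cob_zero_of _ (fun N hN h => ?_) N hN
  rw [cg] at h
  split_ifs at h with h1
  · have h2 : mn N Fin.succ ∅ = sp 6 gK := by
      by_contra h2
      exact h (if_neg h2)
    obtain ⟨c, hc, rfl⟩ := ext_lemma tK_reps N h1.1 h1.2 h2
    refine cert_sound (tK_ok c hc) _ ?_ hN
    have hw : wf 7 7 [1, 0, 2, 3, 4, 5, 6] := by decide
    exact Alt_odd _ _ (mkP hw) (mn_eq_sp0 (by simp) hw (by decide +kernel))
      (by rw [sg_mkP]; norm_num [sgnL])
  · exact absurd rfl h

theorem sg_of_srch {n : ℕ} {G : List ℕ} (hG : ∀ g ∈ G, g < 2 ^ n) (hC : ∀ t ∈ G, t ∈ spanL G)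
    (hs : srch n (okR (bits (spanL G)) G) (fun a => sgnL a == 1) n [] = true) (β : Perm (Fin n))
    (h : mn (sp n G) β ∅ = sp n G) : sg β = 1 := by
  have := search_restr hG hC _ hs β β.injective h
  rw [sg_eq_sgnL, beq_iff_eq.1 this]
  simp

theorem Alt_ind_pos {n : ℕ} {G : List ℕ}
    (h : ∀ β : Perm (Fin n), mn (sp n G) β ∅ = sp n G → sg β = 1) :
    0 < Alt (ind G) (sp n G) := by
  refine Finset.sum_pos' (fun β _ => ?_) ⟨1, Finset.mem_univ _, ?_⟩
  · rw [ind]
    split_ifs with h1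
    · rw [h β h1]; norm_num
    · simp
  · have : mn (sp n G) (1 : Perm (Fin n)) ∅ = sp n G := mn_id _
    rw [ind, if_pos this]
    simp [sg]

theorem aut_K (β : Perm (Fin 6)) (h : mn (sp 6 gK) β ∅ = sp 6 gK) : sg β = 1 :=
  sg_of_srch (by decide) (by decide) srch_KK β h

theorem aut_W (β : Perm (Fin 10)) (h : mn (sp 10 gW) β ∅ = sp 10 gW) : sg β = 1 :=
  sg_of_srch (by decide) (by decide) srch_WW β h

theorem aut_G (β : Perm (Fin 10)) (h : mn (sp 10 gG) β ∅ = sp 10 gG) : sg β = 1 :=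
  sg_of_srch (by decide) (by decide) srch_GG β h

theorem not_GW (β : Perm (Fin 10)) : mn (sp 10 gG) β ∅ ≠ sp 10 gW := fun h => by
  simpa using search_restr (by decide) (by decide) _ srch_GW β β.injective h

theorem not_WG (β : Perm (Fin 10)) : mn (sp 10 gW) β ∅ ≠ sp 10 gG := fun h => by
  simpa using search_restr (by decide) (by decide) _ srch_WG β β.injective h

/-- Signed automorphism count of `W_5`. -/
noncomputable def AW : ℚ := Alt (ind gW) (sp 10 gW)

/-- Signed automorphism count of the second matroid. -/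
noncomputable def AG : ℚ := Alt (ind gG) (sp 10 gG)

theorem AW_pos : 0 < AW := Alt_ind_pos aut_W

/-- The rank five cochain. -/
noncomputable def b0 (L : BC (Fin 10)) : ℚ := 2 * AG * ind gW L + AW * ind gG L

theorem Alt_b0 (L : BC (Fin 10)) :
    Alt b0 L = 2 * AG * Alt (ind gW) L + AW * Alt (ind gG) L := by
  simp only [Alt, b0, Finset.mul_sum, ← Finset.sum_add_distrib]
  refine Finset.sum_congr rfl fun β _ => by ring

theorem Alt_b0_W : Alt b0 (sp 10 gW) = 2 * AG * AW := by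
  have : Alt (ind gG) (sp 10 gW) = 0 := by simp [Alt, ind, not_WG]
  rw [Alt_b0, this, AW]; simp

theorem Alt_b0_G : Alt b0 (sp 10 gG) = AW * AG := by
  have : Alt (ind gW) (sp 10 gG) = 0 := by simp [Alt, ind, not_GW]
  rw [Alt_b0, this, AG]; simp

theorem fn_up {n m : ℕ} [NeZero n] {l : List ℕ} (x : Fin (n + 1)) (h : wf n m l)
    (h' : wf (n + 1) m (up x l)) : fn (n + 1) m (up x l) = x.succAbove ∘ fn n m l := by
  ext i
  have hi : (i : ℕ) < l.length := h.1 ▸ i.2
  have h1 := h.val i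
  rw [h'.val, List.getD_eq_getElem _ _ (by simpa [up] using hi), Function.comp_apply,
    Fin.succAbove]
  rw [List.getD_eq_getElem _ _ hi] at h1
  simp only [up, List.getElem_map, Fin.lt_def, Fin.val_castSucc, h1]
  split_ifs <;> simp [h1]

theorem wf_range (n : ℕ) : wf n n (List.range n) := ⟨by simp, by simp, List.nodup_range⟩

theorem fn_range (n : ℕ) [NeZero n] : fn n n (List.range n) = id := by
  ext i
  rw [(wf_range n).val, List.getD_eq_getElem _ _ (by simp)]
  simp

theorem fn_up_range {n : ℕ} [NeZero n] (x : Fin (n + 1))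
    (h' : wf (n + 1) n (up x (List.range n))) :
    fn (n + 1) n (up x (List.range n)) = x.succAbove := by
  rw [fn_up x (wf_range n) h', fn_range]; rfl

theorem oddOK_sound {n : ℕ} [NeZero n] {G l : List ℕ} (hG : ∀ g ∈ G, g < 2 ^ (n + 1))
    (x : Fin (n + 1)) (h : oddOK n G x l) : ∃ σ : Perm (Fin n), sg σ = -1 ∧
      mn (mn (sp (n + 1) G) x.succAbove ∅) σ ∅ = mn (sp (n + 1) G) x.succAbove ∅ := by
  obtain ⟨h1, h2, h3, h4, h5⟩ := h
  refine ⟨mkP h1, by rw [sg_mkP, h5]; simp, ?_⟩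
  have := mn_eq_mn0 hG h2 hG h3 h4
  rw [fn_up x h1 h2, fn_up_range x h3] at this
  rw [mn_mn_empty _ Fin.succAbove_right_injective, Set.image_empty, coe_mkP, this]

theorem iso_sound {n : ℕ} [NeZero n] {G G' l : List ℕ} (hG : ∀ g ∈ G, g < 2 ^ (n + 1))
    (x : Fin (n + 1)) (h1 : wf n n l) (h2 : wf (n + 1) n (up x l))
    (h3 : img G (up x l) 0 = bits (spanL G')) :
    mn (mn (sp (n + 1) G) x.succAbove ∅) (mkP h1) ∅ = sp n G' := by
  have := mn_eq_sp0 hG h2 h3
  rw [fn_up x h1 h2] at this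
  rw [mn_mn_empty _ Fin.succAbove_right_injective, Set.image_empty, coe_mkP, this]

theorem Alt_of_iso {n : ℕ} (g : BC (Fin n) → ℚ) {L L' : BC (Fin n)} {σ : Perm (Fin n)}
    (h : mn L σ ∅ = L') : Alt g L = sg σ * Alt g L' := by
  rw [← h, Alt_perm, ← mul_assoc, sg_mul_self, one_mul]

theorem cob_N : cob b0 (sp 11 gN) = 0 := by
  have hG : ∀ g ∈ gN, g < 2 ^ 11 := by decide
  have hc : ∀ x : Fin 11, Cl (sp 11 gN) x Set.univ ∧ ¬ Cl (sp 11 gN) x ∅ := by
    intro x
    refine ⟨((Cl_sp gN x 2047).2 ?_).mono (Set.subset_univ _), ?_⟩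
    · revert x; decide +kernel
    · rw [← msk_zero, Cl_sp]
      revert x; decide +kernel
  rw [cob_eq_sum]
  simp only [hc, not_false_eq_true, and_self, if_true]
  rw [← Finset.sum_subset (Finset.subset_univ ({0, 7, 8} : Finset (Fin 11)))]
  · have w0 : wf 10 10 (pN.getD 0 []) := by decide
    have w7 : wf 10 10 (pN.getD 7 []) := by decide
    have w8 : wf 10 10 (pN.getD 8 []) := by decide
    have e0 := Alt_of_iso b0 (iso_sound (G' := gG) hG 0 w0 (by decide) (by decide +kernel))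
    have e7 := Alt_of_iso b0 (iso_sound (G' := gW) hG 7 w7 (by decide) (by decide +kernel))
    have e8 := Alt_of_iso b0 (iso_sound (G' := gG) hG 8 w8 (by decide) (by decide +kernel))
    have s0 : sgnL (pN.getD 0 []) = -1 := by decide
    have s7 : sgnL (pN.getD 7 []) = -1 := by decide
    have s8 : sgnL (pN.getD 8 []) = -1 := by decide
    rw [sg_mkP, s0, Alt_b0_G] at e0
    rw [sg_mkP, s7, Alt_b0_W] at e7
    rw [sg_mkP, s8, Alt_b0_G] at e8
    rw [Finset.sum_insert (by decide), Finset.sum_insert (by decide), Finset.sum_singleton,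
      e0, e7, e8]
    norm_num
    ring
  · intro x _ hx
    simp only [Finset.mem_insert, Finset.mem_singleton, not_or] at hx
    obtain ⟨σ, h1, h2⟩ := oddOK_sound hG x (pN_ok x hx.1 hx.2.1 hx.2.2)
    rw [Alt_odd _ _ σ h2 h1, mul_zero]

theorem b0_ne_zero {L : BC (Fin 10)} (h : b0 L ≠ 0) : L = sp 10 gW ∨ L = sp 10 gG := by
  by_contra h1
  push Not at h1
  exact h (by simp [b0, ind, h1.1, h1.2])

theorem cob_b0 (N : BC (Fin 11)) (hN : Reg N) : cob b0 N = 0 := by
  refine cob_zero_of _ (fun N hN h => ?_) N hN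
  rw [cg] at h
  split_ifs at h with h1
  · have hN0 : Alt (cg b0) (sp 11 gN) = 0 := by rw [← cob_eq_Alt, cob_N]
    rcases b0_ne_zero h with h2 | h2
    · obtain ⟨c, hc, rfl⟩ := ext_lemma tW_reps N h1.1 h1.2 h2
      exact cert_sound (tW_ok c hc) _ hN0 hN
    · obtain ⟨c, hc, rfl⟩ := ext_lemma tG_reps N h1.1 h1.2 h2
      exact cert_sound (tG_ok c hc) _ hN0 hN
  · exact absurd rfl h

end Pool.Agent.Lib.MP_4eafcb_co
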