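import Mathlib

set_option autoImplicit false

namespace Pool.Agent.Lib.MP_4eafcb_co

open Equiv

section General

variable {k : Type} [Field k] {α β γ : Type}

/-- The minor of a linear code: keep the coordinates `f`, contract `F`, delete the rest. -/
def mn (K : Submodule k (β → k)) (f : α → β) (F : Set β) : Submodule k (α → k) where
  carrier := {d | ∃ c ∈ K, (∀ y, c y ≠ 0 → y ∈ Set.range f ∨ y ∈ F) ∧ d = c ∘ f}
  add_mem' := by
    rintro _ _ ⟨c, hc, h1, rfl⟩ ⟨c', hc', h2, rfl⟩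
    refine ⟨c + c', K.add_mem hc hc', fun y hy => ?_, rfl⟩
    by_cases h : c y = 0
    · exact h2 y (by simpa [h] using hy)
    · exact h1 y h
  zero_mem' := ⟨0, K.zero_mem, by simp, rfl⟩
  smul_mem' := by
    rintro t _ ⟨c, hc, h1, rfl⟩
    exact ⟨t • c, K.smul_mem t hc, fun y hy => h1 y (fun h => hy (by simp [h])), rfl⟩

theorem mem_mn {K : Submodule k (β → k)} {f : α → β} {F : Set β} {d : α → k} :
    d ∈ mn K f F ↔ ∃ c ∈ K, (∀ y, c y ≠ 0 → y ∈ Set.range f ∨ y ∈ F) ∧ d = c ∘ f := Iff.rfl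

/-- `x` lies in the closure of `S` minus `x`. -/
def Cl (K : Submodule k (β → k)) (x : β) (S : Set β) : Prop :=
  ∃ c ∈ K, c x ≠ 0 ∧ ∀ y, c y ≠ 0 → y = x ∨ y ∈ S

/-- `S` is dependent. -/
def Dep (K : Submodule k (β → k)) (S : Set β) : Prop :=
  ∃ c ∈ K, c ≠ 0 ∧ ∀ y, c y ≠ 0 → y ∈ S

theorem mn_mn (K : Submodule k (γ → k)) {s : β → γ} (hs : Function.Injective s) {F : Set γ}
    (hF : ∀ b, s b ∉ F) (f : α → β) (G : Set β) :
    mn (mn K s F) f G = mn K (s ∘ f) (s '' G ∪ F) := by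
  ext d
  constructor
  · rintro ⟨_, ⟨c, hc, h1, rfl⟩, h2, rfl⟩
    refine ⟨c, hc, fun y hy => ?_, rfl⟩
    rcases h1 y hy with ⟨b, rfl⟩ | h
    · rcases h2 b hy with ⟨a, rfl⟩ | h
      · exact Or.inl ⟨a, rfl⟩
      · exact Or.inr (Or.inl ⟨b, h, rfl⟩)
    · exact Or.inr (Or.inr h)
  · rintro ⟨c, hc, h1, rfl⟩
    refine ⟨c ∘ s, ⟨c, hc, fun y hy => ?_, rfl⟩, fun b hb => ?_, rfl⟩
    · rcases h1 y hy with ⟨a, rfl⟩ | ⟨b, -, rfl⟩ | h
      · exact Or.inl ⟨_, rfl⟩
      · exact Or.inl ⟨_, rfl⟩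
      · exact Or.inr h
    · rcases h1 (s b) hb with ⟨a, h⟩ | ⟨b', h, h'⟩ | h
      · exact Or.inl ⟨a, hs h⟩
      · exact Or.inr (hs h' ▸ h)
      · exact absurd h (hF b)

theorem mn_mn_empty (K : Submodule k (γ → k)) {s : β → γ} (hs : Function.Injective s)
    (f : α → β) (G : Set β) : mn (mn K s ∅) f G = mn K (s ∘ f) (s '' G) := by
  rw [mn_mn K hs (by simp)]; simp

theorem mn_mn_empty' (K : Submodule k (γ → k)) {s : β → γ} (hs : Function.Injective s)
    {F : Set γ} (hF : ∀ b, s b ∉ F) (f : α → β) : mn (mn K s F) f ∅ = mn K (s ∘ f) F := by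
  rw [mn_mn K hs hF]; simp

theorem mn_id (K : Submodule k (β → k)) : mn K id ∅ = K := by
  ext d
  constructor
  · rintro ⟨c, hc, -, rfl⟩; exact hc
  · intro h; exact ⟨d, h, by simp, rfl⟩

theorem Cl_mn (K : Submodule k (γ → k)) {s : β → γ} (hs : Function.Injective s) {F : Set γ}
    (hF : ∀ b, s b ∉ F) (x : β) (S : Set β) :
    Cl (mn K s F) x S ↔ Cl K (s x) (s '' S ∪ F) := by
  constructor
  · rintro ⟨_, ⟨c, hc, h1, rfl⟩, hx, h2⟩
    refine ⟨c, hc, hx, fun y hy => ?_⟩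
    rcases h1 y hy with ⟨b, rfl⟩ | h
    · rcases h2 b hy with rfl | h
      · exact Or.inl rfl
      · exact Or.inr (Or.inl ⟨b, h, rfl⟩)
    · exact Or.inr (Or.inr h)
  · rintro ⟨c, hc, hx, h1⟩
    refine ⟨c ∘ s, ⟨c, hc, fun y hy => ?_, rfl⟩, hx, fun b hb => ?_⟩
    · rcases h1 y hy with rfl | ⟨b, -, rfl⟩ | h
      · exact Or.inl ⟨_, rfl⟩
      · exact Or.inl ⟨_, rfl⟩
      · exact Or.inr h
    · rcases h1 (s b) hb with h | ⟨b', h, h'⟩ | h
      · exact Or.inl (hs h)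
      · exact Or.inr (hs h' ▸ h)
      · exact absurd h (hF b)

theorem Cl_congr (K : Submodule k (β → k)) (x : β) {S T : Set β}
    (h : ∀ y, y ≠ x → (y ∈ S ↔ y ∈ T)) : Cl K x S ↔ Cl K x T := by
  refine exists_congr fun c => and_congr_right fun _ => and_congr_right fun _ =>
    forall_congr' fun y => imp_congr_right fun _ => ?_
  by_cases hy : y = x
  · simp [hy]
  · simp [hy, h y hy]

theorem Cl.mono {K : Submodule k (β → k)} {x : β} {S T : Set β} (h : Cl K x S) (hST : S ⊆ T) :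
    Cl K x T := by
  obtain ⟨c, hc, hx, h1⟩ := h
  exact ⟨c, hc, hx, fun y hy => (h1 y hy).imp_right fun h => hST h⟩

theorem Dep_mn (K : Submodule k (γ → k)) {s : β → γ} (hs : Function.Injective s) (S : Set β) :
    Dep (mn K s ∅) S ↔ Dep K (s '' S) := by
  constructor
  · rintro ⟨_, ⟨c, hc, h1, rfl⟩, hx, h2⟩
    refine ⟨c, hc, fun h => hx (by rw [h]; rfl), fun y hy => ?_⟩
    rcases h1 y hy with ⟨b, rfl⟩ | h
    · exact ⟨b, h2 b hy, rfl⟩
    · exact absurd h (by simp)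
  · rintro ⟨c, hc, hx, h1⟩
    refine ⟨c ∘ s, ⟨c, hc, fun y hy => ?_, rfl⟩, fun h => hx ?_, fun b hb => ?_⟩
    · obtain ⟨b, -, rfl⟩ := h1 y hy
      exact Or.inl ⟨_, rfl⟩
    · ext y
      by_contra hy
      obtain ⟨b, -, rfl⟩ := h1 y hy
      exact hy (congrFun h b)
    · obtain ⟨b', h, h'⟩ := h1 _ hb
      exact hs h' ▸ h

theorem mn_insert (K : Submodule k (β → k)) {q : α → β} {F : Set β} {x : β} (hx : Cl K x F)
    (hxq : ∀ i, q i ≠ x) (hF : ∀ i, q i ∉ F) : mn K q F = mn K q (insert x F) := by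
  ext d
  constructor
  · rintro ⟨c, hc, h1, rfl⟩
    exact ⟨c, hc, fun y hy => (h1 y hy).imp_right fun h => Set.mem_insert_of_mem _ h, rfl⟩
  · rintro ⟨c, hc, h1, rfl⟩
    obtain ⟨c0, hc0, h2, h3⟩ := hx
    refine ⟨c - (c x / c0 x) • c0, K.sub_mem hc (K.smul_mem _ hc0), fun y hy => ?_, ?_⟩
    · have hyx : y ≠ x := by
        rintro rfl
        apply hy
        simp [div_mul_cancel₀ _ h2]
      by_cases h : c y = 0
      · have : c0 y ≠ 0 := fun h' => hy (by simp [h, h'])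
        exact Or.inr ((h3 y this).resolve_left hyx)
      · exact (h1 y h).imp_right fun h' => (Set.mem_insert_iff.1 h').resolve_left hyx
    · ext i
      have : c0 (q i) = 0 := by
        by_contra h
        rcases h3 _ h with h | h
        · exact hxq i h
        · exact hF i h
      simp [this]

theorem Cl_iff_Dep [Finite β] (K : Submodule k (β → k)) (x : β) (S : Set β) :
    Cl K x S ↔ ∃ I ⊆ S, ¬ Dep K I ∧ Dep K (insert x I) := by
  classical
  constructor
  · intro h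
    obtain ⟨c, ⟨hc, hx, h1⟩, hmin⟩ := exists_minimalFor_of_wellFoundedLT
      (fun c : β → k => c ∈ K ∧ c x ≠ 0 ∧ ∀ y, c y ≠ 0 → y = x ∨ y ∈ S)
      (fun c => (Function.support c).ncard) h
    refine ⟨Function.support c \ {x}, fun y hy => (h1 y hy.1).resolve_left hy.2, ?_,
      c, hc, fun h => hx (by simp [h]), fun y hy => ?_⟩
    · rintro ⟨d, hd, hd0, h2⟩
      obtain ⟨y, hy⟩ := Function.ne_iff.1 hd0
      have hy' : d y ≠ 0 := hy
      have hdx : d x = 0 := by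
        by_contra h
        exact (h2 x h).2 rfl
      have hsub : Function.support (c - (c y / d y) • d) ⊆ Function.support c \ {y} := by
        intro z hz
        refine ⟨fun h => hz ?_, ?_⟩
        · have : d z = 0 := by
            by_contra h'
            exact (h2 z h').1 h
          simp [h, this]
        · rintro rfl
          apply hz
          simp [div_mul_cancel₀ _ hy']
      have hlt : (Function.support (c - (c y / d y) • d)).ncard < (Function.support c).ncard :=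
        lt_of_le_of_lt (Set.ncard_le_ncard hsub)
          (Set.ncard_sdiff_singleton_lt_of_mem (h2 y hy').1)
      refine absurd (hmin ⟨K.sub_mem hc (K.smul_mem _ hd), by simpa [hdx] using hx,
        fun z hz => h1 z (hsub hz).1⟩ hlt.le) (not_le.2 hlt)
    · by_cases h : y = x
      · exact Or.inl h
      · exact Or.inr ⟨hy, h⟩
  · rintro ⟨I, hI, h1, d, hd, hd0, h2⟩
    refine ⟨d, hd, fun hx => h1 ⟨d, hd, hd0, fun y hy => ?_⟩,
      fun y hy => (h2 y hy).imp_right fun h => hI h⟩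
    rcases h2 y hy with rfl | h
    · exact absurd hx hy
    · exact h

/-- `A` is a separator of the code. -/
def Sep (K : Submodule k (β → k)) (A : Set β) : Prop := ∀ c ∈ K, A.indicator c ∈ K

/-- The code is connected. -/
def ConnC (K : Submodule k (β → k)) : Prop := ∀ A, Sep K A → A = ∅ ∨ A = Set.univ

theorem Sep.compl {K : Submodule k (β → k)} {A : Set β} (h : Sep K A) : Sep K Aᶜ := by
  intro c hc
  rw [Set.indicator_compl]
  exact K.sub_mem hc (h c hc)

theorem Sep.mn {K : Submodule k (β → k)} {A : Set β} (h : Sep K A) (f : α → β) (F : Set β) :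
    Sep (mn K f F) (f ⁻¹' A) := by
  rintro _ ⟨c, hc, h1, rfl⟩
  refine ⟨A.indicator c, h c hc, fun y hy => h1 y (fun h' => hy ?_), ?_⟩
  · by_cases hA : y ∈ A <;> simp [hA, h']
  · ext i
    by_cases hA : f i ∈ A <;> simp [hA]

theorem Sep.mn_eq {K : Submodule k (β → k)} {q : α → β} (h : Sep K (Set.range q)) (F : Set β) :
    Pool.Agent.Lib.MP_4eafcb_co.mn K q F = Pool.Agent.Lib.MP_4eafcb_co.mn K q ∅ := by
  ext d
  constructor
  · rintro ⟨c, hc, -, rfl⟩
    refine ⟨(Set.range q).indicator c, h c hc, fun y hy => Or.inl ?_, ?_⟩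
    · by_contra h'
      exact hy (by simp [Set.indicator_of_notMem h'])
    · ext i
      simp
  · rintro ⟨c, hc, h1, rfl⟩
    exact ⟨c, hc, fun y hy => Or.inl ((h1 y hy).resolve_right (by simp)), rfl⟩

end General

theorem zmod2_eq_one {a : ZMod 2} (h : a ≠ 0) : a = 1 := by
  revert a; decide

theorem le_of_Dep {β : Type} [Finite β] (K K' : Submodule (ZMod 2) (β → ZMod 2))
    (h : ∀ S, Dep K S ↔ Dep K' S) : K ≤ K' := by
  intro c hc
  induction hn : (Function.support c).ncard using Nat.strong_induction_on generalizing c with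
  | _ n ih =>
    by_cases hc0 : c = 0
    · rw [hc0]; exact K'.zero_mem
    obtain ⟨d, ⟨hd, hd0, h1⟩, hmin⟩ := exists_minimalFor_of_wellFoundedLT
      (fun d : β → ZMod 2 => d ∈ K ∧ d ≠ 0 ∧ ∀ y, d y ≠ 0 → y ∈ Function.support c)
      (fun c => (Function.support c).ncard) ⟨c, hc, hc0, fun y hy => hy⟩
    obtain ⟨d', hd', hd0', h2⟩ := (h (Function.support d)).1 ⟨d, hd, hd0, fun y hy => hy⟩
    obtain ⟨d'', hd'', hd0'', h3⟩ := (h (Function.support d')).2 ⟨d', hd', hd0', fun y hy => hy⟩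
    have h4 : (Function.support d'').ncard ≤ (Function.support d').ncard :=
      Set.ncard_le_ncard h3
    have h5 : (Function.support d').ncard ≤ (Function.support d).ncard :=
      Set.ncard_le_ncard h2
    have h6 := hmin ⟨hd'', hd0'', fun y hy => h1 y (h2 y (h3 y hy))⟩ (h4.trans h5)
    have h7 : Function.support d' = Function.support d :=
      Set.eq_of_subset_of_ncard_le h2 (h6.trans h4)
    have h8 : d' = d := by
      ext y
      by_cases hy : d y = 0
      · rw [hy]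
        by_contra h'
        exact h2 y h' hy
      · have : d' y ≠ 0 := by
          have : y ∈ Function.support d' := h7 ▸ hy
          exact this
        rw [zmod2_eq_one hy, zmod2_eq_one this]
    subst h8
    obtain ⟨y, hy⟩ := Function.ne_iff.1 hd0
    have hy' : d' y ≠ 0 := hy
    have hsub : Function.support (c - d') ⊆ Function.support c \ {y} := by
      intro z hz
      refine ⟨fun h => hz ?_, ?_⟩
      · have : d' z = 0 := by
          by_contra h'
          exact h1 z h' h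
        simp [h, this]
      · rintro rfl
        apply hz
        simp [zmod2_eq_one hy', zmod2_eq_one (h1 z hy')]
    have hlt : (Function.support (c - d')).ncard < n :=
      hn ▸ lt_of_le_of_lt (Set.ncard_le_ncard hsub)
        (Set.ncard_sdiff_singleton_lt_of_mem (h1 y hy'))
    have := ih _ hlt (K.sub_mem hc hd) rfl
    simpa using K'.add_mem this hd'

theorem eq_of_Dep {β : Type} [Finite β] (K K' : Submodule (ZMod 2) (β → ZMod 2))
    (h : ∀ S, Dep K S ↔ Dep K' S) : K = K' :=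
  le_antisymm (le_of_Dep K K' h) (le_of_Dep K' K fun S => (h S).symm)

/-- Binary codes. -/
abbrev BC (β : Type) : Type := Submodule (ZMod 2) (β → ZMod 2)

/-- The binary code has the same closure operator as a rational code. -/
def Reg {β : Type} (K : BC β) : Prop :=
  ∃ L : Submodule ℚ (β → ℚ), ∀ x S, Cl K x S ↔ Cl L x S

theorem Reg.mn {β γ : Type} {K : BC γ} (h : Reg K) {s : β → γ} (hs : Function.Injective s)
    {F : Set γ} (hF : ∀ b, s b ∉ F) : Reg (mn K s F) := by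
  obtain ⟨L, hL⟩ := h
  exact ⟨_, fun x S => by rw [Cl_mn K hs hF, Cl_mn L hs hF, hL]⟩

/-- The sign of a permutation as a rational number. -/
def sg {β : Type} [Fintype β] [DecidableEq β] (σ : Perm β) : ℚ := ((Perm.sign σ : ℤ) : ℚ)

theorem sg_mul {β : Type} [Fintype β] [DecidableEq β] (σ τ : Perm β) :
    sg (σ * τ) = sg σ * sg τ := by simp [sg]

theorem sg_mul_self {β : Type} [Fintype β] [DecidableEq β] (σ : Perm β) : sg σ * sg σ = 1 := by
  rcases Int.units_eq_one_or (Perm.sign σ) with h | h <;> simp [sg, h]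

theorem avg {β : Type} [Fintype β] [DecidableEq β] {m : ℕ} (j : Fin m ↪ β) (T : Perm β → ℚ)
    (h : ∀ ρ : Perm β, ∑ τ : Perm (Fin m), sg τ * T (ρ * τ.viaFintypeEmbedding j) = 0) :
    ∑ ρ, sg ρ * T ρ = 0 := by
  have h1 : ∀ τ : Perm (Fin m), ∑ ρ, sg ρ * T ρ =
      ∑ ρ : Perm β, sg ρ * (sg τ * T (ρ * τ.viaFintypeEmbedding j)) := by
    intro τ
    rw [← Equiv.sum_comp (Equiv.mulRight (τ.viaFintypeEmbedding j))]
    refine Finset.sum_congr rfl fun ρ _ => ?_
    have : sg (τ.viaFintypeEmbedding j) = sg τ := by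
      simp [sg, Perm.viaFintypeEmbedding_sign]
    simp [sg_mul, this, mul_assoc]
  have h2 : ∑ _τ : Perm (Fin m), ∑ ρ, sg ρ * T ρ = 0 := by
    rw [Finset.sum_congr rfl fun τ _ => h1 τ, Finset.sum_comm]
    simp [← Finset.mul_sum, h]
  simpa [Fintype.card_ne_zero] using h2

open Classical in
/-- The coboundary of the antisymmetrisation of `a`, evaluated at `N`. -/
noncomputable def cob {p : ℕ} (a : BC (Fin p) → ℚ) (N : BC (Fin (p + 1))) : ℚ :=
  ∑ τ : Perm (Fin (p + 1)), sg τ *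
    (if Cl N (τ 0) Set.univ ∧ ¬ Cl N (τ 0) ∅ then a (mn N (τ ∘ Fin.succ) ∅) else 0)

open Classical in
theorem split_zero {β : Type} [Fintype β] [DecidableEq β] {p q : ℕ} (a : BC (Fin p) → ℚ)
    (b : BC (Fin q) → ℚ) (ha : ∀ N, Reg N → cob a N = 0) (hb : ∀ N, Reg N → cob b N = 0)
    (K : BC β) (hK : Reg K) (hl : ∀ x, ¬ Cl K x ∅) (jP : Fin (p + 1) ↪ β) (jQ : Fin (q + 1) ↪ β)
    (h0 : jP 0 = jQ 0) (hd : ∀ (i : Fin p) j, jP i.succ ≠ jQ j)
    (hcov : ∀ y, y ∈ Set.range jP ∨ y ∈ Set.range jQ) :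
    ∑ ρ : Perm β, sg ρ * (if Cl K (ρ (jP 0)) Set.univ then
      a (mn K (ρ ∘ jP ∘ Fin.succ) ∅) *
        b (mn K (ρ ∘ jQ ∘ Fin.succ) (Set.range (ρ ∘ jP ∘ Fin.succ))) else 0) = 0 := by
  have hd' : ∀ (j : Fin q) i, jQ j.succ ≠ jP i := by
    intro j i
    refine Fin.cases ?_ (fun i => (hd i _).symm) i
    rw [h0]
    exact jQ.injective.ne (Fin.succ_ne_zero j)
  let TA : Perm β → ℚ := fun ρ => if Cl K (ρ (jP 0)) (Set.range (ρ ∘ jP ∘ Fin.succ)) then
      a (mn K (ρ ∘ jP ∘ Fin.succ) ∅) * b (mn K (ρ ∘ jQ ∘ Fin.succ) (Set.range (ρ ∘ jP))) else 0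
  let TB : Perm β → ℚ := fun ρ => if Cl K (ρ (jP 0)) Set.univ ∧
      ¬ Cl K (ρ (jP 0)) (Set.range (ρ ∘ jP ∘ Fin.succ)) then
      a (mn K (ρ ∘ jP ∘ Fin.succ) ∅) *
        b (mn K (ρ ∘ jQ ∘ Fin.succ) (Set.range (ρ ∘ jP ∘ Fin.succ))) else 0
  have hA : ∑ ρ, sg ρ * TA ρ = 0 := by
    refine avg jP TA fun ρ => ?_
    have hinj : Function.Injective (ρ ∘ jP) := ρ.injective.comp jP.injective
    have h1 := ha (mn K (ρ ∘ jP) ∅) (hK.mn hinj (by simp))
    rw [cob] at h1
    rw [← zero_mul (b (mn K (ρ ∘ jQ ∘ Fin.succ) (Set.range (ρ ∘ jP)))), ← h1, Finset.sum_mul]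
    refine Finset.sum_congr rfl fun τ _ => ?_
    have e1 : (ρ * τ.viaFintypeEmbedding jP : Perm β) ∘ jP = (ρ ∘ jP) ∘ τ := by
      ext i; simp [Perm.viaFintypeEmbedding_apply_image]
    have e2 : (ρ * τ.viaFintypeEmbedding jP : Perm β) ∘ jQ ∘ Fin.succ = ρ ∘ jQ ∘ Fin.succ := by
      ext j
      have : jQ j.succ ∉ Set.range jP := by
        rintro ⟨i, hi⟩
        exact hd' j i hi.symm
      simp [Perm.viaFintypeEmbedding_apply_notMem_range _ _ this]
    have e3 : (ρ * τ.viaFintypeEmbedding jP : Perm β) ∘ jP ∘ Fin.succ =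
        (ρ ∘ jP) ∘ τ ∘ Fin.succ := by
      rw [← Function.comp_assoc, e1]; rfl
    have e4 : (ρ * τ.viaFintypeEmbedding jP : Perm β) (jP 0) = (ρ ∘ jP) (τ 0) := congrFun e1 0
    have e5 : Set.range ((ρ ∘ jP) ∘ τ) = Set.range (ρ ∘ jP) := τ.surjective.range_comp _
    simp only [TA]
    rw [e4, e3, e2, e1, e5, mn_mn_empty K hinj, Cl_mn K hinj (by simp), Cl_mn K hinj (by simp)]
    have e6 : Cl K ((ρ ∘ jP) (τ 0)) (Set.range ((ρ ∘ jP) ∘ τ ∘ Fin.succ)) ↔
        Cl K ((ρ ∘ jP) (τ 0)) ((ρ ∘ jP) '' Set.univ ∪ ∅) := by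
      refine Cl_congr K _ fun y hy => ?_
      simp only [Set.image_univ, Set.union_empty]
      constructor
      · rintro ⟨i, rfl⟩
        exact ⟨_, rfl⟩
      · rintro ⟨i, rfl⟩
        obtain ⟨i, rfl⟩ := τ.surjective i
        revert hy
        refine Fin.cases (fun hy => absurd rfl hy) (fun i _ => ⟨i, rfl⟩) i
    have e7 := hl ((ρ ∘ jP) (τ 0))
    simp only [e6, Set.image_empty, Set.union_empty, e7, not_false_eq_true, and_true]
    split_ifs <;> simp [mul_assoc]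
  have hB : ∑ ρ, sg ρ * TB ρ = 0 := by
    refine avg jQ TB fun ρ => ?_
    have hinj : Function.Injective (ρ ∘ jQ) := ρ.injective.comp jQ.injective
    have hF : ∀ j, (ρ ∘ jQ) j ∉ Set.range (ρ ∘ jP ∘ Fin.succ) := by
      rintro j ⟨i, hi⟩
      exact hd i j (ρ.injective hi)
    have h1 := hb (mn K (ρ ∘ jQ) (Set.range (ρ ∘ jP ∘ Fin.succ))) (hK.mn hinj hF)
    rw [cob] at h1
    rw [← mul_zero (a (mn K (ρ ∘ jP ∘ Fin.succ) ∅)), ← h1, Finset.mul_sum]
    refine Finset.sum_congr rfl fun τ _ => ?_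
    have e1 : (ρ * τ.viaFintypeEmbedding jQ : Perm β) ∘ jQ = (ρ ∘ jQ) ∘ τ := by
      ext i; simp [Perm.viaFintypeEmbedding_apply_image]
    have e2 : (ρ * τ.viaFintypeEmbedding jQ : Perm β) ∘ jP ∘ Fin.succ = ρ ∘ jP ∘ Fin.succ := by
      ext j
      have : jP j.succ ∉ Set.range jQ := by
        rintro ⟨i, hi⟩
        exact hd j i hi.symm
      simp [Perm.viaFintypeEmbedding_apply_notMem_range _ _ this]
    have e3 : (ρ * τ.viaFintypeEmbedding jQ : Perm β) ∘ jQ ∘ Fin.succ =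
        (ρ ∘ jQ) ∘ τ ∘ Fin.succ := by
      rw [← Function.comp_assoc, e1]; rfl
    have e4 : (ρ * τ.viaFintypeEmbedding jQ : Perm β) (jP 0) = (ρ ∘ jQ) (τ 0) := by
      rw [h0]; exact congrFun e1 0
    simp only [TB]
    rw [e4, e3, e2, mn_mn_empty' K hinj hF, Cl_mn K hinj hF, Cl_mn K hinj hF]
    have e6 : Cl K ((ρ ∘ jQ) (τ 0)) ((ρ ∘ jQ) '' Set.univ ∪ Set.range (ρ ∘ jP ∘ Fin.succ)) ↔
        Cl K ((ρ ∘ jQ) (τ 0)) Set.univ := by
      refine Cl_congr K _ fun y _ => ?_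
      simp only [Set.image_univ, Set.mem_univ, iff_true]
      obtain ⟨y, rfl⟩ := ρ.surjective y
      rcases hcov y with ⟨i, rfl⟩ | ⟨i, rfl⟩
      · refine Fin.cases ?_ (fun i => Or.inr ⟨i, rfl⟩) i
        exact Or.inl ⟨0, by simp [h0]⟩
      · exact Or.inl ⟨i, rfl⟩
    simp only [e6, Set.image_empty, Set.empty_union]
    split_ifs
    · ring
    · simp
  have hAB : ∑ ρ, (sg ρ * TA ρ + sg ρ * TB ρ) = 0 := by
    rw [Finset.sum_add_distrib, hA, hB, add_zero]
  refine Eq.trans (Finset.sum_congr rfl fun ρ _ => ?_) hAB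
  rw [← mul_add]
  congr 1
  simp only [TA, TB]
  by_cases h1 : Cl K (ρ (jP 0)) (Set.range (ρ ∘ jP ∘ Fin.succ))
  · have h2 : Cl K (ρ (jP 0)) Set.univ := h1.mono (Set.subset_univ _)
    have h3 : Set.range (ρ ∘ jP) = insert (ρ (jP 0)) (Set.range (ρ ∘ jP ∘ Fin.succ)) := by
      rw [Fin.range_fin_succ]; rfl
    rw [if_pos h1, if_pos h2, if_neg (fun h => h.2 h1), add_zero, h3, ← mn_insert K h1]
    · intro i h
      exact hd' i 0 (ρ.injective h)
    · rintro i ⟨j, h⟩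
      exact hd j _ (ρ.injective h)
  · simp [h1]

end Pool.Agent.Lib.MP_4eafcb_co
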