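import Pool.Agent.Lib.MP_4eafcb_co.Bits

set_option autoImplicit false

namespace Pool.Agent.Lib.MP_4eafcb_co

/-- The code of `M(K_4)`. -/
def gK : List ℕ := [7, 25, 42]
/-- The code of `M(W_5)`. -/
def gW : List ℕ := [7, 26, 112, 388, 832]
/-- The second oriented matroid of rank five on ten elements. -/
def gG : List ℕ := [7, 25, 98, 392, 673]
/-- The oriented matroid of rank five on eleven elements. -/
def gN : List ℕ := [35, 93, 140, 269, 517, 1042]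
/-- The Fano plane. -/
def gF : List ℕ := [11, 21, 38, 71]

/-- Certificates, block 0. -/
def tK0 : List (ℕ × ℕ × List ℕ × ℕ) :=
  [(1, 0, [1, 0, 2, 3, 4, 5, 6], 0),
   (2, 0, [2, 1, 0, 3, 4, 5, 6], 0),
   (3, 0, [3, 1, 2, 0, 4, 5, 6], 0),
   (8, 0, [4, 1, 2, 3, 0, 5, 6], 0),
   (9, 0, [5, 1, 2, 3, 4, 0, 6], 0),
   (10, 0, [6, 1, 2, 3, 4, 5, 0], 0),
   (11, 2, [0, 1, 2, 6, 5, 3, 4], 0)]

/-- Certificates for the single-element extensions. -/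
def tK : List (ℕ × ℕ × List ℕ × ℕ) :=
  tK0

/-- Certificates, block 0. -/
def tW0 : List (ℕ × ℕ × List ℕ × ℕ) :=
  [(1, 0, [1, 0, 2, 3, 4, 5, 6, 7, 8, 9, 10], 0),
   (2, 0, [2, 1, 0, 3, 4, 5, 6, 7, 8, 9, 10], 0),
   (3, 0, [3, 1, 2, 0, 4, 5, 6, 7, 8, 9, 10], 0),
   (8, 0, [4, 1, 2, 3, 0, 5, 6, 7, 8, 9, 10], 0),
   (9, 1, [3, 9, 1, 4, 7, 8, 6, 0, 5, 2, 10], 0),
   (10, 0, [5, 1, 2, 3, 4, 0, 6, 7, 8, 9, 10], 0),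
   (11, 2, [0, 1, 2, 5, 10, 3, 4], 320),
   (32, 0, [6, 1, 2, 3, 4, 5, 0, 7, 8, 9, 10], 0)]

/-- Certificates, block 1. -/
def tW1 : List (ℕ × ℕ × List ℕ × ℕ) :=
  [(33, 0, [4, 2, 1, 3, 0, 6, 5, 7, 8, 9, 10], 0),
   (34, 2, [0, 2, 4, 6, 7, 5, 10], 258),
   (35, 2, [0, 2, 4, 6, 7, 5, 10], 258),
   (40, 1, [2, 3, 4, 6, 9, 1, 10, 0, 7, 5, 8], 0),
   (41, 1, [3, 2, 8, 10, 5, 1, 6, 0, 7, 9, 4], 0),
   (42, 0, [7, 1, 2, 3, 4, 5, 6, 0, 8, 9, 10], 0),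
   (43, 2, [0, 1, 2, 7, 10, 3, 6], 272),
   (128, 0, [8, 1, 2, 3, 4, 5, 6, 7, 0, 9, 10], 0)]

/-- Certificates, block 2. -/
def tW2 : List (ℕ × ℕ × List ℕ × ℕ) :=
  [(129, 1, [2, 5, 1, 8, 7, 4, 10, 0, 9, 3, 6], 0),
   (130, 2, [0, 1, 2, 9, 8, 3, 10], 80),
   (131, 0, [9, 1, 2, 3, 4, 5, 6, 7, 8, 0, 10], 0),
   (136, 0, [1, 0, 4, 8, 2, 5, 6, 7, 3, 9, 10], 0),
   (137, 1, [5, 2, 6, 10, 3, 4, 8, 0, 9, 7, 1], 0),
   (138, 2, [0, 2, 4, 10, 9, 5, 8], 66),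
   (139, 2, [0, 2, 4, 10, 9, 5, 8], 66),
   (160, 0, [10, 1, 2, 3, 4, 5, 7, 6, 9, 8, 0], 0)]

/-- Certificates, block 3. -/
def tW3 : List (ℕ × ℕ × List ℕ × ℕ) :=
  [(161, 0, [6, 1, 2, 3, 5, 4, 0, 10, 8, 9, 7], 0),
   (162, 2, [0, 2, 6, 10, 9, 7, 8], 18),
   (163, 2, [0, 2, 6, 10, 9, 7, 8], 18),
   (168, 0, [8, 3, 2, 1, 4, 5, 6, 7, 0, 10, 9], 0),
   (169, 0, [10, 1, 2, 3, 4, 5, 6, 7, 8, 9, 0], 0),
   (170, 2, [0, 2, 6, 10, 9, 7, 8], 18),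
   (171, 2, [0, 2, 6, 10, 9, 7, 8], 18)]

/-- Certificates for the single-element extensions. -/
def tW : List (ℕ × ℕ × List ℕ × ℕ) :=
  tW0 ++ tW1 ++ tW2 ++ tW3

/-- Certificates, block 0. -/
def tG0 : List (ℕ × ℕ × List ℕ × ℕ) :=
  [(1, 0, [1, 0, 2, 3, 4, 5, 6, 7, 8, 9, 10], 0),
   (2, 0, [2, 1, 0, 3, 4, 5, 6, 7, 8, 9, 10], 0),
   (3, 0, [3, 1, 2, 0, 4, 5, 6, 7, 8, 9, 10], 0),
   (8, 0, [4, 1, 2, 3, 0, 5, 6, 7, 8, 9, 10], 0),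
   (9, 0, [5, 1, 2, 3, 4, 0, 6, 7, 8, 9, 10], 0),
   (10, 2, [1, 2, 6, 3, 8, 7, 9], 1025),
   (11, 0, [5, 3, 2, 1, 4, 0, 7, 6, 8, 9, 10], 0),
   (32, 0, [6, 1, 2, 3, 4, 5, 0, 7, 8, 9, 10], 0)]

/-- Certificates, block 1. -/
def tG1 : List (ℕ × ℕ × List ℕ × ℕ) :=
  [(33, 1, [0, 8, 7, 2, 4, 10, 5, 6, 1, 3, 9], 0),
   (34, 0, [7, 1, 2, 3, 4, 5, 6, 0, 8, 9, 10], 0),
   (35, 2, [0, 1, 2, 7, 10, 3, 6], 272),
   (40, 0, [5, 6, 2, 7, 4, 0, 1, 3, 8, 9, 10], 0),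
   (41, 0, [1, 0, 9, 10, 6, 5, 4, 8, 7, 2, 3], 0),
   (42, 0, [5, 7, 2, 6, 4, 0, 3, 1, 8, 9, 10], 0),
   (43, 2, [1, 2, 4, 3, 5, 10, 6], 257),
   (128, 0, [8, 1, 2, 3, 4, 5, 6, 7, 0, 9, 10], 0)]

/-- Certificates, block 2. -/
def tG2 : List (ℕ × ℕ × List ℕ × ℕ) :=
  [(129, 1, [0, 6, 9, 4, 2, 10, 3, 8, 1, 5, 7], 0),
   (130, 0, [3, 8, 2, 0, 4, 9, 6, 7, 1, 5, 10], 0),
   (131, 0, [1, 0, 8, 3, 7, 10, 9, 4, 2, 6, 5], 0),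
   (136, 0, [9, 1, 2, 3, 4, 5, 6, 7, 8, 0, 10], 0),
   (137, 2, [0, 1, 4, 9, 10, 5, 8], 68),
   (138, 0, [3, 9, 2, 0, 4, 8, 6, 7, 5, 1, 10], 0),
   (139, 2, [1, 2, 4, 3, 5, 10, 8], 65),
   (160, 2, [0, 1, 6, 10, 8, 7, 9], 40)]

/-- Certificates, block 3. -/
def tG3 : List (ℕ × ℕ × List ℕ × ℕ) :=
  [(161, 0, [10, 1, 2, 3, 4, 5, 6, 7, 8, 9, 0], 0),
   (162, 0, [7, 1, 3, 2, 4, 5, 10, 0, 8, 9, 6], 0),
   (163, 2, [0, 1, 6, 10, 8, 7, 9], 40),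
   (168, 0, [9, 1, 2, 3, 5, 4, 6, 7, 10, 0, 8], 0),
   (169, 2, [0, 1, 4, 9, 10, 5, 8], 68),
   (170, 2, [1, 2, 4, 3, 5, 8, 10], 65),
   (171, 0, [10, 1, 2, 3, 4, 5, 7, 6, 9, 8, 0], 0)]

/-- Certificates for the single-element extensions. -/
def tG : List (ℕ × ℕ × List ℕ × ℕ) :=
  tG0 ++ tG1 ++ tG2 ++ tG3

/-- Permutations for the deletions. -/
def pN : List (List ℕ) :=
  [[7, 2, 8, 3, 5, 6, 1, 0, 9, 4],
   [0, 1, 2, 3, 9, 5, 6, 7, 8, 4],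
   [0, 1, 8, 3, 4, 5, 6, 7, 2, 9],
   [0, 1, 8, 3, 4, 5, 6, 7, 2, 9],
   [0, 1, 2, 3, 4, 9, 6, 7, 8, 5],
   [3, 9, 2, 0, 4, 5, 8, 7, 6, 1],
   [0, 1, 6, 3, 9, 5, 2, 8, 7, 4],
   [2, 0, 8, 5, 1, 9, 4, 3, 7, 6],
   [0, 1, 5, 2, 8, 4, 9, 7, 3, 6],
   [0, 1, 3, 2, 4, 5, 6, 7, 8, 9],
   [0, 1, 2, 3, 6, 5, 4, 7, 8, 9]]

/-- Permutations for the deletions. -/
def pA : List (List ℕ) :=
  [[0, 3, 2, 1, 4, 5, 6, 7, 8, 9, 10, 11, 12, 13, 14],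
   [0, 7, 2, 3, 4, 5, 6, 1, 8, 9, 10, 11, 12, 13, 14],
   [0, 7, 2, 3, 4, 5, 6, 1, 8, 9, 10, 11, 12, 13, 14],
   [5, 4, 6, 14, 1, 0, 2, 10, 9, 8, 7, 11, 13, 12, 3],
   [2, 1, 0, 3, 4, 5, 6, 7, 8, 9, 10, 11, 12, 13, 14],
   [0, 1, 2, 3, 4, 5, 10, 7, 8, 9, 6, 11, 12, 13, 14],
   [0, 1, 2, 3, 4, 5, 14, 7, 8, 9, 10, 11, 12, 13, 6],
   [0, 1, 2, 3, 4, 5, 14, 7, 8, 9, 10, 11, 12, 13, 6],
   [0, 2, 1, 3, 4, 5, 6, 7, 8, 9, 10, 11, 12, 13, 14],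
   [0, 1, 2, 3, 4, 5, 6, 7, 8, 9, 10, 11, 12, 13, 14],
   [0, 1, 2, 3, 4, 12, 11, 13, 8, 9, 10, 6, 5, 7, 14],
   [0, 1, 2, 3, 4, 7, 6, 5, 8, 9, 10, 11, 12, 13, 14],
   [0, 1, 2, 3, 4, 5, 6, 7, 8, 9, 10, 11, 12, 14, 13],
   [0, 1, 2, 3, 4, 5, 6, 7, 8, 9, 10, 11, 12, 13, 14],
   [0, 1, 2, 3, 4, 5, 6, 7, 8, 9, 10, 11, 14, 13, 12],
   [0, 1, 2, 3, 4, 5, 6, 7, 8, 9, 10, 11, 14, 13, 12]]

/-- Permutations for the deletions. -/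
def pB : List (List ℕ) :=
  [[0, 6, 2, 3, 4, 5, 1, 7, 8, 9, 10, 11, 12, 13, 14],
   [0, 9, 2, 3, 4, 5, 6, 7, 8, 1, 10, 11, 12, 13, 14],
   [6, 1, 2, 3, 4, 5, 0, 7, 8, 9, 10, 11, 12, 13, 14],
   [0, 1, 2, 3, 8, 5, 6, 7, 4, 9, 10, 11, 12, 13, 14],
   [0, 1, 2, 3, 12, 5, 6, 7, 8, 9, 10, 11, 4, 13, 14],
   [0, 1, 2, 8, 4, 5, 6, 7, 3, 9, 10, 11, 12, 13, 14],
   [0, 1, 2, 3, 4, 5, 13, 7, 8, 9, 10, 11, 12, 6, 14],
   [0, 1, 2, 3, 4, 5, 13, 7, 8, 9, 10, 11, 12, 6, 14],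
   [0, 1, 2, 3, 4, 5, 6, 7, 14, 9, 10, 11, 12, 13, 8],
   [0, 1, 2, 3, 4, 5, 6, 7, 14, 9, 10, 11, 12, 13, 8],
   [0, 2, 1, 3, 4, 5, 6, 7, 8, 9, 10, 11, 12, 13, 14],
   [3, 4, 5, 8, 9, 0, 6, 7, 12, 11, 1, 2, 14, 10, 13],
   [0, 1, 2, 6, 7, 3, 8, 9, 10, 11, 4, 5, 13, 12, 14],
   [0, 1, 2, 3, 5, 4, 6, 7, 8, 9, 10, 11, 12, 13, 14],
   [0, 1, 2, 4, 3, 5, 6, 7, 12, 13, 10, 11, 8, 9, 14],
   [0, 1, 2, 3, 4, 5, 6, 7, 9, 8, 10, 11, 12, 13, 14]]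

/-- Permutations for the deletions. -/
def pC : List (List ℕ) :=
  [[2, 1, 0, 3, 4, 5, 6, 7, 8, 9, 10, 11, 12, 13, 14],
   [2, 1, 0, 3, 4, 5, 6, 7, 8, 9, 10, 11, 12, 13, 14],
   [7, 11, 6, 5, 10, 3, 2, 0, 12, 14, 4, 1, 8, 13, 9],
   [1, 0, 2, 3, 4, 5, 6, 7, 8, 9, 10, 11, 12, 13, 14],
   [7, 6, 5, 11, 10, 2, 1, 0, 8, 9, 4, 3, 12, 13, 14],
   [6, 10, 11, 5, 7, 0, 2, 1, 14, 4, 3, 8, 12, 13, 9],
   [0, 1, 2, 3, 4, 5, 8, 7, 6, 9, 13, 12, 11, 10, 14],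
   [0, 1, 2, 3, 4, 5, 6, 11, 8, 9, 10, 7, 12, 13, 14],
   [0, 1, 2, 3, 4, 5, 6, 11, 8, 9, 10, 7, 12, 13, 14],
   [0, 1, 2, 3, 4, 5, 6, 7, 8, 13, 10, 11, 12, 9, 14],
   [0, 1, 2, 3, 4, 5, 6, 7, 8, 13, 10, 11, 12, 9, 14],
   [0, 1, 2, 3, 4, 5, 6, 7, 8, 9, 10, 14, 12, 13, 11],
   [0, 1, 2, 3, 4, 5, 6, 7, 8, 9, 10, 14, 12, 13, 11],
   [0, 1, 2, 3, 4, 5, 6, 7, 8, 9, 10, 11, 12, 14, 13],
   [0, 1, 2, 3, 4, 5, 6, 7, 8, 9, 10, 11, 12, 14, 13],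
   [0, 1, 2, 3, 4, 5, 6, 7, 8, 9, 10, 11, 12, 14, 13]]

/-- Edges of a graph on nine vertices. -/
def eA : List (ℕ × ℕ) :=
  [(0, 1), (0, 3), (0, 7), (1, 6), (1, 7), (2, 4), (2, 6), (2, 8), (3, 7), (3, 8), (4, 7), (4, 8), (5, 6), (5, 7), (5, 8), (6, 8)]

/-- Vertex stars. -/
def gA : List ℕ := [7, 25, 224, 770, 3104, 28672, 36936, 9492]

/-- Edges of a graph on nine vertices. -/
def eB : List (ℕ × ℕ) :=
  [(0, 2), (0, 4), (0, 7), (1, 3), (1, 5), (1, 8), (2, 6), (2, 7), (3, 6), (3, 8), (4, 7), (4, 8), (5, 7), (5, 8), (6, 7), (6, 8)]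

/-- Vertex stars. -/
def gB : List ℕ := [7, 56, 193, 776, 3074, 12304, 49472, 21636]

/-- Edges of a graph on nine vertices. -/
def eC : List (ℕ × ℕ) :=
  [(0, 1), (0, 2), (0, 6), (1, 2), (1, 7), (2, 8), (3, 6), (3, 4), (3, 7), (5, 6), (6, 8), (4, 8), (4, 7), (5, 7), (5, 8), (7, 8)]

/-- Vertex stars. -/
def gC : List ℕ := [7, 25, 42, 448, 6272, 25088, 1604, 45328]

/-- The extension of the code `G` by the vector `v`. -/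
def extG (v : ℕ) (G : List ℕ) : List ℕ := (2 * v + 1) :: G.map (fun g => 2 * g)

/-- A certificate: odd automorphism, isomorphism to `N`, or Fano minor. -/
def certOK (n : ℕ) (G N : List ℕ) (c : ℕ × ℕ × List ℕ × ℕ) : Prop :=
  (∀ g ∈ extG c.1 G, g < 2 ^ n) ∧
  ((c.2.1 = 0 ∧ wf n n c.2.2.1 ∧ img (extG c.1 G) c.2.2.1 0 = bits (spanL (extG c.1 G)) ∧
      sgnL c.2.2.1 = -1) ∨
    (c.2.1 = 1 ∧ wf n n c.2.2.1 ∧ img (extG c.1 G) c.2.2.1 0 = bits (spanL N)) ∨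
    (c.2.1 = 2 ∧ wf n 7 c.2.2.1 ∧ (∀ a ∈ c.2.2.1, c.2.2.2.testBit a = false) ∧
      img (extG c.1 G) c.2.2.1 c.2.2.2 = bits (spanL gF)))

instance (n : ℕ) (G N : List ℕ) (c : ℕ × ℕ × List ℕ × ℕ) : Decidable (certOK n G N c) := by
  unfold certOK; infer_instance

/-- The listed vectors represent all cosets. -/
def repsOK (q : ℕ) (G : List ℕ) (T : List (ℕ × ℕ × List ℕ × ℕ)) : Bool :=
  (List.range (2 ^ q)).all fun t => (bits (spanL G)).testBit t ||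
    T.any fun c => (bits (spanL G)).testBit (Nat.xor t c.1)

theorem tK_ok : ∀ c ∈ tK, certOK 7 gK [] c := by decide +kernel
theorem tW_ok : ∀ c ∈ tW, certOK 11 gW gN c := by decide +kernel
theorem tG_ok : ∀ c ∈ tG, certOK 11 gG gN c := by decide +kernel
theorem tK_reps : repsOK 6 gK tK = true := by decide +kernel
theorem tW_reps : repsOK 10 gW tW = true := by decide +kernel
theorem tG_reps : repsOK 10 gG tG = true := by decide +kernel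

/-- Shift indices past `x`. -/
def up (x : ℕ) (l : List ℕ) : List ℕ := l.map (fun i => if i < x then i else i + 1)

/-- The list is an odd automorphism of the deletion of `x`. -/
def oddOK (n : ℕ) (G : List ℕ) (x : ℕ) (l : List ℕ) : Prop :=
  wf n n l ∧ wf (n + 1) n (up x l) ∧ wf (n + 1) n (up x (List.range n)) ∧
    img G (up x l) 0 = img G (up x (List.range n)) 0 ∧ sgnL l = -1

instance (n : ℕ) (G : List ℕ) (x : ℕ) (l : List ℕ) : Decidable (oddOK n G x l) := by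
  unfold oddOK; infer_instance

theorem pN_ok : ∀ x : Fin 11, x ≠ 0 → x ≠ 7 → x ≠ 8 → oddOK 10 gN x (pN.getD x []) := by
  decide +kernel
theorem pA_ok : ∀ x : Fin 16, x ≠ 9 → x ≠ 13 → oddOK 15 gA x (pA.getD x []) := by
  decide +kernel
theorem pB_ok : ∀ x : Fin 16, x ≠ 11 → x ≠ 12 → oddOK 15 gB x (pB.getD x []) := by
  decide +kernel
theorem pC_ok : ∀ x : Fin 16, x ≠ 5 → oddOK 15 gC x (pC.getD x []) := by
  decide +kernel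

theorem conn_K : connChk 6 gK [45, 30] = true := by decide +kernel
theorem conn_W : connChk 10 gW [489, 692, 7] = true := by decide +kernel
theorem conn_G : connChk 10 gG [843, 500] = true := by decide +kernel
theorem conn_A : connChk 16 gA [22989, 9750, 37032] = true := by decide +kernel
theorem conn_B : connChk 16 gB [26469, 39432, 25747] = true := by decide +kernel
theorem conn_C : connChk 16 gC [32041, 53966, 25] = true := by decide +kernel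

/-- The two classes on fifteen elements. -/
def gX : List ℕ := [7, 25, 224, 1568, 14336, 18504, 4874]
/-- The two classes on fifteen elements. -/
def gY : List ℕ := [7, 25, 224, 770, 3104, 20552, 13832]
theorem conn_X : connChk 15 gX [11725, 23458, 25] = true := by decide +kernel
theorem conn_Y : connChk 15 gY [14797, 26272, 30] = true := by decide +kernel

theorem srch_KK : srch 6 (okR (bits (spanL gK)) gK) (fun a => sgnL a == 1) 6 [] = true := by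
  decide +kernel
theorem srch_WW : srch 10 (okR (bits (spanL gW)) gW) (fun a => sgnL a == 1) 10 [] = true := by
  refine srch_split fun x hx => ?_
  interval_cases x <;> decide +kernel
theorem srch_GG : srch 10 (okR (bits (spanL gG)) gG) (fun a => sgnL a == 1) 10 [] = true := by
  refine srch_split fun x hx => ?_
  interval_cases x <;> decide +kernel
theorem srch_GW : srch 10 (okR (bits (spanL gG)) gW) (fun _ => false) 10 [] = true := by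
  refine srch_split fun x hx => ?_
  interval_cases x <;> decide +kernel
theorem srch_WG : srch 10 (okR (bits (spanL gW)) gG) (fun _ => false) 10 [] = true := by
  refine srch_split fun x hx => ?_
  interval_cases x <;> decide +kernel

end Pool.Agent.Lib.MP_4eafcb_co
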