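import Pool.Agent.Lib.MP_4eafcb_co.Perm

set_option autoImplicit false

namespace Pool.Agent.Lib.MP_4eafcb_co

open Equiv

/-- `M` is representable over the field `K`. -/
def IsRepOver (K : Type) [Field K] {n : ℕ} (M : Matroid (Fin n)) : Prop :=
  ∃ (r : ℕ) (v : Fin n → Fin r → K), ∀ S : Set (Fin n), M.Indep S ↔ LinearIndepOn K v S

/-- `M` is nonempty and not the direct sum of its restrictions to two nonempty complementary
sets. -/
def IsConn {n : ℕ} (M : Matroid (Fin n)) : Prop :=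
  0 < n ∧ ∀ A : Set (Fin n), A.Nonempty → Aᶜ.Nonempty →
    ¬ ∀ I : Set (Fin n), M.Indep I ↔ M.Indep (I ∩ A) ∧ M.Indep (I ∩ Aᶜ)

/-- `M` is a connected simple regular matroid with ground set `Fin n`. -/
structure Good {n : ℕ} (M : Matroid (Fin n)) : Prop where
  ground : M.E = Set.univ
  simple : ∀ e f : Fin n, M.Indep {e, f}
  regular : ∀ (K : Type) [Field K], IsRepOver K M
  conn : IsConn M

/-- Connected simple regular matroids on `Fin n`; `M` stands for the symbol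
`[M, e_0 ∧ ⋯ ∧ e_(n-1)]`. -/
def Gen (n : ℕ) : Type := {M : Matroid (Fin n) // Good M}

/-- The deletion `M \ x`, relabelled in an order-preserving way. -/
def del {n : ℕ} (M : Matroid (Fin (n + 1))) (x : Fin (n + 1)) : Matroid (Fin n) :=
  M.comap x.succAbove

theorem del_indep {n : ℕ} (M : Matroid (Fin (n + 1))) (x : Fin (n + 1)) (I : Set (Fin n)) :
    (del M x).Indep I ↔ M.Indep (x.succAbove '' I) := by
  simp [del, Fin.succAbove_right_injective.injOn]

/-- A connected deletion of a simple regular matroid is again simple and regular. -/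
theorem good_del {n : ℕ} (M : Gen (n + 1)) (x : Fin (n + 1)) (h : IsConn (del M.1 x)) :
    Good (del M.1 x) := by
  refine ⟨by simp [del, M.2.ground], fun e f => ?_, fun K _ => ?_, h⟩
  · rw [del_indep, Set.image_pair]
    exact M.2.simple _ _
  · obtain ⟨r, v, hv⟩ := M.2.regular K
    refine ⟨r, v ∘ x.succAbove, fun S => ?_⟩
    rw [del_indep, hv]
    exact ⟨fun h => h.comp_of_image Fin.succAbove_right_injective.injOn, fun h => h.image_of_comp⟩

/-- The relations `[M, η] = [M', φ_* η]` for matroid isomorphisms `φ : M → M'`. -/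
noncomputable def Rel (n : ℕ) : Submodule ℚ (Gen n →₀ ℚ) :=
  Submodule.span ℚ {w | ∃ (M M' : Gen n) (σ : Perm (Fin n)),
    (∀ I : Set (Fin n), M.1.Indep I ↔ M'.1.Indep (σ '' I)) ∧
    w = Finsupp.single M 1 - ((Perm.sign σ : ℤ) : ℚ) • Finsupp.single M' 1}

/-- The chain group `C_n`. -/
abbrev Chain (n : ℕ) : Type := (Gen n →₀ ℚ) ⧸ Rel n

open Classical in
/-- The term of the differential given by the element `x`. -/
noncomputable def term {n : ℕ} (M : Gen (n + 1)) (x : Fin (n + 1)) : Gen n →₀ ℚ :=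
  if h : ¬ M.1.IsColoop x ∧ IsConn (del M.1 x) then
    (-1 : ℚ) ^ (x : ℕ) • Finsupp.single ⟨del M.1 x, good_del M x h.2⟩ 1
  else 0

/-- The deletion differential on representatives. -/
noncomputable def preBd (n : ℕ) : (Gen (n + 1) →₀ ℚ) →ₗ[ℚ] (Gen n →₀ ℚ) :=
  Finsupp.linearCombination ℚ (fun M => ∑ x, term M x)

theorem isConn_of_iso {n : ℕ} {M M' : Matroid (Fin n)} (σ : Perm (Fin n))
    (h : ∀ I : Set (Fin n), M.Indep I ↔ M'.Indep (σ '' I)) (hM : IsConn M') : IsConn M := by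
  refine ⟨hM.1, fun A hA hA' hsep => hM.2 (σ '' A) (hA.image _) ?_ fun I => ?_⟩
  · rw [← Equiv.image_compl]
    exact hA'.image _
  · obtain ⟨J, rfl⟩ : ∃ J, σ '' J = I := ⟨σ.symm '' I, by simp⟩
    rw [← Equiv.image_compl, ← Set.image_inter σ.injective, ← Set.image_inter σ.injective,
      ← h, ← h, ← h]
    exact hsep J

theorem iso_symm {n : ℕ} {M M' : Matroid (Fin n)} (σ : Perm (Fin n))
    (h : ∀ I : Set (Fin n), M.Indep I ↔ M'.Indep (σ '' I)) (I : Set (Fin n)) :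
    M'.Indep I ↔ M.Indep (σ.symm '' I) := by
  rw [h]; simp

theorem isColoop_of_iso {n : ℕ} {M M' : Matroid (Fin n)} (σ : Perm (Fin n))
    (h : ∀ I : Set (Fin n), M.Indep I ↔ M'.Indep (σ '' I)) (x : Fin n)
    (hx : M'.IsColoop (σ x)) : M.IsColoop x := by
  rw [Matroid.isColoop_iff_forall_mem_isBase]
  intro B hB
  have h1 := hx.insert_indep_of_indep ((h B).1 hB.indep)
  rw [← Set.image_insert_eq, ← h] at h1
  rw [hB.eq_of_subset_indep h1 (Set.subset_insert _ _)]
  exact Set.mem_insert _ _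

/-- The differential respects the relations. -/
theorem rel_le (n : ℕ) : Rel (n + 1) ≤ (Rel n).comap (preBd n) := by
  rw [Rel, Submodule.span_le]
  rintro w ⟨M, M', σ, h, rfl⟩
  simp only [SetLike.mem_coe, Submodule.mem_comap, map_sub, map_smul, preBd,
    Finsupp.linearCombination_single, one_smul]
  rw [← Equiv.sum_comp σ (term M'), Finset.smul_sum, ← Finset.sum_sub_distrib]
  refine Submodule.sum_mem _ fun x _ => ?_
  obtain ⟨τ, hτ, hs⟩ := exists_tau σ x
  have hd : ∀ I, (del M.1 x).Indep I ↔ (del M'.1 (σ x)).Indep (τ '' I) := by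
    intro I
    rw [del_indep, del_indep, h, Set.image_image, Set.image_image]
    simp only [hτ]
  have hc : (¬ M.1.IsColoop x ∧ IsConn (del M.1 x)) ↔
      (¬ M'.1.IsColoop (σ x) ∧ IsConn (del M'.1 (σ x))) :=
    and_congr (not_congr ⟨fun hx => isColoop_of_iso σ.symm (iso_symm σ h) _ (by simpa using hx),
      isColoop_of_iso σ h x⟩) ⟨isConn_of_iso τ.symm (iso_symm τ hd), isConn_of_iso τ hd⟩
  by_cases h1 : ¬ M.1.IsColoop x ∧ IsConn (del M.1 x)
  · have h2 := hc.1 h1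
    rw [term, term, dif_pos h1, dif_pos h2]
    have hs' : ((Perm.sign σ : ℤ) : ℚ) * (-1) ^ (σ x : ℕ) =
        (-1) ^ (x : ℕ) * ((Perm.sign τ : ℤ) : ℚ) := by
      have h3 : ((Perm.sign σ : ℤ) : ℚ) * (-1) ^ (x : ℕ) =
          (-1) ^ (σ x : ℕ) * ((Perm.sign τ : ℤ) : ℚ) := by
        simpa using congrArg (fun u : ℤˣ => ((u : ℤ) : ℚ)) hs
      have h4 : ((-1 : ℚ) ^ (x : ℕ)) * (-1) ^ (x : ℕ) = 1 := by
        rw [← mul_pow]; simp
      have h5 : ((-1 : ℚ) ^ (σ x : ℕ)) * (-1) ^ (σ x : ℕ) = 1 := by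
        rw [← mul_pow]; simp
      linear_combination ((-1 : ℚ) ^ (x : ℕ) * (-1) ^ (σ x : ℕ)) * h3 -
        ((Perm.sign σ : ℤ) : ℚ) * (-1) ^ (σ x : ℕ) * h4 +
        (-1 : ℚ) ^ (x : ℕ) * ((Perm.sign τ : ℤ) : ℚ) * h5
    rw [smul_smul, hs', ← smul_smul, ← smul_sub]
    exact Submodule.smul_mem _ _ (Submodule.subset_span ⟨_, _, τ, hd, rfl⟩)
  · rw [term, term, dif_neg h1, dif_neg (fun h2 => h1 (hc.2 h2))]
    simp

/-- The deletion differential `∂ : C_(n+1) → C_n`. -/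
noncomputable def bd (n : ℕ) : Chain (n + 1) →ₗ[ℚ] Chain n :=
  (Rel (n + 1)).mapQ (Rel n) (preBd n) (rel_le n)

/-- The edges of the wheel `W_g`: hub `none`, spokes `inl i`, rim edges `inr i`. -/
def wheelEdge (g : ℕ) : ZMod g ⊕ ZMod g → Sym2 (Option (ZMod g))
  | Sum.inl i => s(none, some i)
  | Sum.inr i => s(some i, some (i + 1))

/-- `M` is isomorphic to the cycle matroid of `W_(2k+1)` for some `k ≥ 1`. -/
def IsOddWheel {n : ℕ} (M : Matroid (Fin n)) : Prop :=
  ∃ k : ℕ, 1 ≤ k ∧ ∃ e : Fin n ≃ ZMod (2 * k + 1) ⊕ ZMod (2 * k + 1), ∀ S : Set (Fin n),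
    M.Indep S ↔ (SimpleGraph.fromEdgeSet (wheelEdge (2 * k + 1) '' (e '' S))).IsAcyclic

/-- `M` is the matroid `U_(1,1)`. -/
def IsU11 {n : ℕ} (M : Matroid (Fin n)) : Prop :=
  n = 1 ∧ ∀ x, M.IsColoop x

/-- The span in `C_n` of the classes of `U_(1,1)` and of the odd wheels. -/
noncomputable def wheelSpan (n : ℕ) : Submodule ℚ (Chain n) :=
  Submodule.span ℚ {c | ∃ M : Gen n, (IsU11 M.1 ∨ IsOddWheel M.1) ∧
    c = (Rel n).mkQ (Finsupp.single M 1)}

end Pool.Agent.Lib.MP_4eafcb_co
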