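import Pool.Agent.Lib.MP_4eafcb_co.Defs
import Pool.Agent.Lib.MP_4eafcb_co.Codes

set_option autoImplicit false

namespace Pool.Agent.Lib.MP_4eafcb_co

open Equiv

section General

variable {k : Type} [Field k] {n : ℕ}

/-- The dependent sets of `M` are the sets containing the support of a nonzero codeword. -/
def Codes (M : Matroid (Fin n)) (K : Submodule k (Fin n → k)) : Prop :=
  ∀ S, M.Indep S ↔ ¬ Dep K S

theorem linIndep_iff {V : Type} [AddCommGroup V] [Module k V] (v : Fin n → V) (S : Set (Fin n)) :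
    LinearIndepOn k v S ↔ ¬ Dep (LinearMap.ker (Fintype.linearCombination k v)) S := by
  rw [linearIndepOn_iff]
  constructor
  · rintro h ⟨c, hc, h0, h1⟩
    apply h0
    have h2 := h ((Finsupp.linearEquivFunOnFinite k k (Fin n)).symm c) (by
      rw [Finsupp.mem_supported]
      intro y hy
      exact h1 y (by simpa using hy)) (by
      rw [Finsupp.linearCombination_eq_fintype_linearCombination_apply]
      exact hc)
    simpa using h2
  · intro h l hl h0
    by_contra h1
    refine h ⟨l, ?_, fun h2 => h1 (by ext i; exact congrFun h2 i), fun y hy => ?_⟩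
    · rw [LinearMap.mem_ker, ← Finsupp.linearCombination_eq_fintype_linearCombination_apply]
      simpa using h0
    · exact (Finsupp.mem_supported k l).1 hl (by simpa using hy)

theorem exists_rep (K : Submodule k (Fin n → k)) : ∃ (r : ℕ) (v : Fin n → Fin r → k),
    LinearMap.ker (Fintype.linearCombination k v) = K := by
  let e := (Module.finBasis k ((Fin n → k) ⧸ K)).equivFun
  let φ := e.toLinearMap ∘ₗ K.mkQ
  refine ⟨_, fun i => φ (Pi.single i 1), ?_⟩
  have h : Fintype.linearCombination k (fun i => φ (Pi.single i 1)) = φ := by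
    refine LinearMap.pi_ext' fun i => LinearMap.ext_ring ?_
    simp
  rw [h, LinearMap.ker_comp, LinearEquiv.ker, Submodule.comap_bot, Submodule.ker_mkQ]

theorem rep_iff (M : Matroid (Fin n)) :
    IsRepOver k M ↔ ∃ K : Submodule k (Fin n → k), Codes M K := by
  constructor
  · rintro ⟨r, v, h⟩
    exact ⟨_, fun S => (h S).trans (linIndep_iff v S)⟩
  · rintro ⟨K, h⟩
    obtain ⟨r, v, rfl⟩ := exists_rep K
    exact ⟨r, v, fun S => (h S).trans (linIndep_iff v S).symm⟩

theorem Dep.mono {β : Type} {K : Submodule k (β → k)} {S T : Set β} (h : Dep K S) (hST : S ⊆ T) :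
    Dep K T := by
  obtain ⟨c, hc, h0, h1⟩ := h
  exact ⟨c, hc, h0, fun y hy => hST (h1 y hy)⟩

theorem dep_aug (K : Submodule k (Fin n → k)) ⦃I J : Set (Fin n)⦄ (hI : ¬ Dep K I)
    (hJ : ¬ Dep K J) (h : I.ncard < J.ncard) : ∃ e ∈ J, e ∉ I ∧ ¬ Dep K (insert e I) := by
  classical
  obtain ⟨r, v, rfl⟩ := exists_rep K
  simp only [← linIndep_iff] at hI hJ ⊢
  by_contra h1
  push Not at h1
  have h2 : Set.range (fun x : J => v x) ≤ Submodule.span k (v '' I) := by
    rintro _ ⟨⟨x, hx⟩, rfl⟩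
    by_cases hxI : x ∈ I
    · exact Submodule.subset_span ⟨x, hxI, rfl⟩
    · by_contra h3
      exact h1 x hx hxI (hI.insert h3)
  have h3 := linearIndependent_le_span_aux' _ hJ (v '' I) h2
  rw [← Nat.card_eq_fintype_card, ← Nat.card_eq_fintype_card, Nat.card_coe_set_eq,
    Nat.card_coe_set_eq] at h3
  have h4 := Set.ncard_image_le (f := v) (s := I)
  omega

/-- The matroid of a code. -/
noncomputable def ofCode (K : Submodule k (Fin n → k)) : Matroid (Fin n) :=
  (IndepMatroid.ofFinite Set.finite_univ (fun S => ¬ Dep K S)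
    (by rintro ⟨c, -, h0, h1⟩; exact h0 (funext fun y => by_contra fun h => h1 y h))
    (fun _ _ hJ hIJ hI => hJ (hI.mono hIJ)) (dep_aug K) (fun _ _ => Set.subset_univ _)).matroid

theorem codes_ofCode (K : Submodule k (Fin n → k)) : Codes (ofCode K) K := by
  intro S
  simp [ofCode]

theorem ofCode_ground (K : Submodule k (Fin n → k)) : (ofCode K).E = Set.univ := rfl

theorem Codes.del {M : Matroid (Fin (n + 1))} {K : Submodule k (Fin (n + 1) → k)}
    (h : Codes M K) (x : Fin (n + 1)) : Codes (del M x) (mn K x.succAbove ∅) := by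
  intro S
  rw [del_indep, h, Dep_mn K Fin.succAbove_right_injective]

theorem Codes.iso {M M' : Matroid (Fin n)} {K : Submodule k (Fin n → k)} (h : Codes M' K)
    {σ : Perm (Fin n)} (hσ : ∀ I, M.Indep I ↔ M'.Indep (σ '' I)) : Codes M (mn K σ ∅) := by
  intro S
  rw [hσ, h, Dep_mn K σ.injective]

theorem Codes.iso' {M M' : Matroid (Fin n)} {K : Submodule k (Fin n → k)} (h : Codes M' K)
    {σ : Perm (Fin n)} (h' : Codes M (mn K σ ∅)) (I : Set (Fin n)) :
    M.Indep I ↔ M'.Indep (σ '' I) := by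
  rw [h', h, Dep_mn K σ.injective]

theorem Codes.not_coloop {M : Matroid (Fin n)} {K : Submodule k (Fin n → k)} (h : Codes M K)
    (hE : M.E = Set.univ) (x : Fin n) : ¬ M.IsColoop x ↔ Cl K x Set.univ := by
  rw [Cl_iff_Dep]
  constructor
  · intro hx
    rw [Matroid.isColoop_iff_forall_mem_isBase] at hx
    push Not at hx
    obtain ⟨B, hB, hxB⟩ := hx
    refine ⟨B, Set.subset_univ _, (h B).1 hB.indep, ?_⟩
    have := (hB.insert_dep (e := x) ⟨by simp [hE], hxB⟩).not_indep
    rwa [h, not_not] at this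
  · rintro ⟨I, -, h1, h2⟩ hx
    exact (h _).1 (hx.insert_indep_of_indep ((h I).2 h1)) h2

theorem Codes.not_loop {M : Matroid (Fin n)} {K : Submodule k (Fin n → k)} (h : Codes M K)
    (hs : ∀ e f : Fin n, M.Indep {e, f}) (x : Fin n) : ¬ Cl K x ∅ := by
  rintro ⟨c, hc, h0, h1⟩
  refine (h _).1 (hs x x) ⟨c, hc, fun h => h0 (by simp [h]), fun y hy => ?_⟩
  simpa using h1 y hy

end General

theorem Codes.eq {n : ℕ} {M : Matroid (Fin n)} {K K' : BC (Fin n)} (h : Codes M K)
    (h' : Codes M K') : K = K' :=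
  eq_of_Dep K K' fun S => not_iff_not.1 ((h S).symm.trans (h' S))

theorem Codes.reg {n : ℕ} {M : Matroid (Fin n)} {K : BC (Fin n)} (h : Codes M K)
    (hQ : IsRepOver ℚ M) : Reg K := by
  obtain ⟨L, hL⟩ := (rep_iff M).1 hQ
  have : ∀ S, Dep K S ↔ Dep L S := fun S => not_iff_not.1 ((h S).symm.trans (hL S))
  exact ⟨L, fun x S => by simp only [Cl_iff_Dep, this]⟩

theorem Codes.isConn {n : ℕ} {M : Matroid (Fin n)} {K : BC (Fin n)} (h : Codes M K)
    (hn : 0 < n) (hK : ConnC K) : IsConn M := by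
  refine ⟨hn, fun A hA hA' hsep => ?_⟩
  let K' : BC (Fin n) :=
    { carrier := {c | A.indicator c ∈ K ∧ Aᶜ.indicator c ∈ K}
      add_mem' := by
        rintro a b ⟨h1, h2⟩ ⟨h3, h4⟩
        refine ⟨?_, ?_⟩
        · rw [Set.indicator_add']; exact K.add_mem h1 h3
        · rw [Set.indicator_add']; exact K.add_mem h2 h4
      zero_mem' := by simp
      smul_mem' := by
        rintro t a ⟨h1, h2⟩
        have e : ∀ B : Set (Fin n), B.indicator (t • a) = t • B.indicator a := by
          intro B; ext y; by_cases hy : y ∈ B <;> simp [hy]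
        exact ⟨e A ▸ K.smul_mem t h1, e Aᶜ ▸ K.smul_mem t h2⟩ }
  have hle : ∀ c ∈ K', c ∈ K := by
    rintro c ⟨h1, h2⟩
    simpa using K.add_mem h1 h2
  have hin : ∀ (B : Set (Fin n)) (c : Fin n → ZMod 2), (∀ y, c y ≠ 0 → y ∈ B) →
      B.indicator c = c ∧ Bᶜ.indicator c = 0 := by
    intro B c hc
    constructor <;> ext y <;> by_cases hy : y ∈ B <;> simp [hy]
    all_goals
      by_contra h1
      exact hy (hc y (fun h2 => h1 (by simp [h2])))
  have hKK : K = K' := by
    refine eq_of_Dep K K' fun S => ⟨fun hS => ?_, ?_⟩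
    · have h1 := hsep S
      rw [h, h, h] at h1
      by_cases h2 : Dep K (S ∩ A)
      · obtain ⟨c, hc, h0, h3⟩ := h2
        obtain ⟨h4, h5⟩ := hin A c fun y hy => (h3 y hy).2
        exact ⟨c, ⟨h4.symm ▸ hc, h5.symm ▸ K.zero_mem⟩, h0, fun y hy => (h3 y hy).1⟩
      · obtain ⟨c, hc, h0, h3⟩ : Dep K (S ∩ Aᶜ) := by
          by_contra h3
          exact h1.2 ⟨h2, h3⟩ hS
        obtain ⟨h4, h5⟩ := hin Aᶜ c fun y hy => (h3 y hy).2
        rw [compl_compl] at h5
        exact ⟨c, ⟨h5.symm ▸ K.zero_mem, h4.symm ▸ hc⟩, h0, fun y hy => (h3 y hy).1⟩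
    · rintro ⟨c, hc, h0, h1⟩
      exact ⟨c, hle c hc, h0, h1⟩
  have hS : Sep K A := fun c hc => (show c ∈ K' from hKK ▸ hc).1
  rcases hK A hS with rfl | rfl
  · simp at hA
  · simp at hA'

/-- The binary code of a generator. -/
noncomputable def code {n : ℕ} (M : Gen n) : BC (Fin n) :=
  ((rep_iff M.1).1 (M.2.regular (ZMod 2))).choose

theorem codes_code {n : ℕ} (M : Gen n) : Codes M.1 (code M) :=
  ((rep_iff M.1).1 (M.2.regular (ZMod 2))).choose_spec

theorem mk_eq {n : ℕ} {M M' : Gen n} {K : BC (Fin n)} (h : Codes M'.1 K) (σ : Perm (Fin n))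
    (h' : Codes M.1 (mn K σ ∅)) :
    (Rel n).mkQ (Finsupp.single M 1) = sg σ • (Rel n).mkQ (Finsupp.single M' 1) := by
  rw [← map_smul, ← sub_eq_zero, ← map_sub, Submodule.mkQ_apply, Submodule.Quotient.mk_eq_zero]
  exact Submodule.subset_span ⟨M, M', σ, h.iso' h', rfl⟩

theorem term_odd {n : ℕ} {M : Gen (n + 1)} {K : BC (Fin (n + 1))} (h : Codes M.1 K)
    (x : Fin (n + 1)) (hx : ∃ σ : Perm (Fin n), sg σ = -1 ∧
      mn (mn K x.succAbove ∅) σ ∅ = mn K x.succAbove ∅) : (Rel n).mkQ (term M x) = 0 := by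
  obtain ⟨σ, h1, h2⟩ := hx
  rw [term]
  split_ifs with h3
  · have h4 := mk_eq (M := ⟨del M.1 x, good_del M x h3.2⟩) (M' := ⟨del M.1 x, good_del M x h3.2⟩)
      (h.del x) σ (h2.symm ▸ h.del x)
    rw [h1, neg_one_smul, eq_neg_iff_add_eq_zero, ← two_smul ℚ, smul_eq_zero] at h4
    rw [map_smul, h4.resolve_left (by norm_num), smul_zero]
  · simp

theorem term_iso {n : ℕ} {M : Gen (n + 1)} {K : BC (Fin (n + 1))} (h : Codes M.1 K)
    (x : Fin (n + 1)) (hx : Cl K x Set.univ) (X : Gen n) (σ : Perm (Fin n))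
    (hX : Codes X.1 (mn (mn K x.succAbove ∅) σ ∅)) :
    (Rel n).mkQ (term M x) =
      ((-1) ^ (x : ℕ) * sg σ) • (Rel n).mkQ (Finsupp.single X 1) := by
  have h1 : IsConn (del M.1 x) :=
    isConn_of_iso σ.symm (iso_symm σ ((h.del x).iso' hX)) X.2.conn
  rw [term, dif_pos ⟨(h.not_coloop M.2.ground x).2 hx, h1⟩, map_smul,
    mk_eq (M' := ⟨del M.1 x, good_del M x h1⟩) (h.del x) σ hX, smul_smul, mul_assoc, sg_mul_self,
    mul_one]

end Pool.Agent.Lib.MP_4eafcb_co
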