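import Pool.Agent.Lib.MP_4eafcb_co.Phi
import Pool.Agent.Lib.MP_4eafcb_co.Link

set_option autoImplicit false

namespace Pool.Agent.Lib.MP_4eafcb_co

open Equiv

/-- The coboundary map of a graph, whose range is the cut space. -/
def cutMap (k : Type) [Field k] {n m : ℕ} (u w : Fin n → Fin m) : (Fin m → k) →ₗ[k] (Fin n → k) :=
  LinearMap.funLeft k k u - LinearMap.funLeft k k w

theorem cutMap_apply (k : Type) [Field k] {n m : ℕ} (u w : Fin n → Fin m) (f : Fin m → k)
    (e : Fin n) : cutMap k u w f e = f (u e) - f (w e) := rfl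

theorem Dep_cut (k : Type) [Field k] {n m : ℕ} (u w : Fin n → Fin m) (S : Set (Fin n)) :
    Dep (LinearMap.range (cutMap k u w)) S ↔ ∃ U : Set (Fin m),
      (∃ e, ¬ (u e ∈ U ↔ w e ∈ U)) ∧ ∀ e, ¬ (u e ∈ U ↔ w e ∈ U) → e ∈ S := by
  classical
  constructor
  · rintro ⟨_, ⟨f, rfl⟩, h0, h1⟩
    obtain ⟨e, he⟩ := Function.ne_iff.1 h0
    rw [cutMap_apply, Pi.zero_apply, sub_ne_zero] at he
    refine ⟨{v | f v = f (u e)}, ⟨e, by simpa using he.symm⟩, fun e' h => h1 e' ?_⟩
    rw [cutMap_apply, sub_ne_zero]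
    intro h2
    exact h (by simp [h2])
  · rintro ⟨U, ⟨e, he⟩, h1⟩
    have h2 : ∀ e, cutMap k u w (U.indicator 1) e ≠ 0 ↔ ¬ (u e ∈ U ↔ w e ∈ U) := by
      intro e
      rw [cutMap_apply]
      by_cases h3 : u e ∈ U <;> by_cases h4 : w e ∈ U <;> simp [h3, h4]
    exact ⟨_, ⟨U.indicator 1, rfl⟩, fun h => (h2 e).2 he (by rw [h]; rfl),
      fun y hy => h1 y ((h2 y).1 hy)⟩

theorem cut_eq_sp {n m : ℕ} (u w : Fin n → Fin m) (G : List ℕ)
    (h1 : ∀ v : Fin m, ∃ c ∈ spanL G, ∀ e : Fin n, c.testBit e = xor (u e == v) (w e == v))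
    (h2 : ∀ c ∈ G, ∃ v : Fin m, ∀ e : Fin n, c.testBit e = xor (u e == v) (w e == v)) :
    LinearMap.range (cutMap (ZMod 2) u w) = sp n G := by
  have key : ∀ (v : Fin m) (c : ℕ), (∀ e : Fin n, c.testBit e = xor (u e == v) (w e == v)) →
      cutMap (ZMod 2) u w (Pi.single v 1) = vec n c := by
    intro v c h
    ext e
    rw [cutMap_apply, vec, h]
    by_cases h3 : u e = v <;> by_cases h4 : w e = v <;> simp [h3, h4]
  apply le_antisymm
  · rintro _ ⟨f, rfl⟩
    rw [pi_eq_sum_univ' f, map_sum]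
    refine Submodule.sum_mem _ fun v _ => ?_
    obtain ⟨c, hc, h⟩ := h1 v
    rw [map_smul, key v c h]
    exact Submodule.smul_mem _ _ ((mem_sp n G _).2 ⟨c, hc, rfl⟩)
  · rw [sp, Submodule.span_le]
    rintro _ ⟨c, hc, rfl⟩
    obtain ⟨v, h⟩ := h2 c hc
    exact ⟨_, key v c h⟩

/-- Tails of the listed edges. -/
def eu (E : List (ℕ × ℕ)) (e : Fin 16) : Fin 9 := Fin.ofNat 9 (E.getD e (0, 0)).1

/-- Heads of the listed edges. -/
def ew (E : List (ℕ × ℕ)) (e : Fin 16) : Fin 9 := Fin.ofNat 9 (E.getD e (0, 0)).2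

theorem good_sp (E : List (ℕ × ℕ)) (G cs : List ℕ) (hG : ∀ g ∈ G, g < 2 ^ 16)
    (h1 : ∀ v : Fin 9, ∃ c ∈ spanL G, ∀ e : Fin 16,
      c.testBit e = xor (eu E e == v) (ew E e == v))
    (h2 : ∀ c ∈ G, ∃ v : Fin 9, ∀ e : Fin 16, c.testBit e = xor (eu E e == v) (ew E e == v))
    (h3 : ∀ c ∈ spanL G, c = 0 ∨ 3 ≤ (Finset.univ.filter (fun y : Fin 16 => c.testBit y)).card)
    (h4 : connChk 16 G cs = true) : Good (ofCode (sp 16 G)) := by
  refine ⟨rfl, fun e f => ?_, fun K _ => ?_, (codes_ofCode _).isConn (by norm_num) (connC_sp hG h4)⟩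
  · rw [codes_ofCode]
    rintro ⟨_, hc, h0, h5⟩
    obtain ⟨c, hc', rfl⟩ := (mem_sp 16 G _).1 hc
    rcases h3 c hc' with rfl | h6
    · exact h0 (vec_zero 16)
    · have h7 : Finset.univ.filter (fun y : Fin 16 => c.testBit y) ⊆ {e, f} := by
        intro y hy
        simpa using h5 y (vec_ne_zero.2 (by simpa using hy))
      have h8 := (Finset.card_le_card h7).trans Finset.card_le_two
      omega
  · refine (rep_iff _).2 ⟨LinearMap.range (cutMap K (eu E) (ew E)), fun S => ?_⟩
    rw [codes_ofCode, ← cut_eq_sp _ _ G h1 h2, Dep_cut, Dep_cut]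

/-- The first matroid of the cycle. -/
noncomputable def GA : Gen 16 := ⟨ofCode (sp 16 gA), good_sp eA gA _ (by decide)
  (by decide +kernel) (by decide +kernel) (by decide +kernel) conn_A⟩

/-- The second matroid of the cycle. -/
noncomputable def GB : Gen 16 := ⟨ofCode (sp 16 gB), good_sp eB gB _ (by decide)
  (by decide +kernel) (by decide +kernel) (by decide +kernel) conn_B⟩

/-- The third matroid of the cycle. -/
noncomputable def GC : Gen 16 := ⟨ofCode (sp 16 gC), good_sp eC gC _ (by decide)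
  (by decide +kernel) (by decide +kernel) (by decide +kernel) conn_C⟩

theorem codes_A : Codes GA.1 (sp 16 gA) := codes_ofCode _

theorem codes_B : Codes GB.1 (sp 16 gB) := codes_ofCode _

theorem codes_C : Codes GC.1 (sp 16 gC) := codes_ofCode _

theorem codes_delA (x : Fin 16) {G : List ℕ} (h1 : wf 16 15 (up x (List.range 15)))
    (h2 : img gA (up x (List.range 15)) 0 = bits (spanL G)) : Codes (del GA.1 x) (sp 15 G) := by
  have := mn_eq_sp0 (n := 16) (G := gA) (by decide) h1 h2
  rw [fn_up_range x h1] at this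
  exact this ▸ codes_A.del x

theorem codes_X : Codes (del GA.1 9) (sp 15 gX) := codes_delA 9 (by decide) (by decide +kernel)

theorem codes_Y : Codes (del GA.1 13) (sp 15 gY) := codes_delA 13 (by decide) (by decide +kernel)

/-- The first class on fifteen elements. -/
noncomputable def GX : Gen 15 :=
  ⟨del GA.1 9, good_del GA 9 (codes_X.isConn (by norm_num) (connC_sp (by decide) conn_X))⟩

/-- The second class on fifteen elements. -/
noncomputable def GY : Gen 15 :=
  ⟨del GA.1 13, good_del GA 13 (codes_Y.isConn (by norm_num) (connC_sp (by decide) conn_Y))⟩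

theorem term_cert {M : Gen 16} {G G' l : List ℕ} (h : Codes M.1 (sp 16 G))
    (hG : ∀ g ∈ G, g < 2 ^ 16) (x : Fin 16) (hx : ∃ c ∈ spanL G, c.testBit x = true)
    (X : Gen 15) (hX : Codes X.1 (sp 15 G')) (h1 : wf 15 15 l) (h2 : wf 16 15 (up x l))
    (h3 : img G (up x l) 0 = bits (spanL G')) (h4 : (-1) ^ (x : ℕ) * sgnL l = -1) :
    (Rel 15).mkQ (term M x) = - (Rel 15).mkQ (Finsupp.single X 1) := by
  obtain ⟨c, hc, hcx⟩ := hx
  rw [term_iso h x ⟨_, (mem_sp 16 G _).2 ⟨c, hc, rfl⟩, vec_ne_zero.2 hcx, by simp⟩ X (mkP h1)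
    ((iso_sound hG x h1 h2 h3).symm ▸ hX), sg_mkP]
  have h5 : (-1 : ℚ) ^ (x : ℕ) * (sgnL l : ℚ) = -1 := by exact_mod_cast h4
  rw [h5, neg_one_smul]

theorem bd_single {n : ℕ} (M : Gen (n + 1)) :
    bd n ((Rel (n + 1)).mkQ (Finsupp.single M 1)) = ∑ x, (Rel n).mkQ (term M x) := by
  rw [← map_sum, bd, Submodule.mkQ_apply, Submodule.mapQ_apply, Submodule.mkQ_apply, preBd,
    Finsupp.linearCombination_single, one_smul]

theorem bd_A : bd 15 ((Rel 16).mkQ (Finsupp.single GA 1)) =
    - (Rel 15).mkQ (Finsupp.single GX 1) - (Rel 15).mkQ (Finsupp.single GY 1) := by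
  rw [bd_single, ← Finset.sum_subset (Finset.subset_univ ({9, 13} : Finset (Fin 16))),
    Finset.sum_pair (by decide),
    term_cert (l := pA.getD 9 []) codes_A (by decide) 9 (by decide +kernel) GX codes_X (by decide)
      (by decide) (by decide +kernel) (by decide),
    term_cert (l := pA.getD 13 []) codes_A (by decide) 13 (by decide +kernel) GY codes_Y
      (by decide) (by decide) (by decide +kernel) (by decide), sub_eq_add_neg]
  intro x _ hx
  simp only [Finset.mem_insert, Finset.mem_singleton, not_or] at hx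
  exact term_odd codes_A x (oddOK_sound (by decide) x (pA_ok x hx.1 hx.2))

theorem bd_B : bd 15 ((Rel 16).mkQ (Finsupp.single GB 1)) =
    - (Rel 15).mkQ (Finsupp.single GY 1) - (Rel 15).mkQ (Finsupp.single GY 1) := by
  rw [bd_single, ← Finset.sum_subset (Finset.subset_univ ({11, 12} : Finset (Fin 16))),
    Finset.sum_pair (by decide),
    term_cert (l := pB.getD 11 []) codes_B (by decide) 11 (by decide +kernel) GY codes_Y
      (by decide) (by decide) (by decide +kernel) (by decide),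
    term_cert (l := pB.getD 12 []) codes_B (by decide) 12 (by decide +kernel) GY codes_Y
      (by decide) (by decide) (by decide +kernel) (by decide), sub_eq_add_neg]
  intro x _ hx
  simp only [Finset.mem_insert, Finset.mem_singleton, not_or] at hx
  exact term_odd codes_B x (oddOK_sound (by decide) x (pB_ok x hx.1 hx.2))

theorem bd_C : bd 15 ((Rel 16).mkQ (Finsupp.single GC 1)) =
    - (Rel 15).mkQ (Finsupp.single GX 1) := by
  rw [bd_single, Finset.sum_eq_single 5,
    term_cert (l := pC.getD 5 []) codes_C (by decide) 5 (by decide +kernel) GX codes_X (by decide)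
      (by decide) (by decide +kernel) (by decide)]
  · intro x _ hx
    exact term_odd codes_C x (oddOK_sound (by decide) x (pC_ok x hx))
  · simp

/-- The cocycle on representatives. -/
noncomputable def prePhi : (Gen 16 →₀ ℚ) →ₗ[ℚ] ℚ :=
  Finsupp.linearCombination ℚ (fun M => Alt g0 (code M))

theorem prePhi_single {M : Gen 16} {K : BC (Fin 16)} (h : Codes M.1 K) :
    prePhi (Finsupp.single M 1) = Alt g0 K := by
  simp [prePhi, (codes_code M).eq h]

theorem rel_le_ker : Rel 16 ≤ LinearMap.ker prePhi := by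
  rw [Rel, Submodule.span_le]
  rintro _ ⟨M, M', σ, h, rfl⟩
  rw [SetLike.mem_coe, LinearMap.mem_ker, map_sub, map_smul, prePhi_single (codes_code M'),
    prePhi_single ((codes_code M').iso h), Alt_perm, smul_eq_mul, sg, sub_self]

/-- The cocycle. -/
noncomputable def Phi : Chain 16 →ₗ[ℚ] ℚ := (Rel 16).liftQ prePhi rel_le_ker

theorem Phi_mk (w : Gen 16 →₀ ℚ) : Phi ((Rel 16).mkQ w) = prePhi w := rfl

theorem Phi_bd_single (M : Gen 17) : Phi (bd 16 ((Rel 17).mkQ (Finsupp.single M 1))) = 0 := by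
  have h := codes_code M
  have hl := h.not_loop M.2.simple
  rw [bd_single, map_sum, ← cob_g0 (code M) (h.reg (M.2.regular ℚ)) hl, cob_eq_sum]
  refine Finset.sum_congr rfl fun x _ => ?_
  rw [Phi_mk, term]
  by_cases h1 : Cl (code M) x Set.univ
  · rw [if_pos ⟨h1, hl x⟩]
    split_ifs with h2
    · rw [map_smul, prePhi_single (h.del x), smul_eq_mul]
    · rw [Alt_disc _ fun h3 => h2 ⟨(h.not_coloop M.2.ground x).2 h1,
        (h.del x).isConn (by norm_num) h3⟩]
      simp
  · rw [if_neg (fun h2 => h1 h2.1), dif_neg (fun h2 => h1 ((h.not_coloop M.2.ground x).1 h2.1))]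
    simp

theorem Phi_bd (y : Chain 17) : Phi (bd 16 y) = 0 := by
  obtain ⟨w, rfl⟩ := (Rel 17).mkQ_surjective y
  induction w using Finsupp.induction_linear with
  | zero => simp
  | add f g hf hg => rw [map_add, map_add, map_add, hf, hg, add_zero]
  | single M t =>
    rw [← mul_one t, ← smul_eq_mul, ← Finsupp.smul_single, map_smul, map_smul, map_smul,
      Phi_bd_single, smul_zero]

theorem wheelSpan_16 : wheelSpan 16 = ⊥ := by
  rw [wheelSpan, Submodule.span_eq_bot]
  rintro _ ⟨M, h | ⟨k, -, e, -⟩, rfl⟩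
  · exact absurd h.1 (by norm_num)
  · have := Fintype.card_congr e
    simp only [Fintype.card_fin, Fintype.card_sum, ZMod.card] at this
    omega

theorem main : ∃ z : Chain 16, bd 15 z = 0 ∧ z ∉ LinearMap.range (bd 16) ⊔ wheelSpan 16 := by
  refine ⟨(2 : ℚ) • (Rel 16).mkQ (Finsupp.single GA 1) - (Rel 16).mkQ (Finsupp.single GB 1) -
    (2 : ℚ) • (Rel 16).mkQ (Finsupp.single GC 1), ?_, ?_⟩
  · rw [map_sub, map_sub, map_smul, map_smul, bd_A, bd_B, bd_C]
    module
  · rw [wheelSpan_16, sup_bot_eq]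
    rintro ⟨y, hy⟩
    have h := Phi_bd y
    rw [hy, map_sub, map_sub, map_smul, map_smul, Phi_mk, Phi_mk, Phi_mk, prePhi_single codes_A,
      prePhi_single codes_B, prePhi_single codes_C, Alt_A, Alt_B, smul_eq_mul, smul_eq_mul] at h
    have := Alt_C
    linarith

end Pool.Agent.Lib.MP_4eafcb_co
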