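import Pool.Agent.Lib.MP_4eafcb_co.Data

set_option autoImplicit false

namespace Pool.Agent.Lib.MP_4eafcb_co.Odd

/-- Edge lists of five cubic graphs on ten vertices. -/
def eM : List (List (ℕ × ℕ)) :=
  [[(0, 1), (0, 2), (0, 3), (1, 4), (1, 5), (2, 4), (4, 8), (2, 6), (3, 5), (5, 9), (3, 7), (6, 7), (6, 9), (7, 8), (8, 9)],
   [(0, 1), (0, 2), (0, 3), (1, 2), (1, 4), (2, 5), (3, 6), (3, 7), (4, 6), (4, 8), (5, 7), (5, 9), (6, 9), (7, 8), (8, 9)],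
   [(0, 1), (0, 2), (0, 3), (1, 2), (1, 4), (2, 5), (3, 6), (3, 7), (4, 6), (4, 8), (5, 7), (5, 9), (6, 8), (7, 9), (8, 9)],
   [(0, 1), (0, 2), (0, 3), (1, 2), (1, 4), (2, 5), (3, 6), (3, 7), (4, 6), (4, 7), (5, 8), (5, 9), (6, 8), (7, 9), (8, 9)],
   [(0, 1), (0, 2), (0, 3), (1, 2), (1, 4), (2, 5), (3, 6), (3, 7), (4, 6), (4, 8), (5, 7), (5, 8), (6, 9), (7, 9), (8, 9)]]

/-- Their vertex stars. -/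
def gM : List (List ℕ) :=
  [[7, 25, 104, 162, 784, 1284, 6272, 11264, 24640],
   [7, 25, 42, 196, 784, 3104, 4416, 9344, 25088],
   [7, 25, 42, 196, 784, 3104, 4416, 9344, 20992],
   [7, 25, 42, 196, 784, 3104, 4416, 8832, 21504],
   [7, 25, 42, 196, 784, 3104, 4416, 9344, 18944]]

/-- Chains of bonds. -/
def cM : List (List ℕ) :=
  [[19021, 12698, 13346],
   [21705, 14628, 19091],
   [13837, 10387, 17216, 3104],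
   [25801, 23299, 19056, 196],
   [25001, 7747, 4756]]

/-- Edge lists of eight contractions. -/
def eR : List (List (ℕ × ℕ)) :=
  [[(0, 1), (0, 2), (1, 2), (1, 4), (2, 5), (0, 6), (0, 7), (4, 6), (4, 8), (5, 7), (5, 9), (6, 9), (7, 8), (8, 9)],
   [(0, 1), (0, 2), (0, 3), (1, 2), (2, 5), (3, 6), (3, 7), (1, 6), (1, 8), (5, 7), (5, 9), (6, 9), (7, 8), (8, 9)],
   [(0, 1), (0, 2), (0, 3), (1, 2), (1, 4), (2, 5), (3, 4), (3, 7), (4, 8), (5, 7), (5, 9), (4, 9), (7, 8), (8, 9)],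
   [(0, 1), (0, 2), (0, 3), (1, 2), (1, 4), (2, 5), (3, 6), (3, 7), (4, 6), (4, 8), (5, 7), (5, 6), (7, 8), (8, 6)],
   [(0, 1), (0, 2), (0, 3), (1, 2), (1, 4), (2, 5), (3, 6), (3, 7), (4, 6), (4, 8), (5, 7), (5, 8), (6, 8), (7, 8)],
   [(0, 1), (0, 2), (1, 2), (1, 4), (2, 5), (0, 6), (0, 7), (4, 6), (4, 8), (5, 7), (5, 9), (6, 8), (7, 9), (8, 9)],
   [(0, 1), (0, 2), (0, 3), (1, 2), (1, 4), (3, 6), (3, 7), (4, 6), (4, 7), (2, 8), (2, 9), (6, 8), (7, 9), (8, 9)],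
   [(0, 1), (0, 2), (0, 3), (1, 4), (1, 5), (2, 4), (4, 8), (2, 6), (3, 5), (5, 9), (3, 6), (6, 9), (6, 8), (8, 9)]]

/-- Their vertex stars. -/
def gR : List (List ℕ) :=
  [[99, 13, 22, 392, 1552, 2208, 4672, 12544],
   [7, 393, 26, 100, 1552, 2208, 4672, 12544],
   [7, 25, 42, 196, 2384, 1568, 4736, 12544],
   [7, 25, 42, 196, 784, 3104, 10560, 5248],
   [7, 25, 42, 196, 784, 3104, 4416, 9344],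
   [99, 13, 22, 392, 1552, 2208, 4672, 10496],
   [7, 25, 1546, 100, 400, 2208, 4416, 10752],
   [7, 25, 162, 1284, 104, 784, 7296, 12352]]

/-- Chains of bonds. -/
def cR : List (List ℕ) :=
  [[10853, 5571, 9432],
   [10857, 7316, 9546],
   [10953, 5220, 9619],
   [9833, 6291, 10628],
   [13837, 10387, 992],
   [11907, 117, 6923],
   [12905, 11651, 4276],
   [11441, 6478, 784]]

/-- Certificates for the deletions. -/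
def p0 : List (ℕ × List ℕ) :=
  [(6, [4, 0, 6, 2, 5, 10, 11, 12, 13, 1, 3, 9, 8, 7]),
   (1, [0, 2, 3, 4, 5, 7, 8, 1, 6, 13, 12, 9, 11, 10]),
   (1, [0, 3, 2, 7, 8, 4, 5, 1, 9, 13, 11, 6, 12, 10]),
   (1, [0, 1, 2, 4, 6, 7, 9, 3, 5, 10, 11, 8, 12, 13]),
   (1, [0, 2, 1, 7, 9, 4, 6, 3, 8, 10, 12, 5, 11, 13]),
   (8, [0, 1, 2, 3, 4, 6, 5, 7, 8, 9, 12, 13, 10, 11]),
   (8, [4, 8, 7, 3, 0, 13, 11, 2, 1, 9, 10, 6, 12, 5]),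
   (8, [2, 1, 0, 9, 7, 10, 12, 4, 8, 3, 5, 11, 6, 13]),
   (8, [0, 1, 2, 3, 4, 5, 6, 7, 9, 8, 11, 10, 13, 12]),
   (8, [3, 5, 6, 0, 4, 1, 2, 7, 13, 12, 10, 11, 9, 8]),
   (8, [1, 0, 2, 5, 7, 3, 6, 4, 10, 11, 8, 9, 12, 13]),
   (7, [0, 1, 2, 3, 4, 5, 6, 7, 8, 9, 10, 11, 12, 13]),
   (0, [11, 13, 12, 10, 6, 9, 7, 8, 2, 5, 3, 4, 1, 0]),
   (0, [11, 13, 12, 7, 9, 6, 10, 5, 1, 8, 4, 3, 2, 0]),
   (7, [0, 3, 4, 1, 2, 5, 7, 6, 8, 10, 9, 13, 12, 11])]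

/-- Certificates for the deletions. -/
def p1 : List (ℕ × List ℕ) :=
  [(8, [2, 1, 0, 3, 4, 5, 6, 7, 8, 9, 10, 11, 12, 13]),
   (8, [2, 1, 0, 3, 4, 5, 6, 7, 8, 9, 10, 11, 12, 13]),
   (0, [0, 1, 2, 3, 4, 5, 6, 7, 8, 9, 10, 11, 12, 13]),
   (8, [1, 0, 2, 3, 4, 5, 6, 7, 8, 9, 10, 11, 12, 13]),
   (1, [0, 1, 2, 3, 4, 5, 6, 7, 8, 9, 10, 11, 12, 13]),
   (1, [1, 0, 2, 3, 4, 6, 5, 9, 10, 7, 8, 12, 11, 13]),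
   (8, [0, 1, 2, 3, 4, 5, 11, 7, 8, 10, 9, 6, 13, 12]),
   (8, [0, 1, 2, 3, 4, 5, 12, 8, 7, 9, 10, 13, 6, 11]),
   (2, [0, 1, 2, 3, 4, 5, 6, 7, 8, 9, 10, 11, 12, 13]),
   (8, [3, 1, 5, 0, 4, 2, 10, 9, 13, 7, 6, 11, 12, 8]),
   (2, [1, 0, 2, 3, 5, 4, 7, 6, 10, 8, 9, 12, 11, 13]),
   (8, [0, 3, 4, 1, 2, 5, 8, 9, 6, 7, 13, 11, 12, 10]),
   (3, [0, 1, 2, 3, 4, 5, 6, 7, 8, 9, 10, 11, 12, 13]),
   (3, [1, 0, 2, 3, 5, 4, 7, 6, 10, 11, 8, 9, 12, 13]),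
   (4, [0, 1, 2, 3, 4, 5, 6, 7, 8, 9, 10, 11, 12, 13])]

/-- Certificates for the deletions. -/
def p2 : List (ℕ × List ℕ) :=
  [(8, [2, 1, 0, 3, 4, 5, 6, 7, 8, 9, 10, 11, 12, 13]),
   (8, [2, 1, 0, 3, 4, 5, 6, 7, 8, 9, 10, 11, 12, 13]),
   (5, [0, 1, 2, 3, 4, 5, 6, 7, 8, 9, 10, 11, 12, 13]),
   (8, [1, 0, 2, 3, 4, 5, 6, 7, 8, 9, 10, 11, 12, 13]),
   (4, [9, 12, 6, 10, 4, 13, 2, 5, 1, 3, 11, 8, 0, 7]),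
   (4, [7, 11, 5, 8, 4, 13, 2, 6, 0, 3, 12, 10, 1, 9]),
   (5, [7, 11, 8, 4, 13, 2, 6, 0, 3, 12, 10, 1, 9, 5]),
   (5, [9, 12, 10, 5, 13, 2, 6, 1, 3, 11, 8, 0, 7, 4]),
   (8, [0, 1, 2, 3, 4, 5, 6, 7, 11, 9, 10, 8, 12, 13]),
   (8, [0, 1, 2, 3, 4, 5, 6, 7, 11, 9, 10, 8, 12, 13]),
   (8, [0, 1, 2, 3, 4, 5, 6, 7, 8, 9, 12, 11, 10, 13]),
   (8, [0, 1, 2, 3, 4, 5, 6, 7, 8, 9, 12, 11, 10, 13]),
   (8, [0, 1, 2, 3, 4, 5, 6, 7, 9, 8, 10, 11, 12, 13]),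
   (8, [0, 1, 2, 3, 4, 5, 6, 7, 8, 9, 11, 10, 12, 13]),
   (4, [0, 1, 2, 3, 4, 5, 6, 7, 8, 9, 10, 11, 12, 13])]

/-- Certificates for the deletions. -/
def p3 : List (ℕ × List ℕ) :=
  [(8, [2, 1, 0, 3, 4, 5, 6, 7, 8, 9, 10, 11, 12, 13]),
   (8, [2, 1, 0, 3, 4, 5, 6, 7, 8, 9, 10, 11, 12, 13]),
   (3, [9, 13, 11, 10, 4, 12, 5, 7, 1, 2, 8, 6, 3, 0]),
   (8, [1, 0, 2, 3, 4, 5, 6, 7, 8, 9, 10, 11, 12, 13]),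
   (3, [9, 13, 11, 10, 4, 12, 7, 5, 3, 1, 6, 8, 2, 0]),
   (6, [0, 1, 2, 3, 4, 5, 6, 7, 8, 9, 10, 11, 12, 13]),
   (5, [7, 6, 8, 4, 12, 2, 11, 0, 3, 13, 10, 1, 9, 5]),
   (5, [8, 6, 7, 4, 11, 2, 12, 0, 3, 13, 9, 1, 10, 5]),
   (5, [6, 8, 7, 2, 12, 4, 11, 0, 1, 13, 10, 3, 9, 5]),
   (5, [7, 8, 6, 2, 11, 4, 12, 0, 1, 13, 9, 3, 10, 5]),
   (8, [0, 1, 2, 3, 4, 5, 6, 7, 8, 9, 13, 11, 12, 10]),
   (8, [0, 1, 2, 3, 4, 5, 6, 7, 8, 9, 13, 11, 12, 10]),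
   (3, [1, 0, 2, 3, 5, 4, 6, 7, 10, 11, 9, 8, 12, 13]),
   (3, [1, 0, 2, 3, 5, 4, 7, 6, 11, 10, 8, 9, 12, 13]),
   (8, [0, 1, 2, 3, 4, 5, 6, 7, 8, 9, 11, 10, 12, 13])]

/-- Certificates for the deletions. -/
def p4 : List (ℕ × List ℕ) :=
  [(8, [2, 1, 0, 3, 4, 5, 6, 7, 8, 9, 10, 11, 12, 13]),
   (8, [2, 1, 0, 3, 4, 5, 6, 7, 8, 9, 10, 11, 12, 13]),
   (7, [13, 11, 12, 8, 10, 7, 3, 5, 9, 4, 6, 1, 0, 2]),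
   (8, [1, 0, 2, 3, 4, 5, 6, 7, 8, 9, 10, 11, 12, 13]),
   (7, [12, 11, 13, 6, 9, 5, 2, 7, 10, 4, 8, 3, 0, 1]),
   (7, [11, 12, 13, 5, 7, 6, 2, 9, 8, 4, 10, 3, 1, 0]),
   (2, [0, 3, 4, 1, 2, 5, 7, 8, 11, 10, 9, 6, 13, 12]),
   (2, [1, 3, 5, 0, 2, 4, 9, 10, 12, 8, 7, 6, 13, 11]),
   (2, [0, 1, 2, 3, 4, 5, 6, 7, 11, 9, 10, 8, 12, 13]),
   (2, [3, 1, 5, 0, 4, 2, 10, 9, 13, 7, 6, 8, 12, 11]),
   (2, [1, 0, 2, 3, 5, 4, 7, 6, 12, 8, 9, 10, 11, 13]),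
   (2, [3, 0, 4, 1, 5, 2, 9, 8, 13, 6, 7, 10, 11, 12]),
   (4, [1, 3, 5, 0, 2, 4, 10, 11, 7, 6, 9, 8, 12, 13]),
   (4, [0, 3, 4, 1, 2, 5, 8, 9, 6, 7, 11, 10, 12, 13]),
   (4, [0, 1, 2, 3, 4, 5, 6, 7, 8, 9, 10, 11, 12, 13])]

/-- All certificates for the deletions. -/
def pM : List (List (ℕ × List ℕ)) := [p0, p1, p2, p3, p4]

/-- The coefficients of the cycle. -/
def co : List ℤ := [3, 6, -4, 3, 2]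

/-- Certificates for the extensions. -/
def tE0 : List (ℕ × ℕ × List ℕ × ℕ) :=
  [(1, 0, [1, 0, 2, 3, 4, 5, 6, 7, 8, 9, 10, 11, 12, 13, 14, 15], 0),
   (2, 0, [2, 1, 0, 3, 4, 5, 6, 7, 8, 9, 10, 11, 12, 13, 14, 15], 0),
   (4, 0, [3, 1, 2, 0, 4, 5, 6, 7, 8, 9, 10, 11, 12, 13, 14, 15], 0),
   (8, 0, [4, 1, 2, 3, 0, 5, 6, 7, 8, 9, 10, 11, 12, 13, 14, 15], 0),
   (16, 0, [5, 1, 2, 3, 4, 0, 6, 7, 8, 9, 10, 11, 12, 13, 14, 15], 0),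
   (32, 0, [6, 1, 2, 3, 4, 5, 0, 7, 8, 9, 10, 11, 12, 13, 14, 15], 0),
   (64, 0, [7, 1, 2, 3, 4, 5, 6, 0, 8, 9, 10, 11, 12, 13, 14, 15], 0),
   (128, 0, [8, 1, 2, 3, 4, 5, 6, 7, 0, 9, 10, 11, 12, 13, 14, 15], 0),
   (256, 0, [9, 1, 2, 3, 4, 5, 6, 7, 8, 0, 10, 11, 12, 13, 14, 15], 0)]

/-- Certificates for the extensions. -/
def tE1 : List (ℕ × ℕ × List ℕ × ℕ) :=
  [(512, 0, [10, 1, 2, 3, 4, 5, 6, 7, 8, 9, 0, 11, 12, 13, 14, 15], 0),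
   (1024, 0, [11, 1, 2, 3, 4, 5, 6, 7, 8, 9, 10, 0, 12, 13, 14, 15], 0),
   (2048, 0, [12, 1, 2, 3, 4, 5, 6, 7, 8, 9, 10, 11, 0, 13, 14, 15], 0),
   (4096, 0, [13, 1, 2, 3, 4, 5, 6, 7, 8, 9, 10, 11, 12, 0, 14, 15], 0),
   (8192, 0, [14, 1, 2, 3, 4, 5, 6, 7, 8, 9, 10, 11, 12, 13, 0, 15], 0),
   (16384, 0, [15, 1, 2, 3, 4, 5, 6, 7, 8, 9, 10, 11, 12, 13, 14, 0], 0),
   (10, 2, [0, 2, 9, 4, 15, 11, 10], 4162),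
   (12, 2, [0, 2, 9, 4, 15, 11, 10], 4162),
   (33, 2, [0, 1, 12, 6, 15, 14, 13], 532)]

/-- Certificates for the extensions. -/
def tE2 : List (ℕ × ℕ × List ℕ × ℕ) :=
  [(36, 2, [0, 1, 12, 6, 15, 14, 13], 532),
   (48, 2, [0, 1, 12, 6, 15, 14, 13], 532),
   (66, 2, [0, 2, 9, 4, 15, 11, 10], 4162),
   (68, 2, [0, 2, 9, 4, 15, 11, 10], 4162),
   (257, 2, [0, 1, 12, 9, 15, 13, 14], 104),
   (258, 2, [0, 1, 12, 9, 15, 13, 14], 104),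
   (264, 2, [0, 1, 4, 10, 9, 5, 11], 4164),
   (288, 2, [0, 6, 12, 9, 15, 13, 14], 22),
   (320, 2, [0, 6, 12, 9, 15, 13, 14], 22)]

/-- Certificates for the extensions. -/
def tE3 : List (ℕ × ℕ × List ℕ × ℕ) :=
  [(384, 2, [0, 6, 12, 9, 15, 13, 14], 22),
   (514, 2, [0, 2, 4, 10, 11, 8, 9], 4226),
   (516, 2, [0, 2, 4, 10, 11, 8, 9], 4226),
   (544, 2, [0, 6, 12, 9, 15, 13, 14], 22),
   (576, 2, [0, 6, 12, 9, 15, 13, 14], 22),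
   (640, 2, [0, 6, 12, 9, 15, 13, 14], 22),
   (1056, 2, [0, 6, 12, 9, 15, 13, 14], 22),
   (2049, 2, [0, 1, 9, 12, 14, 11, 15], 100),
   (2050, 2, [0, 2, 9, 12, 14, 11, 15], 274)]

/-- Certificates for the extensions. -/
def tE4 : List (ℕ × ℕ × List ℕ × ℕ) :=
  [(2052, 2, [0, 2, 9, 12, 14, 11, 15], 274),
   (2056, 2, [0, 4, 9, 12, 15, 10, 14], 70),
   (2064, 2, [0, 4, 9, 12, 15, 10, 14], 70),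
   (2080, 2, [0, 2, 9, 12, 14, 11, 15], 274),
   (2112, 2, [0, 4, 9, 12, 15, 10, 14], 70),
   (2304, 2, [0, 2, 9, 14, 12, 11, 13], 82),
   (2560, 2, [0, 4, 9, 14, 13, 10, 12], 134),
   (4097, 2, [0, 1, 9, 12, 14, 11, 15], 100),
   (4100, 2, [0, 2, 9, 12, 14, 11, 15], 274)]

/-- Certificates for the extensions. -/
def tE5 : List (ℕ × ℕ × List ℕ × ℕ) :=
  [(4104, 2, [0, 4, 9, 12, 15, 10, 14], 70),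
   (4112, 2, [0, 4, 9, 12, 15, 10, 14], 70),
   (4160, 2, [0, 4, 9, 12, 15, 10, 14], 70),
   (4352, 2, [0, 4, 9, 14, 13, 10, 12], 134),
   (5120, 2, [0, 4, 9, 14, 13, 10, 12], 134),
   (8193, 2, [0, 1, 9, 14, 12, 11, 13], 164),
   (8194, 2, [0, 2, 9, 14, 12, 11, 13], 82),
   (8200, 2, [0, 4, 9, 14, 13, 10, 12], 134),
   (8208, 2, [0, 4, 9, 14, 13, 10, 12], 134)]

/-- Certificates for the extensions. -/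
def tE6 : List (ℕ × ℕ × List ℕ × ℕ) :=
  [(8224, 2, [0, 4, 9, 14, 13, 10, 12], 134),
   (16385, 2, [0, 1, 9, 14, 12, 11, 13], 164),
   (16386, 2, [0, 2, 9, 14, 12, 11, 13], 82),
   (16388, 2, [0, 2, 9, 14, 12, 11, 13], 82),
   (322, 2, [0, 6, 12, 9, 15, 13, 14], 22),
   (2060, 2, [0, 4, 9, 12, 15, 10, 14], 70),
   (2096, 2, [0, 4, 9, 12, 15, 10, 14], 70),
   (2312, 2, [0, 4, 9, 14, 13, 10, 12], 134),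
   (2336, 2, [0, 4, 9, 14, 13, 10, 12], 134)]

/-- All certificates for the extensions. -/
def tE : List (ℕ × ℕ × List ℕ × ℕ) := tE0 ++ tE1 ++ tE2 ++ tE3 ++ tE4 ++ tE5 ++ tE6

/-- The stars of the triangle-free graph. -/
def gZ : List ℕ := [7, 25, 104, 162, 784, 1284, 6272, 11264, 24640]

end Pool.Agent.Lib.MP_4eafcb_co.Odd
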