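import Pool.Agent.Lib.MP_4eafcb_co.OData

set_option autoImplicit false

namespace Pool.Agent.Lib.MP_4eafcb_co.Odd

/-- The bit set of the union of the listed cosets. -/
def cov (G : List ℕ) (T : List (ℕ × ℕ × List ℕ × ℕ)) : ℕ :=
  T.foldr (fun c acc => Nat.lor (bits ((spanL G).map (fun m => Nat.xor m c.1))) acc)
    (bits (spanL G))

theorem testBit_cov (G : List ℕ) (t : ℕ) : ∀ T : List (ℕ × ℕ × List ℕ × ℕ),
    (cov G T).testBit t = true → ((bits (spanL G)).testBit t ||
      T.any fun c => (bits (spanL G)).testBit (Nat.xor t c.1)) = true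
  | [], h => by simpa [cov] using h
  | c :: T, h => by
    have h1 : cov G (c :: T) = bits ((spanL G).map (fun m => Nat.xor m c.1)) ||| cov G T := rfl
    rw [h1, Nat.testBit_or, Bool.or_eq_true, testBit_bits, List.mem_map] at h
    rw [List.any_cons, Bool.or_left_comm, Bool.or_eq_true]
    rcases h with ⟨m, hm, rfl⟩ | h
    · have h2 : Nat.xor (Nat.xor m c.1) c.1 = m := Nat.xor_xor_cancel_right m c.1
      exact Or.inl (by rw [h2, testBit_bits]; exact hm)
    · exact Or.inr (testBit_cov G t T h)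

theorem repsOK_of_cov {q : ℕ} {G : List ℕ} {T : List (ℕ × ℕ × List ℕ × ℕ)}
    (h : cov G T = 2 ^ 2 ^ q - 1) : repsOK q G T = true :=
  List.all_eq_true.2 fun t ht => testBit_cov G t T (by
    rw [h, Nat.testBit_two_pow_sub_one]
    simpa using ht)

theorem tE_reps : repsOK 15 gZ tE = true := repsOK_of_cov (by decide +kernel)

theorem tE_ok : ∀ c ∈ tE, certOK 16 gZ [] c := by
  simp only [tE, List.forall_mem_append]
  refine ⟨⟨⟨⟨⟨⟨?_, ?_⟩, ?_⟩, ?_⟩, ?_⟩, ?_⟩, ?_⟩ <;> decide +kernel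

end Pool.Agent.Lib.MP_4eafcb_co.Odd
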