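import Pool.Agent.Lib.MP_4eafcb_co.OData

set_option autoImplicit false

namespace Pool.Agent.Lib.MP_4eafcb_co.Odd

theorem srch_aut : srch 15 (okR (bits (spanL gZ)) gZ) (fun a => sgnL a == 1) 15 [] = true := by
  refine srch_split fun x hx => ?_
  interval_cases x <;> decide +kernel

theorem srch_tri : srch 15 (okR (bits (spanL gZ)) [7, 25, 42]) (fun _ => false) 15 [] = true := by
  refine srch_split fun x hx => ?_
  interval_cases x <;> decide +kernel

end Pool.Agent.Lib.MP_4eafcb_co.Odd
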