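import Pool.Agent.Lib.MP_4eafcb_co.Cocycle
import Pool.Agent.Lib.MP_4eafcb_co.Link
import Pool.Agent.Lib.MP_4eafcb_co.OExt
import Pool.Agent.Lib.MP_4eafcb_co.OSearch

set_option autoImplicit false

namespace Pool.Agent.Lib.MP_4eafcb_co.Odd

open Equiv

/-- The coboundary map of a graph, whose range is the cut space. -/
def cutMap (k : Type) [Field k] {n m : ℕ} (u w : Fin n → Fin m) : (Fin m → k) →ₗ[k] (Fin n → k) :=
  LinearMap.funLeft k k u - LinearMap.funLeft k k w

theorem cutMap_apply (k : Type) [Field k] {n m : ℕ} (u w : Fin n → Fin m) (f : Fin m → k)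
    (e : Fin n) : cutMap k u w f e = f (u e) - f (w e) := rfl

theorem Dep_cut (k : Type) [Field k] {n m : ℕ} (u w : Fin n → Fin m) (S : Set (Fin n)) :
    Dep (LinearMap.range (cutMap k u w)) S ↔ ∃ U : Set (Fin m),
      (∃ e, ¬ (u e ∈ U ↔ w e ∈ U)) ∧ ∀ e, ¬ (u e ∈ U ↔ w e ∈ U) → e ∈ S := by
  classical
  constructor
  · rintro ⟨_, ⟨f, rfl⟩, h0, h1⟩
    obtain ⟨e, he⟩ := Function.ne_iff.1 h0
    rw [cutMap_apply, Pi.zero_apply, sub_ne_zero] at he
    refine ⟨{v | f v = f (u e)}, ⟨e, by simpa using he.symm⟩, fun e' h => h1 e' ?_⟩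
    rw [cutMap_apply, sub_ne_zero]
    intro h2
    exact h (by simp [h2])
  · rintro ⟨U, ⟨e, he⟩, h1⟩
    have h2 : ∀ e, cutMap k u w (U.indicator 1) e ≠ 0 ↔ ¬ (u e ∈ U ↔ w e ∈ U) := by
      intro e
      rw [cutMap_apply]
      by_cases h3 : u e ∈ U <;> by_cases h4 : w e ∈ U <;> simp [h3, h4]
    exact ⟨_, ⟨U.indicator 1, rfl⟩, fun h => (h2 e).2 he (by rw [h]; rfl),
      fun y hy => h1 y ((h2 y).1 hy)⟩

theorem cut_eq_sp {n m : ℕ} (u w : Fin n → Fin m) (G : List ℕ)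
    (h1 : ∀ v : Fin m, ∃ c ∈ spanL G, ∀ e : Fin n, c.testBit e = xor (u e == v) (w e == v))
    (h2 : ∀ c ∈ G, ∃ v : Fin m, ∀ e : Fin n, c.testBit e = xor (u e == v) (w e == v)) :
    LinearMap.range (cutMap (ZMod 2) u w) = sp n G := by
  have key : ∀ (v : Fin m) (c : ℕ), (∀ e : Fin n, c.testBit e = xor (u e == v) (w e == v)) →
      cutMap (ZMod 2) u w (Pi.single v 1) = vec n c := by
    intro v c h
    ext e
    rw [cutMap_apply, vec, h]
    by_cases h3 : u e = v <;> by_cases h4 : w e = v <;> simp [h3, h4]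
  apply le_antisymm
  · rintro _ ⟨f, rfl⟩
    rw [pi_eq_sum_univ' f, map_sum]
    refine Submodule.sum_mem _ fun v _ => ?_
    obtain ⟨c, hc, h⟩ := h1 v
    rw [map_smul, key v c h]
    exact Submodule.smul_mem _ _ ((mem_sp n G _).2 ⟨c, hc, rfl⟩)
  · rw [sp, Submodule.span_le]
    rintro _ ⟨c, hc, rfl⟩
    obtain ⟨v, h⟩ := h2 c hc
    exact ⟨_, key v c h⟩

theorem bd_single {n : ℕ} (M : Gen (n + 1)) :
    bd n ((Rel (n + 1)).mkQ (Finsupp.single M 1)) = ∑ x, (Rel n).mkQ (term M x) := by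
  rw [← map_sum, bd, Submodule.mkQ_apply, Submodule.mapQ_apply, Submodule.mkQ_apply, preBd,
    Finsupp.linearCombination_single, one_smul]

theorem ind_ne_zero {n : ℕ} {G : List ℕ} {L : BC (Fin n)} (h : ind G L ≠ 0) : L = sp n G := by
  by_contra h1
  exact h (if_neg h1)

/-- Tails of the listed edges. -/
def fu {n : ℕ} (E : List (ℕ × ℕ)) (e : Fin n) : Fin 10 := Fin.ofNat 10 (E.getD e (0, 0)).1

/-- Heads of the listed edges. -/
def fw {n : ℕ} (E : List (ℕ × ℕ)) (e : Fin n) : Fin 10 := Fin.ofNat 10 (E.getD e (0, 0)).2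

/-- The masks `G` span the cut space of the graph `E`, and its bond matroid is simple and
connected. -/
def gOK (n : ℕ) (E : List (ℕ × ℕ)) (G cs : List ℕ) : Prop :=
  (∀ g ∈ G, g < 2 ^ n) ∧
  (∀ v : Fin 10, ∃ c ∈ spanL G, ∀ e : Fin n, c.testBit e = xor (fu E e == v) (fw E e == v)) ∧
  (∀ c ∈ G, ∃ v : Fin 10, ∀ e : Fin n, c.testBit e = xor (fu E e == v) (fw E e == v)) ∧
  (∀ c ∈ spanL G, c = 0 ∨ 3 ≤ (Finset.univ.filter (fun y : Fin n => c.testBit y)).card) ∧
  connChk n G cs = true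

instance (n : ℕ) (E : List (ℕ × ℕ)) (G cs : List ℕ) : Decidable (gOK n E G cs) := by
  unfold gOK; infer_instance

theorem good_gen {n : ℕ} [NeZero n] {E : List (ℕ × ℕ)} {G cs : List ℕ} (h : gOK n E G cs) :
    Good (ofCode (sp n G)) := by
  obtain ⟨hG, h1, h2, h3, h4⟩ := h
  refine ⟨rfl, fun e f => ?_, fun K _ => ?_,
    (codes_ofCode _).isConn (NeZero.pos n) (connC_sp hG h4)⟩
  · rw [codes_ofCode]
    rintro ⟨_, hc, h0, h5⟩
    obtain ⟨c, hc', rfl⟩ := (mem_sp n G _).1 hc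
    rcases h3 c hc' with rfl | h6
    · exact h0 (vec_zero n)
    · have h7 : Finset.univ.filter (fun y : Fin n => c.testBit y) ⊆ {e, f} := by
        intro y hy
        simpa using h5 y (vec_ne_zero.2 (by simpa using hy))
      have h8 := (Finset.card_le_card h7).trans Finset.card_le_two
      omega
  · refine (rep_iff _).2 ⟨LinearMap.range (cutMap K (fu E) (fw E)), fun S => ?_⟩
    rw [codes_ofCode, ← cut_eq_sp _ _ G h1 h2, Dep_cut, Dep_cut]

theorem M_ok : ∀ k : Fin 5, gOK 15 (eM.getD k []) (gM.getD k []) (cM.getD k []) := by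
  decide +kernel

theorem X_ok : ∀ r : Fin 8, gOK 14 (eR.getD r []) (gR.getD r []) (cR.getD r []) := by
  decide +kernel

/-- The five matroids of the cycle. -/
noncomputable def M (k : Fin 5) : Gen 15 := ⟨ofCode (sp 15 (gM.getD k [])), good_gen (M_ok k)⟩

/-- The eight classes on fourteen elements. -/
noncomputable def X (r : Fin 8) : Gen 14 := ⟨ofCode (sp 14 (gR.getD r [])), good_gen (X_ok r)⟩

/-- The certificate for the deletion of `x` from the matroid `k`. -/
def ce (k x : ℕ) : ℕ × List ℕ := (pM.getD k []).getD x (0, [])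

/-- The certificate is an odd automorphism of the deletion or an isomorphism to a listed class. -/
def tOK (k x : ℕ) : Prop :=
  ((ce k x).1 = 8 ∧ oddOK 14 (gM.getD k []) x (ce k x).2) ∨
  ((ce k x).1 < 8 ∧ wf 14 14 (ce k x).2 ∧ wf 15 14 (up x (ce k x).2) ∧
    img (gM.getD k []) (up x (ce k x).2) 0 = bits (spanL (gR.getD (ce k x).1 [])) ∧
    ∃ c ∈ gM.getD k [], c ∈ spanL (gM.getD k []) ∧ c.testBit x = true)

instance (k x : ℕ) : Decidable (tOK k x) := by unfold tOK; infer_instance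

theorem t_ok : ∀ (k : Fin 5) (x : Fin 15), tOK k x := by decide +kernel

/-- The coefficient of the class `r` in the deletion of `x` from the matroid `k`. -/
def cf (k x r : ℕ) : ℤ := if (ce k x).1 = r then (-1) ^ x * sgnL (ce k x).2 else 0

theorem cf_sum : ∀ r : Fin 8,
    ∑ k : Fin 5, ∑ x : Fin 15, co.getD k 0 * cf k x r = 0 := by decide +kernel

theorem term_eq (k : Fin 5) (x : Fin 15) : (Rel 14).mkQ (term (M k) x) =
    ∑ r : Fin 8, (cf k x r : ℚ) • (Rel 14).mkQ (Finsupp.single (X r) 1) := by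
  have hG := (M_ok k).1
  have hM : Codes (M k).1 (sp 15 (gM.getD k [])) := codes_ofCode _
  rcases t_ok k x with ⟨h1, h2⟩ | ⟨h1, h2, h3, h4, c, -, hc, hx⟩
  · rw [term_odd hM x (oddOK_sound hG x h2)]
    refine (Finset.sum_eq_zero fun r _ => ?_).symm
    rw [cf, if_neg (by omega), Int.cast_zero, zero_smul]
  · have hX : Codes (X ⟨_, h1⟩).1 (sp 14 (gR.getD (ce k x).1 [])) := codes_ofCode _
    rw [term_iso hM x ⟨_, (mem_sp 15 _ _).2 ⟨c, hc, rfl⟩, vec_ne_zero.2 hx, by simp⟩ (X ⟨_, h1⟩)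
      (mkP h2) ((iso_sound hG x h2 h3 h4).symm ▸ hX), sg_mkP, Finset.sum_eq_single ⟨_, h1⟩]
    · simp [cf]
    · intro r _ hr
      rw [cf, if_neg (fun h => hr (Fin.ext h.symm)), Int.cast_zero, zero_smul]
    · simp

/-- The cycle. -/
noncomputable def z : Chain 15 :=
  ∑ k : Fin 5, (co.getD k 0 : ℚ) • (Rel 15).mkQ (Finsupp.single (M k) 1)

theorem bd_z : bd 14 z = 0 := by
  simp only [z, map_sum, map_smul, bd_single, term_eq, Finset.smul_sum, smul_smul]
  rw [Finset.sum_congr rfl fun k _ => Finset.sum_comm, Finset.sum_comm]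
  refine Finset.sum_eq_zero fun r _ => ?_
  simp only [← Finset.sum_smul]
  have h : ∑ k : Fin 5, ∑ x : Fin 15, ((co.getD k 0 : ℤ) : ℚ) * (cf k x r : ℚ) = 0 := by
    exact_mod_cast cf_sum r
  rw [h, zero_smul]

theorem cob_Z (N : BC (Fin 16)) (hN : Reg N) : cob (p := 15) (ind gZ) N = 0 := by
  refine cob_zero_of _ (fun N hN h => ?_) N hN
  rw [cg] at h
  split_ifs at h with h1
  · obtain ⟨c, hc, rfl⟩ := ext_lemma tE_reps N h1.1 h1.2 (ind_ne_zero h)
    refine cert_sound (tE_ok c hc) _ ?_ hN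
    have hw : wf 16 16 [1, 0, 2, 3, 4, 5, 6, 7, 8, 9, 10, 11, 12, 13, 14, 15] := by decide
    exact Alt_odd _ _ (mkP hw) (mn_eq_sp0 (by simp) hw (by decide +kernel))
      (by rw [sg_mkP]; norm_num [sgnL])
  · exact absurd rfl h

theorem Alt_disc (L : BC (Fin 15)) (h : ¬ ConnC L) : Alt (ind gZ) L = 0 := by
  have hZ : ConnC (sp 15 gZ) := connC_sp (M_ok 0).1 (M_ok 0).2.2.2.2
  refine Finset.sum_eq_zero fun σ _ => ?_
  by_contra h0
  refine h fun A hA => ?_
  rcases (ind_ne_zero (right_ne_zero_of_mul h0) ▸ hZ : ConnC (mn L σ ∅)) _ (hA.mn σ ∅) with h2 | h2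
  · exact Or.inl ((Set.preimage_eq_empty_iff.1 h2).eq_bot_of_le (by
      simp [σ.surjective.range_eq]))
  · exact Or.inr (Set.eq_univ_of_univ_subset (by
      simpa [σ.surjective.range_eq] using Set.preimage_eq_univ_iff.1 h2))

/-- The cocycle on representatives. -/
noncomputable def prePhi : (Gen 15 →₀ ℚ) →ₗ[ℚ] ℚ :=
  Finsupp.linearCombination ℚ (fun M => Alt (ind gZ) (code M))

theorem prePhi_single {M : Gen 15} {K : BC (Fin 15)} (h : Codes M.1 K) :
    prePhi (Finsupp.single M 1) = Alt (ind gZ) K := by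
  simp [prePhi, (codes_code M).eq h]

theorem rel_le_ker : Rel 15 ≤ LinearMap.ker prePhi := by
  rw [Rel, Submodule.span_le]
  rintro _ ⟨M, M', σ, h, rfl⟩
  rw [SetLike.mem_coe, LinearMap.mem_ker, map_sub, map_smul, prePhi_single (codes_code M'),
    prePhi_single ((codes_code M').iso h), Alt_perm, smul_eq_mul, sg, sub_self]

/-- The cocycle. -/
noncomputable def Phi : Chain 15 →ₗ[ℚ] ℚ := (Rel 15).liftQ prePhi rel_le_ker

theorem Phi_mk (w : Gen 15 →₀ ℚ) : Phi ((Rel 15).mkQ w) = prePhi w := rfl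

theorem Phi_bd_single (M : Gen 16) : Phi (bd 15 ((Rel 16).mkQ (Finsupp.single M 1))) = 0 := by
  have h := codes_code M
  have hl := h.not_loop M.2.simple
  rw [bd_single, map_sum, ← cob_Z (code M) (h.reg (M.2.regular ℚ)), cob_eq_sum]
  refine Finset.sum_congr rfl fun x _ => ?_
  rw [Phi_mk, term]
  by_cases h1 : Cl (code M) x Set.univ
  · rw [if_pos ⟨h1, hl x⟩]
    split_ifs with h2
    · rw [map_smul, prePhi_single (h.del x), smul_eq_mul]
    · rw [Alt_disc _ fun h3 => h2 ⟨(h.not_coloop M.2.ground x).2 h1,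
        (h.del x).isConn (by norm_num) h3⟩]
      simp
  · rw [if_neg (fun h2 => h1 h2.1), dif_neg (fun h2 => h1 ((h.not_coloop M.2.ground x).1 h2.1))]
    simp

theorem Phi_bd (y : Chain 16) : Phi (bd 15 y) = 0 := by
  obtain ⟨w, rfl⟩ := (Rel 16).mkQ_surjective y
  induction w using Finsupp.induction_linear with
  | zero => simp
  | add f g hf hg => rw [map_add, map_add, map_add, hf, hg, add_zero]
  | single M t =>
    rw [← mul_one t, ← smul_eq_mul, ← Finsupp.smul_single, map_smul, map_smul, map_smul,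
      Phi_bd_single, smul_zero]

theorem Alt_zero (k : Fin 5) (h : ∀ t ∈ [7, 25, 42], t ∈ spanL (gM.getD k [])) :
    Alt (ind gZ) (sp 15 (gM.getD k [])) = 0 := by
  refine Finset.sum_eq_zero fun σ _ => ?_
  by_contra h0
  have h1 : mn (sp 15 gZ) σ.symm ∅ = sp 15 (gM.getD k []) := by
    rw [← ind_ne_zero (right_ne_zero_of_mul h0), mn_mn_empty _ σ.injective, Set.image_empty,
      σ.self_comp_symm, mn_id]
  simpa using search_restr (G := gZ) (M_ok 0).1 h _ srch_tri σ.symm σ.symm.injective h1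

theorem Phi_z : 0 < Phi z := by
  have h : ∀ k, Phi ((Rel 15).mkQ (Finsupp.single (M k) 1)) =
      Alt (ind gZ) (sp 15 (gM.getD k [])) := fun k => prePhi_single (codes_ofCode _)
  have h0 : 0 < Alt (ind gZ) (sp 15 (gM.getD (0 : Fin 5) [])) :=
    Alt_ind_pos (sg_of_srch (M_ok 0).1 (by decide +kernel) srch_aut)
  rw [z, map_sum]
  simp only [map_smul, h, Fin.sum_univ_five, Alt_zero 1 (by decide +kernel),
    Alt_zero 2 (by decide +kernel), Alt_zero 3 (by decide +kernel),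
    Alt_zero 4 (by decide +kernel), smul_eq_mul, mul_zero, add_zero]
  exact mul_pos (by simp [co]) h0

theorem wheelSpan_15 : wheelSpan 15 = ⊥ := by
  rw [wheelSpan, Submodule.span_eq_bot]
  rintro _ ⟨M, h | ⟨k, -, e, -⟩, rfl⟩
  · exact absurd h.1 (by norm_num)
  · have := Fintype.card_congr e
    simp only [Fintype.card_fin, Fintype.card_sum, ZMod.card] at this
    omega

theorem main : ∃ z : Chain 15, bd 14 z = 0 ∧ z ∉ LinearMap.range (bd 15) ⊔ wheelSpan 15 := by
  refine ⟨z, bd_z, ?_⟩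
  rw [wheelSpan_15, sup_bot_eq]
  rintro ⟨y, hy⟩
  have h := Phi_bd y
  rw [hy] at h
  exact Phi_z.ne' h

end Pool.Agent.Lib.MP_4eafcb_co.Odd
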