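import Pool.Agent.Lib.MP_4eafcb_co.Data

set_option autoImplicit false

namespace Pool.Agent.Lib.MP_4eafcb_co

theorem srch_CK : srch 16 (okR (bits (spanL gC)) gK) (fun a => a.all (· < 6)) 6 [] = true := by
  refine srch_split fun x hx => ?_
  interval_cases x <;> decide +kernel
theorem srch_CW : srch 16 (okR (bits (spanL gC)) gW) (fun _ => false) 10 [] = true := by
  refine srch_split fun x hx => ?_
  interval_cases x <;> decide +kernel
theorem srch_CG : srch 16 (okR (bits (spanL gC)) gG) (fun _ => false) 10 [] = true := by
  refine srch_split fun x hx => ?_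
  interval_cases x <;> decide +kernel

end Pool.Agent.Lib.MP_4eafcb_co
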