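import Pool.Agent.Lib.MP_4eafcb_co.Cocycle
import Pool.Agent.Lib.MP_4eafcb_co.SearchA
import Pool.Agent.Lib.MP_4eafcb_co.SearchB
import Pool.Agent.Lib.MP_4eafcb_co.SearchC

set_option autoImplicit false

namespace Pool.Agent.Lib.MP_4eafcb_co

open Equiv

/-- The first six positions. -/
def iP : Fin 6 → Fin 16 := Fin.castAdd 10

/-- The last ten positions. -/
def iQ : Fin 10 → Fin 16 := Fin.natAdd 6

theorem iP_inj : Function.Injective iP := by decide

theorem iQ_inj : Function.Injective iQ := by decide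

theorem range_iQ : Set.range iQ = (Set.range iP)ᶜ := by
  ext y
  simp only [Set.mem_compl_iff, Set.mem_range]
  revert y
  decide

/-- The commutator cochain before antisymmetrisation. -/
noncomputable def g0 (L : BC (Fin 16)) : ℚ :=
  ind gK (mn L iP ∅) * b0 (mn L iQ (Set.range iP)) -
    b0 (mn L iQ ∅) * ind gK (mn L iP (Set.range iQ))

theorem g0_mn {β : Type} (K : BC β) {s : Fin 16 → β} (hs : Function.Injective s) :
    g0 (mn K s ∅) = ind gK (mn K (s ∘ iP) ∅) * b0 (mn K (s ∘ iQ) (Set.range (s ∘ iP))) -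
      b0 (mn K (s ∘ iQ) ∅) * ind gK (mn K (s ∘ iP) (Set.range (s ∘ iQ))) := by
  simp only [g0, mn_mn_empty K hs, Set.image_empty, Set.range_comp]

/-- The first seven of seventeen positions. -/
def jP : Fin 7 ↪ Fin 17 := ⟨Fin.cons 0 (Fin.succ ∘ iP), by decide⟩

/-- Position zero and the last ten of seventeen positions. -/
def jQ : Fin 11 ↪ Fin 17 := ⟨Fin.cons 0 (Fin.succ ∘ iQ), by decide⟩

theorem cob_g0 (N : BC (Fin 17)) (hN : Reg N) (hl : ∀ x, ¬ Cl N x ∅) : cob g0 N = 0 := by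
  have h1 := split_zero (ind gK) b0 cob_K cob_b0 N hN hl jP jQ rfl (by decide) (by
    simp only [Set.mem_range]; decide)
  have h2 := split_zero b0 (ind gK) cob_b0 cob_K N hN hl jQ jP rfl (by decide) (by
    simp only [Set.mem_range]; decide)
  have h3 := congrArg₂ (· - ·) h1 h2
  simp only [sub_self, ← Finset.sum_sub_distrib] at h3
  refine Eq.trans (Finset.sum_congr rfl fun τ _ => ?_) h3
  have e1 : τ ∘ jP ∘ Fin.succ = (τ ∘ Fin.succ) ∘ iP := rfl
  have e2 : τ ∘ jQ ∘ Fin.succ = (τ ∘ Fin.succ) ∘ iQ := rfl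
  have e3 : jP 0 = 0 := rfl
  have e4 : jQ 0 = 0 := rfl
  rw [g0_mn N (τ.injective.comp (Fin.succ_injective _)), e1, e2, e3, e4, ← mul_sub]
  by_cases h : Cl N (τ 0) Set.univ <;> simp [h, hl]

theorem ind_ne_zero {n : ℕ} {G : List ℕ} {L : BC (Fin n)} (h : ind G L ≠ 0) : L = sp n G := by
  by_contra h1
  exact h (if_neg h1)

theorem g0_disc (L : BC (Fin 16)) (h : ¬ ConnC L) : g0 L = 0 := by
  by_contra h0
  have hK : ConnC (sp 6 gK) := connC_sp (by decide) conn_K
  have hb : ∀ L : BC (Fin 10), b0 L ≠ 0 → ConnC L := by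
    intro L hL
    rcases b0_ne_zero hL with rfl | rfl
    · exact connC_sp (by decide) conn_W
    · exact connC_sp (by decide) conn_G
  have h1 : ∃ F F', ConnC (mn L iP F) ∧ ConnC (mn L iQ F') := by
    by_cases h1 : ind gK (mn L iP ∅) * b0 (mn L iQ (Set.range iP)) = 0
    · have h2 : b0 (mn L iQ ∅) * ind gK (mn L iP (Set.range iQ)) ≠ 0 := by
        intro h2
        exact h0 (by rw [g0, h1, h2, sub_zero])
      exact ⟨_, _, ind_ne_zero (right_ne_zero_of_mul h2) ▸ hK, hb _ (left_ne_zero_of_mul h2)⟩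
    · exact ⟨_, _, ind_ne_zero (left_ne_zero_of_mul h1) ▸ hK, hb _ (right_ne_zero_of_mul h1)⟩
  obtain ⟨F, F', hP, hQ⟩ := h1
  have h2 : Sep L (Set.range iP) := by
    rw [ConnC] at h
    push Not at h
    obtain ⟨A, hA, hA1, hA2⟩ := h
    have cov : ∀ y : Fin 16, (∃ i, iP i = y) ∨ ∃ j, iQ j = y := by decide
    have dis : ∀ i j, iP i ≠ iQ j := by decide
    rcases hP _ (hA.mn iP F) with h3 | h3 <;> rcases hQ _ (hA.mn iQ F') with h4 | h4
    · obtain ⟨y, hy⟩ := hA1
      rcases cov y with ⟨i, rfl⟩ | ⟨i, rfl⟩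
      · exact absurd (show i ∈ iP ⁻¹' A from hy) (by simp [h3])
      · exact absurd (show i ∈ iQ ⁻¹' A from hy) (by simp [h4])
    · have : Set.range iP = Aᶜ := by
        ext y
        rcases cov y with ⟨i, rfl⟩ | ⟨i, rfl⟩
        · have : i ∉ iP ⁻¹' A := by simp [h3]
          simpa using this
        · have : i ∈ iQ ⁻¹' A := by simp [h4]
          have h5 : iQ i ∈ A := this
          simp [dis, h5]
      exact this ▸ hA.compl
    · have : Set.range iP = A := by
        ext y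
        rcases cov y with ⟨i, rfl⟩ | ⟨i, rfl⟩
        · have : i ∈ iP ⁻¹' A := by simp [h3]
          simpa using this
        · have : i ∉ iQ ⁻¹' A := by simp [h4]
          have h5 : iQ i ∉ A := this
          simp [dis, h5]
      exact this ▸ hA
    · refine absurd (Set.eq_univ_of_forall fun y => ?_) hA2
      rcases cov y with ⟨i, rfl⟩ | ⟨i, rfl⟩
      · exact show i ∈ iP ⁻¹' A by simp [h3]
      · exact show i ∈ iQ ⁻¹' A by simp [h4]
  have h3 : Sep L (Set.range iQ) := range_iQ ▸ h2.compl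
  apply h0
  rw [g0, h2.mn_eq (Set.range iQ), h3.mn_eq (Set.range iP)]
  ring

theorem Alt_disc (L : BC (Fin 16)) (h : ¬ ConnC L) : Alt g0 L = 0 := by
  refine Finset.sum_eq_zero fun σ _ => ?_
  rw [g0_disc _ fun h1 => h fun A hA => ?_, mul_zero]
  rcases h1 _ (hA.mn σ ∅) with h2 | h2
  · exact Or.inl ((Set.preimage_eq_empty_iff.1 h2).eq_bot_of_le (by
      simp [σ.surjective.range_eq]))
  · exact Or.inr (Set.eq_univ_of_univ_subset (by
      simpa [σ.surjective.range_eq] using Set.preimage_eq_univ_iff.1 h2))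

theorem b0_zero {G : List ℕ} (hG : ∀ g ∈ G, g < 2 ^ 16)
    (hW : srch 16 (okR (bits (spanL G)) gW) (fun _ => false) 10 [] = true)
    (hG' : srch 16 (okR (bits (spanL G)) gG) (fun _ => false) 10 [] = true)
    (f : Fin 10 → Fin 16) (hf : Function.Injective f) : b0 (mn (sp 16 G) f ∅) = 0 := by
  by_contra h
  rcases b0_ne_zero h with h1 | h1
  · simpa using search_restr hG (by decide) _ hW f hf h1
  · simpa using search_restr hG (by decide) _ hG' f hf h1

theorem Alt_zero {G : List ℕ} (hG : ∀ g ∈ G, g < 2 ^ 16)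
    (hK : srch 16 (okR (bits (spanL G)) gK) (fun _ => false) 6 [] = true)
    (hW : srch 16 (okR (bits (spanL G)) gW) (fun _ => false) 10 [] = true)
    (hG' : srch 16 (okR (bits (spanL G)) gG) (fun _ => false) 10 [] = true) :
    Alt g0 (sp 16 G) = 0 := by
  refine Finset.sum_eq_zero fun σ _ => ?_
  have h1 : ind gK (mn (sp 16 G) (σ ∘ iP) ∅) = 0 := by
    by_contra h
    simpa using search_restr hG (by decide) _ hK _ (σ.injective.comp iP_inj) (ind_ne_zero h)
  rw [g0_mn _ σ.injective, h1, b0_zero hG hW hG' _ (σ.injective.comp iQ_inj)]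
  simp

theorem Alt_A : Alt g0 (sp 16 gA) = 0 := Alt_zero (by decide) srch_AK srch_AW srch_AG

theorem Alt_B : Alt g0 (sp 16 gB) = 0 := Alt_zero (by decide) srch_BK srch_BW srch_BG

theorem exists_split (σ : Perm (Fin 16)) (h : ∀ i, (σ (iP i) : ℕ) < 6) :
    ∃ (α : Perm (Fin 6)) (β : Perm (Fin 10)), σ ∘ iP = iP ∘ α ∧ σ ∘ iQ = iQ ∘ β ∧
      sg σ = sg α * sg β := by
  let e : Fin 6 ⊕ Fin 10 ≃ Fin 16 := finSumFinEquiv
  obtain ⟨⟨α, β⟩, h1⟩ := Perm.mem_sumCongrHom_range_of_perm_mapsTo_inl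
    (σ := e.symm.permCongr σ) (by
      rintro _ ⟨i, rfl⟩
      refine ⟨⟨σ (iP i), h i⟩, ?_⟩
      rw [Equiv.permCongr_apply, Equiv.symm_symm, Equiv.eq_symm_apply]
      rfl)
  have h2 : ∀ x, e (Perm.sumCongr α β x) = σ (e x) := by
    intro x
    have := DFunLike.congr_fun h1 x
    rw [Perm.sumCongrHom_apply, Equiv.permCongr_apply, Equiv.symm_symm,
      Equiv.eq_symm_apply] at this
    exact this
  refine ⟨α, β, funext fun i => (h2 (Sum.inl i)).symm, funext fun i => (h2 (Sum.inr i)).symm, ?_⟩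
  have h3 := congrArg Perm.sign h1
  rw [Perm.sumCongrHom_apply, Perm.sign_sumCongr, Perm.sign_permCongr] at h3
  simp [sg, ← h3]

theorem Alt_C : 0 < Alt g0 (sp 16 gC) := by
  have hG : ∀ g ∈ gC, g < 2 ^ 16 := by decide
  have hP : mn (sp 16 gC) iP ∅ = sp 6 gK := by
    have h1 : fn 16 6 [0, 1, 2, 3, 4, 5] = iP := by decide
    rw [← h1]
    exact mn_eq_sp0 hG (by decide) (by decide +kernel)
  have hQ : mn (sp 16 gC) iQ (Set.range iP) = sp 10 gG := by
    have h1 : fn 16 10 [6, 7, 8, 9, 10, 11, 12, 13, 14, 15] = iQ := by decide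
    have h2 : msk 16 63 = Set.range iP := by
      ext y
      simp only [msk, Set.mem_ofPred_eq, Set.mem_range]
      revert y
      decide
    rw [← h1, ← h2]
    exact mn_eq_sp hG (by decide) (by decide +kernel)
  have hd : ∀ b, iQ b ∉ Set.range iP := by
    simp only [Set.mem_range]
    decide
  have key : ∀ σ : Perm (Fin 16), sg σ * g0 (mn (sp 16 gC) σ ∅) =
      sg σ * (ind gK (mn (sp 16 gC) (σ ∘ iP) ∅) *
        b0 (mn (sp 16 gC) (σ ∘ iQ) (Set.range (σ ∘ iP)))) := by
    intro σ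
    rw [g0_mn _ σ.injective, b0_zero hG srch_CW srch_CG _ (σ.injective.comp iQ_inj), zero_mul,
      sub_zero]
  have hb : ∀ β : Perm (Fin 10), b0 (mn (sp 10 gG) β ∅) = AW * ind gG (mn (sp 10 gG) β ∅) := by
    intro β
    simp [b0, ind, not_GW]
  refine Finset.sum_pos' (fun σ _ => ?_) ⟨1, Finset.mem_univ _, ?_⟩
  · rw [key]
    by_cases h : ind gK (mn (sp 16 gC) (σ ∘ iP) ∅) = 0
    · simp [h]
    have h1 := ind_ne_zero h
    have h2 := search_restr hG (by decide) _ srch_CK _ (σ.injective.comp iP_inj) h1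
    obtain ⟨α, β, e1, e2, e3⟩ := exists_split σ (by
      simpa only [List.all_eq_true, List.forall_mem_ofFn_iff, decide_eq_true_eq,
        Function.comp_apply] using h2)
    have e4 : mn (sp 16 gC) (iP ∘ α) ∅ = mn (sp 6 gK) α ∅ := by
      rw [← hP, mn_mn_empty _ iP_inj, Set.image_empty]
    rw [e1, e4] at h1
    rw [e1, e2, e3, e4, h1, α.surjective.range_comp, ← mn_mn_empty' _ iQ_inj hd, hQ, hb,
      aut_K α h1]
    simp only [ind, if_true]
    split_ifs with h3
    · rw [aut_G β h3]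
      simpa using AW_pos.le
    · simp
  · have h1 := hb 1
    rw [Perm.coe_one, mn_id] at h1
    rw [key, Perm.coe_one, Function.id_comp, Function.id_comp, hP, hQ, h1]
    simpa [ind, sg] using AW_pos

end Pool.Agent.Lib.MP_4eafcb_co
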